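import Pool.Agent.H707R.LF.DefsC

set_option autoImplicit false

open scoped Kronecker

namespace Pool.Agent.H707R.LF

open Pool.Agent.Helper278 Pool.Agent.Helper436.SM

/-- a choice of range projections (left supports) -/
structure Rick {A : Type} [Ring A] [StarRing A] (rp : A → A) : Prop where
  sa : ∀ x, star (rp x) = rp x
  idem : ∀ x, rp x * rp x = rp x
  mul : ∀ x, rp x * x = x
  ann : ∀ y x, y * x = 0 → y * rp x = 0

/-! ### the hypercube -/

/-- flip a coordinate -/
def flp {κ : Type} [DecidableEq κ] (k : κ) (v : κ → Bool) : κ → Bool :=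
  Function.update v k (!v k)

/-- parity of the number of coordinates `true` -/
def par {κ : Type} [Fintype κ] (v : κ → Bool) : Bool :=
  decide ((Finset.univ.filter (fun k => v k = true)).card % 2 = 1)

/-- vertex projections: the even ones and the odd ones are partitions of unity, and only
neighbouring vertices interact -/
structure HG {κ : Type} [Fintype κ] [DecidableEq κ] {A : Type} [Ring A] [StarRing A]
    (G : (κ → Bool) → A) : Prop where
  sa : ∀ v, star (G v) = G v
  idem : ∀ v, G v * G v = G v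
  orth : ∀ v w, v ≠ w → par v = par w → G v * G w = 0
  sum : ∀ b, ∑ v ∈ Finset.univ.filter (fun v => par v = b), G v = 1
  nonadj : ∀ v w, par v ≠ par w → (∀ k, w ≠ flp k v) → G v * G w = 0

/-- the edge operators -/
def zO {κ : Type} [Fintype κ] [DecidableEq κ] {A : Type} [Ring A] (G : (κ → Bool) → A)
    (k : κ) : A :=
  ∑ v ∈ Finset.univ.filter (fun v => par v = false), G v * G (flp k v) * G v

/-- vertex projections of the refined family -/
def vG {κ : Type} {A : Type} [Ring A] (r : (κ → Bool) → Out → A) (v : κ → Bool) : A := ∑ o, r v o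

/-- the exact part of the relations of the refined family -/
structure HP {κ : Type} [Fintype κ] [DecidableEq κ] {A : Type} [Ring A] [StarRing A]
    (r : (κ → Bool) → Out → A) : Prop where
  sa : ∀ v o, star (r v o) = r v o
  idem : ∀ v o, r v o * r v o = r v o
  orth : ∀ v w o o', (v ≠ w ∨ o ≠ o') → par v = par w → r v o * r w o' = 0
  sum : ∀ b, ∑ v ∈ Finset.univ.filter (fun v => par v = b), ∑ o, r v o = 1

/-- the relations of the refined family, `ℓ v` is the context placed at the vertex `v` -/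
structure HC {κ : Type} [Fintype κ] [DecidableEq κ] {A : Type} [Ring A] [StarRing A]
    (ℓ : (κ → Bool) → Ctx) (r : (κ → Bool) → Out → A) : Prop where
  hp : HP r
  nonadj : ∀ v w o o', par v ≠ par w → (∀ k, w ≠ flp k v) → r v o * r w o' = 0
  bad : ∀ v k o o', Bad (ℓ v) o (ℓ (flp k v)) o' → r v o * r (flp k v) o' = 0

/-- `P` is the common support of the commuting self-adjoint elements `z k` -/
structure Supp {κ A : Type} [Ring A] [StarRing A] (z : κ → A) (P : A) : Prop where
  sa : star P = P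
  idem : P * P = P
  comm : ∀ k, P * z k = z k * P
  cancel : ∀ k y, y * z k * P = 0 → y * P = 0
  low : ∀ y, (∀ k x, x * z k = 0 → x * y = 0) → P * y = y

/-- from the vertex `v` one reaches, along edges with equal labels, a vertex at which the edge in
direction `k` has equal labels -/
inductive Reach {κ : Type} [DecidableEq κ] (ℓ : (κ → Bool) → Ctx) : (κ → Bool) → κ → Prop
  | base (v : κ → Bool) (k : κ) : ℓ (flp k v) = ℓ v → Reach ℓ v k
  | step (v : κ → Bool) (l k : κ) : ℓ (flp l v) = ℓ v → Reach ℓ (flp l v) k → Reach ℓ v k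

/-- products of the `z k` -/
inductive IsZ {κ A : Type} [Ring A] (z : κ → A) : A → Prop
  | one : IsZ z 1
  | mul (k : κ) (x : A) : IsZ z x → IsZ z (z k * x)

/-- operators along paths from the vertex `false` -/
structure Paths {κ : Type} [Fintype κ] [DecidableEq κ] {A : Type} [Ring A]
    (G T : (κ → Bool) → A) : Prop where
  zero : T (fun _ => false) = G (fun _ => false)
  left : ∀ v, G v * T v = T v
  right : ∀ v, T v * G (fun _ => false) = T v
  step : ∀ v k, v k = false → T (flp k v) = G (flp k v) * T v ∨ T (flp k v) = -(G (flp k v) * T v)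

/-- data for the construction of a solution of the system of contexts -/
structure Glue {κ : Type} [Fintype κ] [DecidableEq κ] {A : Type} [Ring A] [StarRing A]
    (rp : A → A) (ℓ : (κ → Bool) → Ctx) (r : (κ → Bool) → Out → A) (P : A)
    (T : (κ → Bool) → A) : Prop where
  rick : Rick rp
  hc : HC ℓ r
  supp : Supp (zO (vG r)) P
  rP : ∀ v o, r v o * P = P * r v o
  rz : ∀ v o k, r v o * zO (vG r) k * P = zO (vG r) k * r v o * P
  paths : Paths (vG r) T

/-- the transported projections -/
def pv {κ : Type} {A : Type} [Ring A] [StarRing A] (rp : A → A) (r : (κ → Bool) → Out → A) (P : A)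
    (T : (κ → Bool) → A) (v : κ → Bool) (o : Out) : A := rp (star (T v) * r v o * P)

/-- the coordinates of the hypercube: `x`, `y` and a switch -/
abbrev Kap (m : ℕ) : Type := Fin m ⊕ Fin m ⊕ Unit

/-- the labels of the hypercube -/
def lab {m : ℕ} (f : (Fin m → Bool) → Ctx) (v : Kap m → Bool) : Ctx :=
  if v (Sum.inr (Sum.inr ())) = true then f (fun i => v (Sum.inr (Sum.inl i)))
  else f (fun i => v (Sum.inl i))

/-! ### approximate solutions -/

/-- the normalised trace of matrices -/
noncomputable def ntr (Y : Type) [Fintype Y] : Matrix Y Y ℂ →ₗ[ℂ] ℂ :=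
  ((Fintype.card Y : ℂ)⁻¹) • Matrix.traceLinearMap Y ℂ ℂ

/-- finite approximations of the self-similar action -/
structure Comb {Ω : Type} (g : Fin 3 → Equiv.Perm Ω) (Θ : Equiv.Perm (Bool × Ω))
    (b b' : Ω → Bool) : Prop where
  gg : ∀ s ω, g s (g s ω) = ω
  bg : ∀ s ω, b (g s ω) = b ω
  bg' : ∀ s ω, b' (g s ω) = b' ω
  bT : ∀ y, b' (Θ y).2 = b y.2
  tw : ∀ s x ω, b ω = false →
    Θ (x, g s ω) = (lout s (Θ (x, ω)).1, g (lsec s (Θ (x, ω)).1) (Θ (x, ω)).2)

/-- self-adjoint unitary -/
def Inv1 {A : Type} [Ring A] [StarRing A] (x : A) : Prop := star x = x ∧ x * x = 1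

/-- an approximate model of the operators of the system -/
structure Mod {A : Type} [Ring A] [StarRing A] (g H H' : Fin 3 → A) (X Z a B P Q S β : A) :
    Prop where
  ig : ∀ s, Inv1 (g s)
  iH : ∀ s, Inv1 (H s)
  iH' : ∀ s, Inv1 (H' s)
  iX : Inv1 X
  iZ : Inv1 Z
  ia : Inv1 a
  iB : Inv1 B
  iP : Inv1 P
  iQ : Inv1 Q
  iS : Inv1 S
  gX : ∀ s, g s * X = X * g s
  gZ : ∀ s, g s * Z = Z * g s
  ga : ∀ s, g s * a = a * g s
  gB : ∀ s, g s * B = B * g s
  Xa : X * a = a * X
  ZB : Z * B = B * Z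
  XB : X * B = B * X
  Za : Z * a = a * Z
  XZ : X * Z = -(Z * X)
  aB : a * B = -(B * a)
  SP : S * P = P * S
  SQ : S * Q = Q * S
  QB : Q * B = B * Q
  PB : P * B = B * P
  PQ : P * Q = -(Q * P)
  SB : S * B = -(B * S)
  SH : ∀ s, S * H' s = H' s * S
  Hp : ∀ s, H s * (1 + B) = g s * (1 + B)
  H0 : H 0 * ((1 - B) * (1 + Z)) = g 2 * ((1 - B) * (1 + Z))
  H0' : H 0 * ((1 - B) * (1 - Z)) = g 1 * ((1 - B) * (1 - Z))
  H1 : H 1 * ((1 - B) * (1 + Z)) = g 1 * ((1 - B) * (1 + Z))
  H1' : H 1 * ((1 - B) * (1 - Z)) = g 2 * ((1 - B) * (1 - Z))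
  H2 : H 2 * (1 - B) = g 0 * X * (1 - B)
  bs : star β = β
  bb : β * β = β
  bH : ∀ s, β * H s = H s * β
  bH' : ∀ s, β * H' s = H' s * β
  HH : ∀ s, H' s * (1 - β) = H s * (1 - β)

/-- the three commuting observables of a context -/
def cOp {A : Type} [Ring A] (g H' : Fin 3 → A) (X Z a B P Q S : A) : Ctx → A × A × A
  | .U s => (g s, X, a)
  | .V s => (g s, Z, B)
  | .D => (g 0, X, B)
  | .R3 => (X * B, Z * a, 1)
  | .C2 => (Z, a, 1)
  | .C3 => (X * a, Z * B, 1)
  | .SP => (S, P, 1)
  | .QB => (Q, B, 1)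
  | .M1 => (S * Q, B * P, 1)
  | .SQ => (S, Q, 1)
  | .PB => (P, B, 1)
  | .M2 => (S * P, B * Q, 1)
  | .T s => (S, H' s, 1)

/-- the operator of an observable -/
def oOp {A : Type} [Ring A] (g H : Fin 3 → A) (X Z a B P Q S : A) : Obs → A
  | .L s => g s
  | .X => X
  | .A => a
  | .Z => Z
  | .B => B
  | .XA => X * a
  | .ZB => Z * B
  | .XB => X * B
  | .ZA => Z * a
  | .Y => X * B * (Z * a)
  | .S => S
  | .P => P
  | .Q => Q
  | .SP => S * P
  | .BQ => B * Q
  | .SQ => S * Q
  | .BP => B * P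
  | .Y2 => S * Q * (B * P)
  | .H s => H s

/-- spectral projection of a symmetry -/
noncomputable def hf {A : Type} [Ring A] [Algebra ℂ A] (x : A) (b : Bool) : A :=
  (1 / 2 : ℂ) • (1 + sgn b • x)

/-- the joint spectral projections of a context -/
noncomputable def cM {A : Type} [Ring A] [Algebra ℂ A] (c : A × A × A) (o : Out) : A :=
  hf c.1 o.1 * (hf c.2.1 o.2.1 * hf c.2.2 o.2.2)

end Pool.Agent.H707R.LF
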