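import Pool.Agent.H707R.LF.Defs

set_option autoImplicit false

namespace Pool.Agent.H707R.LF

/-! ### the Bellaterra automaton: letters `0 = a`, `1 = b`, `2 = c` -/

/-- section of the letter `s` at the bit `y` : `a = (c, b)`, `b = (b, c)`, `c = (a, a)σ` -/
def lsec : Fin 3 → Bool → Fin 3
  | 0, false => 2
  | 0, true => 1
  | 1, false => 1
  | 1, true => 2
  | 2, _ => 0

/-- action of the letter `s` on the bit `y` -/
def lout (s : Fin 3) (y : Bool) : Bool := if s = 2 then !y else y

/-- section of a word at the bit `x` (the rightmost letter acts first), and the image of `x` -/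
def secW (x : Bool) : List (Fin 3) → List (Fin 3) × Bool
  | [] => ([], x)
  | s :: l => (lsec s (secW x l).2 :: (secW x l).1, lout s (secW x l).2)

/-! ### the system of contexts -/

/-- contexts (maximal sets of commuting observables) -/
inductive Ctx where
  | U (s : Fin 3)   -- (s, X, A)
  | V (s : Fin 3)   -- (s, Z, B)
  | D               -- (a, X, B)
  | R3              -- (XB, ZA, -)
  | C2              -- (Z, A, -)
  | C3              -- (XA, ZB, -)
  | SP              -- (S, P, -)
  | QB              -- (Q, B, -)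
  | M1              -- (SQ, BP, -)
  | SQ              -- (S, Q, -)
  | PB              -- (P, B, -)
  | M2              -- (SP, BQ, -)
  | T (s : Fin 3)   -- (S, H_s, -)
deriving DecidableEq, Fintype

/-- outcomes; `true` stands for the value `-1` -/
abbrev Out : Type := Bool × Bool × Bool

/-- observables -/
inductive Obs where
  | L (s : Fin 3)
  | X | A | Z | B | XA | ZB | XB | ZA | Y | S | P | Q | SP | BQ | SQ | BP | Y2
  | H (s : Fin 3)
deriving DecidableEq

/-- the value of the observable `x` at the outcome `o` of the context `C`, if it is determined -/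
def obs : Ctx → Out → Obs → Option Bool
  | .U s, o, .L t => if t = s then some o.1 else none
  | .U _, o, .X => some o.2.1
  | .U _, o, .A => some o.2.2
  | .U _, o, .XA => some (xor o.2.1 o.2.2)
  | .V s, o, .L t => if t = s then some o.1 else none
  | .V _, o, .Z => some o.2.1
  | .V _, o, .B => some o.2.2
  | .V _, o, .ZB => some (xor o.2.1 o.2.2)
  | .V s, o, .H t =>
    if o.2.2 = false then (if t = s then some o.1 else none)
    else if t = 2 then none
    else if lsec t o.2.1 = s then some o.1 else none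
  | .D, o, .L t => if t = 0 then some o.1 else none
  | .D, o, .X => some o.2.1
  | .D, o, .B => some o.2.2
  | .D, o, .XB => some (xor o.2.1 o.2.2)
  | .D, o, .H t => if t = 2 ∧ o.2.2 = true then some (xor o.1 o.2.1) else none
  | .R3, o, .XB => some o.1
  | .R3, o, .ZA => some o.2.1
  | .R3, o, .Y => some (xor o.1 o.2.1)
  | .C2, o, .Z => some o.1
  | .C2, o, .A => some o.2.1
  | .C2, o, .ZA => some (xor o.1 o.2.1)
  | .C3, o, .XA => some o.1
  | .C3, o, .ZB => some o.2.1
  | .C3, o, .Y => some (!(xor o.1 o.2.1))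
  | .SP, o, .S => some o.1
  | .SP, o, .P => some o.2.1
  | .SP, o, .SP => some (xor o.1 o.2.1)
  | .QB, o, .Q => some o.1
  | .QB, o, .B => some o.2.1
  | .QB, o, .BQ => some (xor o.1 o.2.1)
  | .M1, o, .SQ => some o.1
  | .M1, o, .BP => some o.2.1
  | .M1, o, .Y2 => some (xor o.1 o.2.1)
  | .SQ, o, .S => some o.1
  | .SQ, o, .Q => some o.2.1
  | .SQ, o, .SQ => some (xor o.1 o.2.1)
  | .PB, o, .P => some o.1
  | .PB, o, .B => some o.2.1
  | .PB, o, .BP => some (xor o.1 o.2.1)
  | .M2, o, .SP => some o.1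
  | .M2, o, .BQ => some o.2.1
  | .M2, o, .Y2 => some (!(xor o.1 o.2.1))
  | .T _, o, .S => some o.1
  | .T s, o, .H t => if t = s then some o.2.1 else none
  | _, _, _ => none

/-- incompatible outcomes -/
def Bad (C : Ctx) (o : Out) (C' : Ctx) (o' : Out) : Prop :=
  (C = C' ∧ o ≠ o') ∨ ∃ x v v', obs C o x = some v ∧ obs C' o' x = some v' ∧ v ≠ v'

/-- a solution of the system of contexts, in the corner with unit `e` -/
structure Sys {A : Type} [Ring A] (e : A) (m : Ctx → Out → A) : Prop where
  idem : ∀ C o, m C o * m C o = m C o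
  sum : ∀ C, ∑ o, m C o = e
  bad : ∀ C o C' o', Bad C o C' o' → m C o * m C' o' = 0

/-- `(-1)^b` -/
def sgn (b : Bool) : ℂ := if b then -1 else 1

/-- the operator of the function `f` of the outcomes -/
noncomputable def op {A : Type} [Ring A] [Algebra ℂ A] (m : Out → A) (f : Out → Bool) : A :=
  ∑ o, sgn (f o) • m o

/-- a partition of `e` into orthogonal idempotents -/
structure Pvm {A : Type} [Ring A] (e : A) (m : Out → A) : Prop where
  idem : ∀ o, m o * m o = m o
  orth : ∀ o o', o ≠ o' → m o * m o' = 0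
  sum : ∑ o, m o = e

/-- `g_s` -/
noncomputable def gO {A : Type} [Ring A] [Algebra ℂ A] (m : Ctx → Out → A) (s : Fin 3) : A :=
  op (m (.U s)) (fun o => o.1)

/-- `X` -/
noncomputable def XO {A : Type} [Ring A] [Algebra ℂ A] (m : Ctx → Out → A) : A :=
  op (m (.U 0)) (fun o => o.2.1)

/-- `a` -/
noncomputable def aO {A : Type} [Ring A] [Algebra ℂ A] (m : Ctx → Out → A) : A :=
  op (m (.U 0)) (fun o => o.2.2)

/-- `Z` -/
noncomputable def ZO {A : Type} [Ring A] [Algebra ℂ A] (m : Ctx → Out → A) : A :=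
  op (m (.V 0)) (fun o => o.2.1)

/-- `B` -/
noncomputable def BO {A : Type} [Ring A] [Algebra ℂ A] (m : Ctx → Out → A) : A :=
  op (m (.V 0)) (fun o => o.2.2)

/-- `S` -/
noncomputable def SO {A : Type} [Ring A] [Algebra ℂ A] (m : Ctx → Out → A) : A :=
  op (m (.T 0)) (fun o => o.1)

/-- `H_s` -/
noncomputable def HO {A : Type} [Ring A] [Algebra ℂ A] (m : Ctx → Out → A) (s : Fin 3) : A :=
  op (m (.T s)) (fun o => o.2.1)

/-- the algebraic relations used for the trace recursion (`e` is the unit) -/
structure Rel {A : Type} [Ring A] (e : A) (g H : Fin 3 → A) (X a S ep em f0 f1 : A) : Prop where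
  ee : e * e = e
  eg : ∀ s, e * g s = g s
  ge : ∀ s, g s * e = g s
  eH : ∀ s, e * H s = H s
  He : ∀ s, H s * e = H s
  eX : e * X = X
  Xe : X * e = X
  ea : e * a = a
  ae : a * e = a
  eS : e * S = S
  Se : S * e = S
  gg : ∀ s, g s * g s = e
  XX : X * X = e
  aa : a * a = e
  SS : S * S = e
  gX : ∀ s, g s * X = X * g s
  ga : ∀ s, g s * a = a * g s
  gep : ∀ s, g s * ep = ep * g s
  gf : ∀ s, g s * f0 = f0 * g s
  pp : ep * ep = ep
  ff : f0 * f0 = f0
  pe : ep + em = e
  fe : f0 + f1 = e
  epe : e * ep = ep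
  pee : ep * e = ep
  efe : e * f0 = f0
  fee : f0 * e = f0
  pf : ep * f0 = f0 * ep
  Xf : X * f0 = f1 * X
  Xp : X * ep = ep * X
  ap : a * ep = em * a
  af : a * f0 = f0 * a
  Sp : S * ep = em * S
  SH : ∀ s, S * H s = H s * S
  Hp : ∀ s, H s * ep = g s * ep
  H0 : H 0 * em = (g 2 * f0 + g 1 * f1) * em
  H1 : H 1 * em = (g 1 * f0 + g 2 * f1) * em
  H2 : H 2 * em = g 0 * X * em

end Pool.Agent.H707R.LF
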