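import Mathlib
import Pool.Agent.Helper436.SM.ExR
import Pool.Agent.Helper278.Defs
import Pool.Agent.Helper278.DefsK
import Pool.Agent.Helper278.TrAlg

/-!
Project LF (helper707): independent unitaries of `N^U` need not lift to independent unitaries
(`N = ℂ^r ⊕ R`).  Common definitions.
-/

set_option autoImplicit false

open scoped InnerProductSpace ComplexOrder BoundedContinuousFunction
open Filter

namespace Pool.Agent.H707R.LF

open Pool.Agent.Helper278 Pool.Agent.Helper436.SM

/-! ### words in three involutions -/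

/-- evaluation of a word -/
def ev {A : Type} [Ring A] (e : A) (g : Fin 3 → A) : List (Fin 3) → A
  | [] => e
  | s :: l => g s * ev e g l

/-- reduced words: neighbouring letters are different -/
def Red : List (Fin 3) → Prop
  | [] => True
  | [_] => True
  | s :: t :: l => s ≠ t ∧ Red (t :: l)

/-- reduction of a word in `Z/2 * Z/2 * Z/2` -/
def rd : List (Fin 3) → List (Fin 3)
  | [] => []
  | s :: l =>
    match rd l with
    | [] => [s]
    | t :: l' => if s = t then l' else s :: t :: l'

/-- three self-adjoint involutions with unit `e` -/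
structure Inv3 {A : Type} [Ring A] [StarRing A] (e : A) (g : Fin 3 → A) : Prop where
  ee : e * e = e
  es : star e = e
  gs : ∀ s, star (g s) = g s
  gg : ∀ s, g s * g s = e
  eg : ∀ s, e * g s = g s
  ge : ∀ s, g s * e = g s

/-- the number of words of length `j` with reduction `r` -/
def Nw (j : ℕ) (r : List (Fin 3)) : ℕ :=
  ((Finset.univ : Finset (Fin j → Fin 3)).filter (fun w => rd (List.ofFn w) = r)).card

/-! ### the Pauli model of the hyperfinite II₁ factor -/

/-- A tracial star algebra with a complete system of Pauli unitaries. -/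
structure PH {A : Type} [Ring A] [StarRing A] [Algebra ℂ A] [StarModule ℂ A] (τ : A →ₗ[ℂ] ℂ)
    (W : VV → A) : Prop where
  tr : TrAlg τ
  pauli : PauliSys τ W
  parseval : ∀ x : A, HasSum (fun v => ‖τ (star (W v) * x)‖ ^ 2) (n2 τ x ^ 2)

/-- strings supported in `[0,k)` -/
def PkSet (k : ℕ) : Set VV := {v | ∀ i, k ≤ i → v i = 0}

/-- `φ_k(y) = ‖E_k(y)‖₂²`, with `E_k` the conditional expectation onto the span of `W_u`, `u` in
`PkSet k` -/
noncomputable def phiK {A : Type} [Ring A] [StarRing A] [Algebra ℂ A] (τ : A →ₗ[ℂ] ℂ)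
    (W : VV → A) (k : ℕ) (y : A) : ℝ :=
  ∑ᶠ u ∈ PkSet k, ‖τ (star (W u) * y)‖ ^ 2

/-- the sum of `φ_k` over all words of length `j` -/
noncomputable def Gk {A : Type} [Ring A] [StarRing A] [Algebra ℂ A] (τ : A →ₗ[ℂ] ℂ)
    (W : VV → A) (k : ℕ) (e : A) (g : Fin 3 → A) (j : ℕ) : ℝ :=
  ∑ w : Fin j → Fin 3, phiK τ W k (ev e g (List.ofFn w))

end Pool.Agent.H707R.LF
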