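import Pool.Agent.H707R.LF.DefsB

set_option autoImplicit false

open scoped Kronecker

namespace Pool.Agent.H707R.LF.Stub

open Pool.Agent.H707R.LF
open Pool.Agent.Helper278 Pool.Agent.Helper436.SM

/-- B0 -/
theorem exists_rick {H : Type} [NormedAddCommGroup H] [InnerProductSpace ℂ H] [CompleteSpace H]
    (N : VonNeumannAlgebra H) : ∃ rp : Elt N → Elt N, Rick rp := by sorry

section cube

variable {κ : Type} [Fintype κ] [DecidableEq κ] {A : Type} [Ring A] [StarRing A]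

/-- B1 -/
theorem par_flp (k : κ) (v : κ → Bool) : par (flp k v) = !par v := by sorry

/-- B1 : the square identity -/
theorem sq {G : (κ → Bool) → A} (h : HG G) (k l : κ) (hkl : k ≠ l) (v : κ → Bool) :
    G (flp k (flp l v)) * G (flp k v) * G v = -(G (flp k (flp l v)) * G (flp l v) * G v) := by
  sorry

/-- B2 -/
theorem star_zO {G : (κ → Bool) → A} (h : HG G) (k : κ) : star (zO G k) = zO G k := by sorry

/-- B2 -/
theorem G_zO {G : (κ → Bool) → A} (h : HG G) (k : κ) (v : κ → Bool) :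
    G v * zO G k = G v * G (flp k v) * G v ∧ zO G k * G v = G v * G (flp k v) * G v := by sorry

/-- B2 -/
theorem zO_comm {G : (κ → Bool) → A} (h : HG G) (k l : κ) : zO G k * zO G l = zO G l * zO G k := by
  sorry

/-- B3 -/
theorem HC_HG {ℓ : (κ → Bool) → Ctx} {r : (κ → Bool) → Out → A} (h : HC ℓ r) : HG (vG r) := by
  sorry

/-- B3 -/
theorem same_edge {ℓ : (κ → Bool) → Ctx} {r : (κ → Bool) → Out → A} (h : HC ℓ r) (v : κ → Bool)
    (k : κ) (hl : ℓ (flp k v) = ℓ v) (o : Out) :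
    r v o * vG r (flp k v) = vG r v * r (flp k v) o ∧
      r v o * zO (vG r) k = zO (vG r) k * r v o := by sorry

/-- B4 -/
theorem exists_supp {rp : A → A} (hR : Rick rp) (z : κ → A) (hz : ∀ k, star (z k) = z k)
    (hc : ∀ k l, z k * z l = z l * z k) (L : List κ) (hmem : ∀ k, k ∈ L)
    (hL : (L.map z).prod ≠ 0) :
    ∃ P, Supp z P ∧ P ≠ 0 ∧ ∀ y, (∀ k, y * z k = z k * y) → y * P = P * y := by sorry

/-- B5 -/
theorem reach_comm {ℓ : (κ → Bool) → Ctx} {r : (κ → Bool) → Out → A} (h : HC ℓ r) {P : A}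
    (hP : Supp (zO (vG r)) P) (hPG : ∀ v, P * vG r v = vG r v * P) {v : κ → Bool} {k : κ}
    (hr : Reach ℓ v k) (o : Out) :
    r v o * zO (vG r) k * P = zO (vG r) k * r v o * P := by sorry

/-- B5 -/
theorem r_comm_P {ℓ : (κ → Bool) → Ctx} {r : (κ → Bool) → Out → A} (h : HC ℓ r) {P : A}
    (hP : Supp (zO (vG r)) P) (hPG : ∀ v, P * vG r v = vG r v * P)
    (hr : ∀ v k, Reach ℓ v k) (v : κ → Bool) (o : Out) : r v o * P = P * r v o := by sorry

/-- B6 -/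
theorem exists_paths {G : (κ → Bool) → A} (h : HG G) : ∃ T, Paths G T := by sorry

/-- B7 -/
theorem exists_zeta {G T : (κ → Bool) → A} (h : HG G) (hT : Paths G T) (v : κ → Bool) :
    ∃ ζ, IsZ (zO G) ζ ∧ T v * star (T v) = ζ * G v ∧
      star (T v) * T v = ζ * G (fun _ => false) := by sorry

/-- B8 -/
theorem isZ_comm {rp : A → A} {ℓ : (κ → Bool) → Ctx} {r : (κ → Bool) → Out → A} {P : A}
    {T : (κ → Bool) → A} (h : Glue rp ℓ r P T) {ζ : A} (hζ : IsZ (zO (vG r)) ζ) :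
    (∀ v, ζ * vG r v = vG r v * ζ) ∧ ζ * P = P * ζ ∧
      (∀ v o, r v o * ζ * P = ζ * r v o * P) ∧ ∀ y, y * ζ * P = 0 → y * P = 0 := by sorry

/-- B8 -/
theorem rick_orth {rp : A → A} (hR : Rick rp) (x y : A) (h : star x * y = 0) :
    rp x * rp y = 0 := by sorry

/-- B8 -/
theorem rick_eq {rp : A → A} (hR : Rick rp) (x p : A) (hp : star p = p) (h1 : p * x = x) :
    p * rp x = rp x ∧ rp x * p = rp x := by sorry

/-- B9 -/
theorem pv_orth {rp : A → A} {ℓ : (κ → Bool) → Ctx} {r : (κ → Bool) → Out → A} {P : A}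
    {T : (κ → Bool) → A} (h : Glue rp ℓ r P T) (v : κ → Bool) (o o' : Out) (ho : o ≠ o') :
    pv rp r P T v o * pv rp r P T v o' = 0 := by sorry

/-- B9 -/
theorem pv_sum {rp : A → A} {ℓ : (κ → Bool) → Ctx} {r : (κ → Bool) → Out → A} {P : A}
    {T : (κ → Bool) → A} (h : Glue rp ℓ r P T) (v : κ → Bool) :
    ∑ o, pv rp r P T v o = P * vG r (fun _ => false) := by sorry

/-- B10 -/
theorem pv_adj {rp : A → A} {ℓ : (κ → Bool) → Ctx} {r : (κ → Bool) → Out → A} {P : A}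
    {T : (κ → Bool) → A} (h : Glue rp ℓ r P T) (v : κ → Bool) (k : κ) (hk : v k = false)
    (o o' : Out) (hz : r v o * r (flp k v) o' = 0) :
    pv rp r P T v o * pv rp r P T (flp k v) o' = 0 := by sorry

/-- B11 -/
theorem pv_same {rp : A → A} {ℓ : (κ → Bool) → Ctx} {r : (κ → Bool) → Out → A} {P : A}
    {T : (κ → Bool) → A} (h : Glue rp ℓ r P T) (v : κ → Bool) (k : κ)
    (hl : ℓ (flp k v) = ℓ v) (o : Out) : pv rp r P T (flp k v) o = pv rp r P T v o := by sorry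

/-- B10 -/
theorem e_ne {rp : A → A} {ℓ : (κ → Bool) → Ctx} {r : (κ → Bool) → Out → A} {P : A}
    {T : (κ → Bool) → A} (h : Glue rp ℓ r P T) (hP : P ≠ 0) :
    P * vG r (fun _ => false) ≠ 0 := by sorry

end cube

/-- B12 -/
theorem reach_lab {m : ℕ} (f : (Fin m → Bool) → Ctx) (v : Kap m → Bool) (k : Kap m) :
    Reach (lab f) v k := by sorry

/-- B12 -/
theorem conn_lab {m : ℕ} (f : (Fin m → Bool) → Ctx) {β : Type} (c : (Kap m → Bool) → β)
    (hc : ∀ v k, lab f (flp k v) = lab f v → c (flp k v) = c v) (v w : Kap m → Bool)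
    (h : lab f v = lab f w) : c v = c w := by sorry

/-- B12 -/
theorem edge_lab {m : ℕ} (f : (Fin m → Bool) → Ctx) (hf : Function.Surjective f) (C C' : Ctx) :
    ∃ v k, v k = false ∧ lab f v = C ∧ lab f (flp k v) = C' := by sorry

/-- B13 -/
theorem cube_sys {A : Type} [Ring A] [StarRing A] {rp : A → A} (hR : Rick rp) {m : ℕ}
    (f : (Fin m → Bool) → Ctx) (hf : Function.Surjective f) {r : (Kap m → Bool) → Out → A}
    (h : HC (lab f) r)
    (hz : ((Finset.univ : Finset (Kap m)).toList.map (zO (vG r))).prod ≠ 0) :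
    ∃ (e : A) (n : Ctx → Out → A), e ≠ 0 ∧ Sys e n ∧ ∀ C o, star (n C o) = n C o := by sorry

/-! ### approximants -/

/-- E0 -/
theorem trAlg_ntr (Y : Type) [Fintype Y] [DecidableEq Y] [Nonempty Y] : TrAlg (ntr Y) := by sorry

/-- E1 -/
theorem exists_comb (t : ℕ) : ∃ (Ω : Type) (_ : Fintype Ω) (_ : DecidableEq Ω) (k : ℕ)
    (g : Fin 3 → Equiv.Perm Ω) (Θ : Equiv.Perm (Bool × Ω)) (b b' : Ω → Bool),
    Comb g Θ b b' ∧ Fintype.card Ω = 2 ^ k ∧
      2 ^ t * (Finset.univ.filter (fun ω => b ω = true)).card = Fintype.card Ω ∧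
      2 ^ t * (Finset.univ.filter (fun ω => b' ω = true)).card = Fintype.card Ω := by sorry

/-- E2 -/
theorem comb_mod {Ω : Type} [Fintype Ω] [DecidableEq Ω] [Nonempty Ω] {g : Fin 3 → Equiv.Perm Ω}
    {Θ : Equiv.Perm (Bool × Ω)} {b b' : Ω → Bool} (h : Comb g Θ b b') (t : ℕ)
    (h1 : 2 ^ t * (Finset.univ.filter (fun ω => b ω = true)).card = Fintype.card Ω)
    (h2 : 2 ^ t * (Finset.univ.filter (fun ω => b' ω = true)).card = Fintype.card Ω) :
    ∃ (g H H' : Fin 3 → Matrix (Ω × Bool × Bool × Bool) (Ω × Bool × Bool × Bool) ℂ)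
      (X Z a B P Q S β : Matrix (Ω × Bool × Bool × Bool) (Ω × Bool × Bool × Bool) ℂ),
      Mod g H H' X Z a B P Q S β ∧ ntr (Ω × Bool × Bool × Bool) β = (1 / 2 ^ t : ℂ) := by sorry

section ctx

variable {A : Type} [Ring A] [StarRing A] [Algebra ℂ A] [StarModule ℂ A]

/-- E3 -/
theorem cM_pvm {c : A × A × A} (h1 : Inv1 c.1) (h2 : Inv1 c.2.1) (h3 : Inv1 c.2.2)
    (h12 : c.1 * c.2.1 = c.2.1 * c.1) (h13 : c.1 * c.2.2 = c.2.2 * c.1)
    (h23 : c.2.1 * c.2.2 = c.2.2 * c.2.1) :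
    Pvm 1 (cM c) ∧ (∀ o, star (cM c o) = cM c o) ∧
      (∀ o, c.1 * cM c o = sgn o.1 • cM c o) ∧ (∀ o, c.2.1 * cM c o = sgn o.2.1 • cM c o) ∧
      ∀ o, c.2.2 * cM c o = sgn o.2.2 • cM c o := by sorry

variable {g H H' : Fin 3 → A} {X Z a B P Q S β : A}

/-- E4 -/
theorem cOp_ok (h : Mod g H H' X Z a B P Q S β) (C : Ctx) :
    Inv1 (cOp g H' X Z a B P Q S C).1 ∧ Inv1 (cOp g H' X Z a B P Q S C).2.1 ∧
    Inv1 (cOp g H' X Z a B P Q S C).2.2 ∧
    (cOp g H' X Z a B P Q S C).1 * (cOp g H' X Z a B P Q S C).2.1 =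
      (cOp g H' X Z a B P Q S C).2.1 * (cOp g H' X Z a B P Q S C).1 ∧
    (cOp g H' X Z a B P Q S C).1 * (cOp g H' X Z a B P Q S C).2.2 =
      (cOp g H' X Z a B P Q S C).2.2 * (cOp g H' X Z a B P Q S C).1 ∧
    (cOp g H' X Z a B P Q S C).2.1 * (cOp g H' X Z a B P Q S C).2.2 =
      (cOp g H' X Z a B P Q S C).2.2 * (cOp g H' X Z a B P Q S C).2.1 := by sorry

/-- E5 : the value of an observable, except for the observables `H s` in the contexts `T s` -/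
theorem obs_eig (h : Mod g H H' X Z a B P Q S β) (C : Ctx) (o : Out) (x : Obs) (v : Bool)
    (hv : obs C o x = some v) (hx : ∀ s, C = .T s → x = .S) :
    oOp g H X Z a B P Q S x * cM (cOp g H' X Z a B P Q S C) o =
      sgn v • cM (cOp g H' X Z a B P Q S C) o := by sorry

/-- E6 -/
theorem bad_small (h : Mod g H H' X Z a B P Q S β) {τ : A →ₗ[ℂ] ℂ} (hτ : TrAlg τ) (C C' : Ctx)
    (o o' : Out) (hb : Bad C o C' o') :
    ‖τ (cM (cOp g H' X Z a B P Q S C) o * cM (cOp g H' X Z a B P Q S C') o')‖ ≤ ‖τ β‖ := by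
  sorry

end ctx

/-- E7 -/
theorem exists_cube (κ : Type) [Fintype κ] [DecidableEq κ] [Nonempty κ] :
    ∃ G : (κ → Bool) → Matrix {v : κ → Bool // par v = false} {v : κ → Bool // par v = false} ℂ,
      HG G ∧ ∀ k, zO G k = ((Fintype.card κ : ℂ)⁻¹) • (1 : Matrix _ _ ℂ) := by sorry

/-- E8 -/
theorem exists_hom {A : Type} [Ring A] [StarRing A] [Algebra ℂ A] [StarModule ℂ A]
    {τ : A →ₗ[ℂ] ℂ} {W : VV → A} (hW : PauliSys τ W) (Y : Type) [Fintype Y] [DecidableEq Y]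
    (k : ℕ) (hk : Fintype.card Y = 2 ^ k) :
    ∃ Φ : Matrix Y Y ℂ →⋆ₐ[ℂ] A, ∀ x, τ (Φ x) = ntr Y x := by sorry

/-- E9 -/
theorem kron_HP {Y E κ : Type} [Fintype Y] [DecidableEq Y] [Fintype E] [DecidableEq E]
    [Fintype κ] [DecidableEq κ] {n : Ctx → Out → Matrix Y Y ℂ} (hn : ∀ C, Pvm 1 (n C))
    (hs : ∀ C o, star (n C o) = n C o) {G : (κ → Bool) → Matrix E E ℂ} (hG : HG G)
    (ℓ : (κ → Bool) → Ctx) :
    HP (fun v o => n (ℓ v) o ⊗ₖ G v) ∧
      (∀ v w o o', par v ≠ par w → (∀ k, w ≠ flp k v) →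
        (n (ℓ v) o ⊗ₖ G v) * (n (ℓ w) o' ⊗ₖ G w) = 0) ∧
      ∀ k, zO (vG (fun v o => n (ℓ v) o ⊗ₖ G v)) k = (1 : Matrix Y Y ℂ) ⊗ₖ zO G k := by sorry

/-- E9 -/
theorem ntr_kron {Y E : Type} [Fintype Y] [Fintype E] (x : Matrix Y Y ℂ) (y : Matrix E E ℂ) :
    ntr (Y × E) (x ⊗ₖ y) = ntr Y x * ntr E y := by sorry

/-- E10 -/
theorem exists_approx {A : Type} [Ring A] [StarRing A] [Algebra ℂ A] [StarModule ℂ A]
    {τ : A →ₗ[ℂ] ℂ} {W : VV → A} (hW : PauliSys τ W) (κ : Type) [Fintype κ] [DecidableEq κ]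
    [Nonempty κ] (ℓ : (κ → Bool) → Ctx) (ε : ℝ) (hε : 0 < ε) :
    ∃ r : (κ → Bool) → Out → A, HP r ∧
      (∀ v w o o', par v ≠ par w → (∀ k, w ≠ flp k v) → r v o * r w o' = 0) ∧
      (∀ v k o o', Bad (ℓ v) o (ℓ (flp k v)) o' → ‖τ (r v o * r (flp k v) o')‖ ≤ ε) ∧
      ∀ k, zO (vG r) k = ((Fintype.card κ : ℂ)⁻¹) • (1 : A) := by sorry

/-! ### the core -/

/-- F1 -/
theorem PH_NP : PH ExR.TP.τ (fun v => (⟨ExR.Wo v, ExR.Wo_mem v⟩ : Elt ExR.NP)) := by sorry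

/-- F2 : a family which is close to one with `z k = 1 / D` has a nonzero product of its `z k` -/
theorem near_ne {H : Type} [NormedAddCommGroup H] [InnerProductSpace ℂ H] [CompleteSpace H]
    {N : VonNeumannAlgebra H} (T : TracialState N) (κ : Type) [Fintype κ] [DecidableEq κ]
    [Nonempty κ] :
    ∃ δ : ℝ, 0 < δ ∧ ∀ r r' : (κ → Bool) → Out → Elt N, HP r → HP r' →
      (∀ k, zO (vG r) k = ((Fintype.card κ : ℂ)⁻¹) • (1 : Elt N)) →
      (∀ v o, n2 T.τ (r v o - r' v o) < δ) →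
      ((Finset.univ : Finset κ).toList.map (zO (vG r'))).prod ≠ 0 := by sorry

/-- F3 : no solutions of the exact relations near the approximate solutions -/
theorem core : ∃ (m : ℕ) (f : (Fin m → Bool) → Ctx) (δ : ℝ), 0 < δ ∧ ∀ ε : ℝ, 0 < ε →
    ∃ r : (Kap m → Bool) → Out → Elt ExR.NP, HP r ∧
      (∀ v w o o', par v ≠ par w → (∀ k, w ≠ flp k v) → r v o * r w o' = 0) ∧
      (∀ v k o o', Bad (lab f v) o (lab f (flp k v)) o' →
        ‖ExR.TP.τ (r v o * r (flp k v) o')‖ ≤ ε) ∧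
      ∀ r' : (Kap m → Bool) → Out → Elt ExR.NP, HC (lab f) r' →
        ∃ v o, δ ≤ n2 ExR.TP.τ (r v o - r' v o) := by sorry

end Pool.Agent.H707R.LF.Stub
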