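import Pool.Agent.H707R.LF.DefsC

set_option autoImplicit false

namespace Pool.Agent.H707R.LF.Stub

open Pool.Agent.H707R.LF
open Pool.Agent.Helper278

/-- C1 -/
theorem op_eq_op {A : Type} [Ring A] [Algebra ℂ A] {e : A} {m m' : Out → A} (h : Pvm e m)
    (h' : Pvm e m') {f f' : Out → Bool} (hff : ∀ o o', f o ≠ f' o' → m o * m' o' = 0) :
    op m f = op m' f' := by sorry

/-- C1 -/
theorem op_mul_op {A : Type} [Ring A] [Algebra ℂ A] {e : A} {m : Out → A} (h : Pvm e m)
    (f g : Out → Bool) : op m f * op m g = op m (fun o => xor (f o) (g o)) := by sorry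

/-- C1 -/
theorem op_unit {A : Type} [Ring A] [Algebra ℂ A] {e : A} {m : Out → A} (h : Pvm e m)
    (f : Out → Bool) : e * op m f = op m f ∧ op m f * e = op m f ∧ op m f * op m f = e ∧
      e * e = e := by sorry

/-- C2 -/
theorem magic {A : Type} [Ring A] [Algebra ℂ A] {e X a Z B : A} (hX : X * X = e) (ha : a * a = e)
    (hZ : Z * Z = e) (hB : B * B = e) (eX : e * X = X) (Xe : X * e = X) (ea : e * a = a)
    (ae : a * e = a) (eZ : e * Z = Z) (Ze : Z * e = Z) (eB : e * B = B) (Be : B * e = B)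
    (hXa : X * a = a * X) (hZB : Z * B = B * Z) (hXB : X * B = B * X) (hZa : Z * a = a * Z)
    (hc : (X * B) * (Z * a) = (Z * a) * (X * B))
    (hm : (X * B) * (Z * a) = -((X * a) * (Z * B))) :
    X * Z = -(Z * X) ∧ a * B = -(B * a) := by sorry

/-- C3a : the operators do not depend on the context -/
theorem ops_eq {A : Type} [Ring A] [StarRing A] [Algebra ℂ A] [StarModule ℂ A] {e : A}
    {m : Ctx → Out → A} (hS : Sys e m) :
    (∀ s, op (m (.U s)) (fun o => o.2.1) = XO m ∧ op (m (.U s)) (fun o => o.2.2) = aO m ∧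
      op (m (.V s)) (fun o => o.1) = gO m s ∧ op (m (.V s)) (fun o => o.2.1) = ZO m ∧
      op (m (.V s)) (fun o => o.2.2) = BO m ∧ op (m (.T s)) (fun o => o.1) = SO m) ∧
    op (m .D) (fun o => o.1) = gO m 0 ∧ op (m .D) (fun o => o.2.1) = XO m ∧
    op (m .D) (fun o => o.2.2) = BO m ∧ op (m .R3) (fun o => o.1) = XO m * BO m ∧
    op (m .R3) (fun o => o.2.1) = ZO m * aO m ∧ op (m .C2) (fun o => o.1) = ZO m ∧
    op (m .C2) (fun o => o.2.1) = aO m ∧ op (m .C3) (fun o => o.1) = XO m * aO m ∧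
    op (m .C3) (fun o => o.2.1) = ZO m * BO m ∧ op (m .SP) (fun o => o.1) = SO m ∧
    op (m .QB) (fun o => o.2.1) = BO m ∧ op (m .SQ) (fun o => o.1) = SO m ∧
    op (m .PB) (fun o => o.2.1) = BO m := by sorry

/-- C3b : the two magic squares -/
theorem ops_magic {A : Type} [Ring A] [StarRing A] [Algebra ℂ A] [StarModule ℂ A] {e : A}
    {m : Ctx → Out → A} (hS : Sys e m) :
    XO m * ZO m = -(ZO m * XO m) ∧ aO m * BO m = -(BO m * aO m) ∧
      SO m * BO m = -(BO m * SO m) := by sorry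

/-- C3c : the operators `H_s` on the atoms of the contexts `V s`, `D` -/
theorem ops_H {A : Type} [Ring A] [StarRing A] [Algebra ℂ A] [StarModule ℂ A] {e : A}
    {m : Ctx → Out → A} (hS : Sys e m) :
    (∀ s o, o.2.2 = false → HO m s * m (.V s) o = sgn o.1 • m (.V s) o) ∧
    (∀ t s o, o.2.2 = true → t ≠ 2 → lsec t o.2.1 = s →
      HO m t * m (.V s) o = sgn o.1 • m (.V s) o) ∧
    (∀ o, o.2.2 = true → HO m 2 * m .D o = sgn (xor o.1 o.2.1) • m .D o) ∧
    (∀ s, SO m * HO m s = HO m s * SO m) := by sorry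

/-- C3 : consequences of a solution of the system -/
theorem sys_rel {A : Type} [Ring A] [StarRing A] [Algebra ℂ A] [StarModule ℂ A] {e : A}
    {m : Ctx → Out → A} (hS : Sys e m) (hsa : ∀ C o, star (m C o) = m C o) :
    ∃ (g H : Fin 3 → A) (X a S ep em f0 f1 : A), Rel e g H X a S ep em f0 f1 ∧
      ∀ s, star (g s) = g s := by sorry

/-- C4 : the trace recursion, odd words -/
theorem rec_odd {A : Type} [Ring A] [Algebra ℂ A] {e : A} {g H : Fin 3 → A}
    {X a S ep em f0 f1 : A} (h : Rel e g H X a S ep em f0 f1) (τ : A →ₗ[ℂ] ℂ)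
    (ht : ∀ x y, τ (x * y) = τ (y * x)) (l : List (Fin 3)) (hl : (secW false l).2 = true) :
    τ (ev e g l) = 0 := by sorry

/-- C4 : the trace recursion, even words -/
theorem rec_even {A : Type} [Ring A] [Algebra ℂ A] {e : A} {g H : Fin 3 → A}
    {X a S ep em f0 f1 : A} (h : Rel e g H X a S ep em f0 f1) (τ : A →ₗ[ℂ] ℂ)
    (ht : ∀ x y, τ (x * y) = τ (y * x)) (l : List (Fin 3)) (hl : (secW false l).2 = false) :
    2 * τ (ev e g l) = τ (ev e g (secW false l).1) + τ (ev e g (secW true l).1) := by sorry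

/-- C5 -/
theorem secW_red (x : Bool) (l : List (Fin 3)) (h : Red l) :
    Red (secW x l).1 ∧ (secW x l).1.length = l.length := by sorry

/-- C6 : some iterate of `ρ_0` is odd -/
theorem exists_odd (l : List (Fin 3)) (h : Red l) (h1 : l.getLast? = some 0 ∨ l.getLast? = some 2) :
    ∃ k, (secW false ((fun w => (secW false w).1)^[k] l)).2 = true := by sorry

/-- C7 : the maximum principle -/
theorem trace_zero (t : List (Fin 3) → ℂ) (h0 : ∀ l, (secW false l).2 = true → t l = 0)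
    (h1 : ∀ l, (secW false l).2 = false → 2 * t l = t (secW false l).1 + t (secW true l).1) :
    ∀ l, Red l → l ≠ [] → t l = 0 := by sorry

/-- C8 -/
theorem sys_trace {A : Type} [Ring A] [StarRing A] [Algebra ℂ A] [StarModule ℂ A] {e : A}
    {m : Ctx → Out → A} (hS : Sys e m) (hsa : ∀ C o, star (m C o) = m C o) (τ : A →ₗ[ℂ] ℂ)
    (ht : ∀ x y, τ (x * y) = τ (y * x)) :
    ∃ g : Fin 3 → A, Inv3 e g ∧ ∀ l, Red l → l ≠ [] → τ (ev e g l) = 0 := by sorry

end Pool.Agent.H707R.LF.Stub
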