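import Pool.Agent.H707R.LF.Defs

set_option autoImplicit false

open scoped InnerProductSpace ComplexOrder BoundedContinuousFunction
open Filter

namespace Pool.Agent.H707R.LF.Stub

open Pool.Agent.H707R.LF
open Pool.Agent.Helper278 Pool.Agent.Helper436.SM

/-- D1 -/
theorem red_rd (l : List (Fin 3)) : Red (rd l) := by sorry

/-- D1 -/
theorem rd_of_red (l : List (Fin 3)) (h : Red l) : rd l = l := by sorry

/-- D1 -/
theorem ev_rd {A : Type} [Ring A] [StarRing A] {e : A} {g : Fin 3 → A} (hI : Inv3 e g)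
    (l : List (Fin 3)) : ev e g (rd l) = ev e g l := by sorry

/-- D2 -/
theorem star_ev_mul {A : Type} [Ring A] [StarRing A] {e : A} {g : Fin 3 → A} (hI : Inv3 e g)
    (l l' : List (Fin 3)) : star (ev e g l) * ev e g l' = ev e g (l.reverse ++ l') := by sorry

/-- D2 -/
theorem rd_reverse_append_ne (l l' : List (Fin 3)) (h : Red l) (h' : Red l') (hne : l ≠ l') :
    rd (l.reverse ++ l') ≠ [] := by sorry

/-- D2 -/
theorem rd_reverse_append (l l' : List (Fin 3)) (h : rd l = rd l') :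
    rd (l.reverse ++ l') = [] := by sorry

/-- D3 -/
theorem sum_Nw_weight (j : ℕ) (F : Finset (List (Fin 3))) :
    ∑ r ∈ F, (Nw j r : ℝ) * (1 / Real.sqrt 2) ^ r.length ≤ (2 * Real.sqrt 2) ^ j := by sorry

/-- D4 -/
theorem Nw_sq_le (j : ℕ) (r : List (Fin 3)) : (Nw j r) ^ 2 ≤ Nw (2 * j) [] := by sorry

/-- D4 -/
theorem Nw_le (j : ℕ) (r : List (Fin 3)) : (Nw j r : ℝ) ≤ (2 * Real.sqrt 2) ^ j := by sorry

/-- D5 : the kernel `φ_k(x* y)` is positive semidefinite -/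
theorem phiK_psd {A : Type} [Ring A] [StarRing A] [Algebra ℂ A] [StarModule ℂ A]
    {τ : A →ₗ[ℂ] ℂ} {W : VV → A} (h : PH τ W) (k : ℕ) {ι : Type} [Fintype ι] (c : ι → ℝ)
    (x : ι → A) : 0 ≤ ∑ i, ∑ j, c i * c j * phiK τ W k (star (x i) * x j) := by sorry

/-- D6 -/
theorem Gk_logconvex {A : Type} [Ring A] [StarRing A] [Algebra ℂ A] [StarModule ℂ A]
    {τ : A →ₗ[ℂ] ℂ} {W : VV → A} (h : PH τ W) (k : ℕ) {e : A} {g : Fin 3 → A}
    (hI : Inv3 e g) (i j : ℕ) :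
    (Gk τ W k e g (i + j)) ^ 2 ≤ Gk τ W k e g (2 * i) * Gk τ W k e g (2 * j) := by sorry

/-- D7 : Bessel -/
theorem sum_phiK_le {A : Type} [Ring A] [StarRing A] [Algebra ℂ A] [StarModule ℂ A]
    {τ : A →ₗ[ℂ] ℂ} {W : VV → A} (h : PH τ W) (k : ℕ) {e : A} {g : Fin 3 → A}
    (hI : Inv3 e g) (hf : ∀ l, Red l → l ≠ [] → τ (ev e g l) = 0)
    (F : Finset (List (Fin 3))) (hF : ∀ r ∈ F, Red r) :
    ∑ r ∈ F, phiK τ W k (ev e g r) ≤ 4 ^ k := by sorry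

/-- D8 -/
theorem Gk_le {A : Type} [Ring A] [StarRing A] [Algebra ℂ A] [StarModule ℂ A]
    {τ : A →ₗ[ℂ] ℂ} {W : VV → A} (h : PH τ W) (k : ℕ) {e : A} {g : Fin 3 → A}
    (hI : Inv3 e g) (hf : ∀ l, Red l → l ≠ [] → τ (ev e g l) = 0) (j : ℕ) :
    Gk τ W k e g j ≤ (2 * Real.sqrt 2) ^ j * 4 ^ k := by sorry

/-- D9 -/
theorem sum_phiK_gen_le {A : Type} [Ring A] [StarRing A] [Algebra ℂ A] [StarModule ℂ A]
    {τ : A →ₗ[ℂ] ℂ} {W : VV → A} (h : PH τ W) (k : ℕ) {e : A} {g : Fin 3 → A}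
    (hI : Inv3 e g) (hf : ∀ l, Red l → l ≠ [] → τ (ev e g l) = 0) :
    ∑ s, phiK τ W k (g s) ≤ 2 * Real.sqrt 2 * phiK τ W k e := by sorry

/-- D10 -/
theorem phiK_tendsto {A : Type} [Ring A] [StarRing A] [Algebra ℂ A] [StarModule ℂ A]
    {τ : A →ₗ[ℂ] ℂ} {W : VV → A} (h : PH τ W) (y : A) :
    Tendsto (fun k => phiK τ W k y) atTop (nhds (n2 τ y ^ 2)) := by sorry

/-- D11 : the hyperfinite factor contains no corner copy of `L(Z/2 * Z/2 * Z/2)` -/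
theorem no_free {A : Type} [Ring A] [StarRing A] [Algebra ℂ A] [StarModule ℂ A]
    {τ : A →ₗ[ℂ] ℂ} {W : VV → A} (h : PH τ W) {e : A} {g : Fin 3 → A}
    (hI : Inv3 e g) (he : e ≠ 0) (hf : ∀ l, Red l → l ≠ [] → τ (ev e g l) = 0) : False := by
  sorry

end Pool.Agent.H707R.LF.Stub
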