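import Pool.Agent.H707R.LF.StubsB

set_option autoImplicit false

open scoped Kronecker

namespace Pool.Agent.H707R.LF

open Pool.Agent.Helper278 Pool.Agent.Helper436.SM

section B0

variable {H : Type} [NormedAddCommGroup H] [InnerProductSpace ℂ H] [CompleteSpace H]

private theorem B0_comm (K : Submodule ℂ H) [K.HasOrthogonalProjection] (t : H →L[ℂ] H)
    (h1 : ∀ v ∈ K, t v ∈ K) (h2 : ∀ v ∈ K, (star t) v ∈ K) :
    K.starProjection * t = t * K.starProjection := by
  ext v
  show K.starProjection (t v) = t (K.starProjection v)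
  symm
  apply (Submodule.eq_starProjection_of_mem_of_inner_eq_zero
    (h1 _ (K.starProjection_apply_mem v)) ?_).symm
  intro w hw
  rw [← map_sub, ← ContinuousLinearMap.adjoint_inner_right]
  exact K.starProjection_inner_eq_zero _ _ (h2 w hw)

private theorem B0_one (N : VonNeumannAlgebra H) (x : H →L[ℂ] H) (hx : x ∈ N) :
    ∃ P : H →L[ℂ] H, P ∈ N ∧ star P = P ∧ P * P = P ∧ P * x = x ∧
      ∀ y : H →L[ℂ] H, y * x = 0 → y * P = 0 := by
  classical
  let R : Submodule ℂ H := LinearMap.range (x : H →ₗ[ℂ] H)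
  let K : Submodule ℂ H := R.topologicalClosure
  have hKc : IsClosed (K : Set H) := Submodule.isClosed_topologicalClosure _
  haveI : CompleteSpace K := hKc.completeSpace_coe
  have hRK : ∀ v, x v ∈ K := fun v => Submodule.le_topologicalClosure _ ⟨v, rfl⟩
  have hinv : ∀ t ∈ Set.centralizer (N : Set (H →L[ℂ] H)), ∀ v ∈ K, t v ∈ K := by
    intro t ht
    have h1 : R ≤ K.comap (t : H →ₗ[ℂ] H) := by
      rintro _ ⟨v, rfl⟩
      have e1 : x * t = t * x := ht x hx
      have e2 : t (x v) = x (t v) := (congrArg (fun z : H →L[ℂ] H => z v) e1).symm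
      show t (x v) ∈ K
      rw [e2]
      exact hRK _
    have h2 : IsClosed ((K.comap (t : H →ₗ[ℂ] H) : Submodule ℂ H) : Set H) :=
      hKc.preimage t.continuous
    exact fun v hv => Submodule.topologicalClosure_minimal _ h1 h2 hv
  have hcs : ∀ t ∈ Set.centralizer (N : Set (H →L[ℂ] H)),
      star t ∈ Set.centralizer (N : Set (H →L[ℂ] H)) := by
    intro t ht y hy
    have h1 : star y * t = t * star y := ht (star y) (star_mem hy)
    have h2 := congrArg star h1
    rw [star_mul, star_mul, star_star] at h2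
    exact h2.symm
  refine ⟨K.starProjection, ?_, ?_, ?_, ?_, ?_⟩
  · have h1 : K.starProjection ∈ Set.centralizer (Set.centralizer (N : Set (H →L[ℂ] H))) := by
      intro t ht
      exact (B0_comm K t (hinv t ht) (hinv _ (hcs t ht))).symm
    rw [VonNeumannAlgebra.centralizer_centralizer] at h1
    exact h1
  · exact (isStarProjection_starProjection (U := K)).isSelfAdjoint
  · exact (isStarProjection_starProjection (U := K)).isIdempotentElem
  · ext v
    exact Submodule.starProjection_eq_self_iff.2 (hRK v)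
  · intro y hy
    have h3 : R ≤ LinearMap.ker (y : H →ₗ[ℂ] H) := by
      rintro _ ⟨v, rfl⟩
      exact congrArg (fun z : H →L[ℂ] H => z v) hy
    have h4 : IsClosed ((LinearMap.ker (y : H →ₗ[ℂ] H) : Submodule ℂ H) : Set H) :=
      y.isClosed_ker
    ext v
    exact Submodule.topologicalClosure_minimal _ h3 h4 (K.starProjection_apply_mem v)

end B0

/-- B0 -/
theorem exists_rick {H : Type} [NormedAddCommGroup H] [InnerProductSpace ℂ H] [CompleteSpace H]
    (N : VonNeumannAlgebra H) : ∃ rp : Elt N → Elt N, Rick rp := by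
  classical
  have h : ∀ x : Elt N, ∃ P : Elt N, star P = P ∧ P * P = P ∧ P * x = x ∧
      ∀ y : Elt N, y * x = 0 → y * P = 0 := by
    intro x
    obtain ⟨P, h0, h1, h2, h3, h4⟩ := B0_one N x.1 x.2
    refine ⟨⟨P, h0⟩, Subtype.ext h1, Subtype.ext h2, Subtype.ext h3, ?_⟩
    intro y hy
    exact Subtype.ext (h4 y.1 (congrArg Subtype.val hy))
  choose rp h1 h2 h3 h4 using h
  exact ⟨rp, h1, h2, h3, fun y x hyx => h4 x y hyx⟩

end Pool.Agent.H707R.LF
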