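import Pool.Agent.H707R.LF.StubsB

set_option autoImplicit false

namespace Pool.Agent.H707R.LF

open Pool.Agent.Helper278 Pool.Agent.Helper436.SM

/-- every set of vertices closed under flips is everything -/
theorem B12_cube {κ : Type} [Fintype κ] [DecidableEq κ] (P : (κ → Bool) → Prop)
    (h : ∀ y j, P (flp j y) → P y) (x : κ → Bool) (hx : P x) (y : κ → Bool) : P y := by
  have key : ∀ (S : Finset κ) (y : κ → Bool), (∀ i, i ∉ S → y i = x i) → P y := by
    intro S
    induction S using Finset.induction_on with
    | empty =>
      intro y hy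
      have : y = x := funext fun i => hy i (Finset.notMem_empty i)
      rw [this]
      exact hx
    | insert a S ha ih =>
      intro y hy
      by_cases hya : y a = x a
      · refine ih y fun i hi => ?_
        by_cases hia : i = a
        · rw [hia, hya]
        · exact hy i (by
            rw [Finset.mem_insert]
            rintro (h' | h')
            · exact hia h'
            · exact hi h')
      · refine h y a (ih _ fun i hi => ?_)
        unfold flp
        by_cases hia : i = a
        · rw [hia, Function.update_self]
          revert hya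
          cases y a <;> cases x a <;> simp
        · rw [Function.update_of_ne hia]
          exact hy i (by
            rw [Finset.mem_insert]
            rintro (h' | h')
            · exact hia h'
            · exact hi h')
  exact key Finset.univ y fun i hi => absurd (Finset.mem_univ i) hi

/-- the vertex with given coordinates -/
def B12_mk {m : ℕ} (x y : Fin m → Bool) (t : Bool) : Kap m → Bool :=
  Sum.elim x (Sum.elim y fun _ => t)

theorem B12_eta {m : ℕ} (v : Kap m → Bool) :
    v = B12_mk (fun i => v (Sum.inl i)) (fun i => v (Sum.inr (Sum.inl i)))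
      (v (Sum.inr (Sum.inr ()))) := by
  funext k
  rcases k with i | i | i <;> rfl

theorem B12_flx {m : ℕ} (x y : Fin m → Bool) (t : Bool) (i : Fin m) :
    flp (Sum.inl i) (B12_mk x y t) = B12_mk (flp i x) y t := by
  funext k
  unfold flp
  rcases k with j | j | j
  · by_cases h : j = i
    · subst h
      rw [Function.update_self]
      show (!x j) = Function.update x j (!x j) j
      rw [Function.update_self]
    · rw [Function.update_of_ne (fun h' => h (Sum.inl_injective h'))]
      show x j = Function.update x i (!x i) j
      rw [Function.update_of_ne h]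
  · rw [Function.update_of_ne (fun h' => by cases h')]
    rfl
  · rw [Function.update_of_ne (fun h' => by cases h')]
    rfl

theorem B12_fly {m : ℕ} (x y : Fin m → Bool) (t : Bool) (i : Fin m) :
    flp (Sum.inr (Sum.inl i)) (B12_mk x y t) = B12_mk x (flp i y) t := by
  funext k
  unfold flp
  rcases k with j | j | j
  · rw [Function.update_of_ne (fun h' => by cases h')]
    rfl
  · by_cases h : j = i
    · subst h
      rw [Function.update_self]
      show (!y j) = Function.update y j (!y j) j
      rw [Function.update_self]
    · rw [Function.update_of_ne (fun h' => h (Sum.inl_injective (Sum.inr_injective h')))]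
      show y j = Function.update y i (!y i) j
      rw [Function.update_of_ne h]
  · rw [Function.update_of_ne (fun h' => by cases h')]
    rfl

theorem B12_flt {m : ℕ} (x y : Fin m → Bool) (t : Bool) :
    flp (Sum.inr (Sum.inr ())) (B12_mk x y t) = B12_mk x y (!t) := by
  funext k
  unfold flp
  rcases k with j | j | j
  · rw [Function.update_of_ne (fun h' => by cases h')]
    rfl
  · rw [Function.update_of_ne (fun h' => by cases h')]
    rfl
  · rw [Function.update_self]
    rfl

theorem B12_lf {m : ℕ} (f : (Fin m → Bool) → Ctx) (x y : Fin m → Bool) :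
    lab f (B12_mk x y false) = f x := rfl

theorem B12_lt {m : ℕ} (f : (Fin m → Bool) → Ctx) (x y : Fin m → Bool) :
    lab f (B12_mk x y true) = f y := rfl

/-- B12 -/
theorem reach_lab {m : ℕ} (f : (Fin m → Bool) → Ctx) (v : Kap m → Bool) (k : Kap m) :
    Reach (lab f) v k := by
  rw [B12_eta v]
  generalize (fun i => v (Sum.inl i)) = x
  generalize (fun i => v (Sum.inr (Sum.inl i))) = y
  generalize v (Sum.inr (Sum.inr ())) = t
  cases t with
  | false =>
    refine B12_cube (fun y => Reach (lab f) (B12_mk x y false) k) (fun y j hy => ?_) x ?_ y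
    · refine Reach.step _ (Sum.inr (Sum.inl j)) k ?_ ?_
      · rw [B12_fly, B12_lf, B12_lf]
      · rw [B12_fly]
        exact hy
    · show Reach (lab f) (B12_mk x x false) k
      rcases k with i | i | i
      · refine Reach.step _ (Sum.inr (Sum.inr ())) _ ?_ ?_
        · rw [B12_flt]
          rfl
        · rw [B12_flt]
          refine Reach.base _ _ ?_
          rw [B12_flx]
          rfl
      · refine Reach.base _ _ ?_
        rw [B12_fly]
        rfl
      · refine Reach.base _ _ ?_
        rw [B12_flt]
        rfl
  | true =>
    refine B12_cube (fun x => Reach (lab f) (B12_mk x y true) k) (fun x j hx => ?_) y ?_ x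
    · refine Reach.step _ (Sum.inl j) k ?_ ?_
      · rw [B12_flx, B12_lt, B12_lt]
      · rw [B12_flx]
        exact hx
    · show Reach (lab f) (B12_mk y y true) k
      rcases k with i | i | i
      · refine Reach.base _ _ ?_
        rw [B12_flx]
        rfl
      · refine Reach.step _ (Sum.inr (Sum.inr ())) _ ?_ ?_
        · rw [B12_flt]
          rfl
        · rw [B12_flt]
          refine Reach.base _ _ ?_
          rw [B12_fly]
          rfl
      · refine Reach.base _ _ ?_
        rw [B12_flt]
        rfl

/-- B12 -/
theorem conn_lab {m : ℕ} (f : (Fin m → Bool) → Ctx) {β : Type} (c : (Kap m → Bool) → β)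
    (hc : ∀ v k, lab f (flp k v) = lab f v → c (flp k v) = c v) (v w : Kap m → Bool)
    (h : lab f v = lab f w) : c v = c w := by
  have hA : ∀ x y y', c (B12_mk x y false) = c (B12_mk x y' false) := by
    intro x y y'
    refine B12_cube (fun y => c (B12_mk x y false) = c (B12_mk x y' false))
      (fun y j hy => ?_) y' rfl y
    have h1 := hc (B12_mk x y false) (Sum.inr (Sum.inl j)) (by rw [B12_fly, B12_lf, B12_lf])
    rw [B12_fly] at h1
    exact h1.symm.trans hy
  have hB : ∀ x x' y, c (B12_mk x y true) = c (B12_mk x' y true) := by
    intro x x' y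
    refine B12_cube (fun x => c (B12_mk x y true) = c (B12_mk x' y true))
      (fun x j hx => ?_) x' rfl x
    have h1 := hc (B12_mk x y true) (Sum.inl j) (by rw [B12_flx, B12_lt, B12_lt])
    rw [B12_flx] at h1
    exact h1.symm.trans hx
  have hC : ∀ x y, f x = f y → c (B12_mk x y true) = c (B12_mk x y false) := by
    intro x y hxy
    have h1 := hc (B12_mk x y false) (Sum.inr (Sum.inr ())) (by
      rw [B12_flt]
      exact hxy.symm)
    rw [B12_flt] at h1
    exact h1
  have hD : ∀ x x', f x = f x' → c (B12_mk x x false) = c (B12_mk x' x' false) := by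
    intro x x' hxx
    rw [hA x x x', ← hC x x' hxx, hB x x' x', hC x' x' rfl]
  have hE : ∀ (x y : Fin m → Bool) (t : Bool), ∃ p, lab f (B12_mk x y t) = f p ∧
      c (B12_mk x y t) = c (B12_mk p p false) := by
    intro x y t
    cases t with
    | false => exact ⟨x, rfl, hA x y x⟩
    | true => exact ⟨y, rfl, by rw [hB x y y, hC y y rfl]⟩
  obtain ⟨p, hp1, hp2⟩ := hE (fun i => v (Sum.inl i)) (fun i => v (Sum.inr (Sum.inl i)))
    (v (Sum.inr (Sum.inr ())))
  obtain ⟨p', hp1', hp2'⟩ := hE (fun i => w (Sum.inl i)) (fun i => w (Sum.inr (Sum.inl i)))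
    (w (Sum.inr (Sum.inr ())))
  rw [← B12_eta v] at hp1 hp2
  rw [← B12_eta w] at hp1' hp2'
  rw [hp2, hp2']
  exact hD p p' (by rw [← hp1, ← hp1', h])

/-- B12 -/
theorem edge_lab {m : ℕ} (f : (Fin m → Bool) → Ctx) (hf : Function.Surjective f) (C C' : Ctx) :
    ∃ v k, v k = false ∧ lab f v = C ∧ lab f (flp k v) = C' := by
  obtain ⟨x, hx⟩ := hf C
  obtain ⟨y, hy⟩ := hf C'
  refine ⟨B12_mk x y false, Sum.inr (Sum.inr ()), rfl, hx, ?_⟩
  rw [B12_flt]
  exact hy

end Pool.Agent.H707R.LF
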