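import Pool.Agent.H707R.LF.StubsB

/-!
Project LF, task B13: a solution of the system of contexts from the relations of the refined
family on the hypercube.
-/

set_option autoImplicit false

namespace Pool.Agent.H707R.LF

/-- B13 -/
theorem cube_sys {A : Type} [Ring A] [StarRing A] {rp : A → A} (hR : Rick rp) {m : ℕ}
    (f : (Fin m → Bool) → Ctx) (hf : Function.Surjective f) {r : (Kap m → Bool) → Out → A}
    (h : HC (lab f) r)
    (hz : ((Finset.univ : Finset (Kap m)).toList.map (zO (vG r))).prod ≠ 0) :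
    ∃ (e : A) (n : Ctx → Out → A), e ≠ 0 ∧ Sys e n ∧ ∀ C o, star (n C o) = n C o := by
  have hG : HG (vG r) := Stub.HC_HG h
  obtain ⟨P, hP, hP0, hPc⟩ := Stub.exists_supp hR (zO (vG r)) (Stub.star_zO hG)
    (Stub.zO_comm hG) (Finset.univ : Finset (Kap m)).toList (by simp) hz
  have hPG : ∀ v, P * vG r v = vG r v * P := by
    intro v
    refine (hPc (vG r v) fun k => ?_).symm
    rw [(Stub.G_zO hG k v).1, (Stub.G_zO hG k v).2]
  have hrP : ∀ v o, r v o * P = P * r v o :=
    Stub.r_comm_P h hP hPG (Stub.reach_lab f)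
  have hrz : ∀ v o k, r v o * zO (vG r) k * P = zO (vG r) k * r v o * P := fun v o k =>
    Stub.reach_comm h hP hPG (Stub.reach_lab f v k) o
  obtain ⟨T, hT⟩ := Stub.exists_paths hG
  have glue : Glue rp (lab f) r P T := ⟨hR, h, hP, hrP, hrz, hT⟩
  choose vC hvC using fun C : Ctx => (Stub.edge_lab f hf C C)
  have hlab : ∀ C, lab f (vC C) = C := by
    intro C
    obtain ⟨k, _, h1, _⟩ := hvC C
    exact h1
  have hsame : ∀ C v, lab f v = C → ∀ o, pv rp r P T (vC C) o = pv rp r P T v o := by
    intro C v hv o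
    have h1 := Stub.conn_lab f (fun v => pv rp r P T v)
      (fun v k hl => funext fun o => Stub.pv_same glue v k hl o) (vC C) v
      (by rw [hlab C, hv])
    exact congrFun h1 o
  refine ⟨P * vG r (fun _ => false), fun C o => pv rp r P T (vC C) o, Stub.e_ne glue hP0,
    ⟨fun C o => hR.idem _, fun C => Stub.pv_sum glue (vC C), ?_⟩, fun C o => hR.sa _⟩
  intro C o C' o' hb
  obtain ⟨v, k, hk, hv, hv'⟩ := Stub.edge_lab f hf C C'
  show pv rp r P T (vC C) o * pv rp r P T (vC C') o' = 0
  rw [hsame C v hv o, hsame C' (flp k v) hv' o']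
  exact Stub.pv_adj glue v k hk o o' (h.bad v k o o' (by rw [hv, hv']; exact hb))

end Pool.Agent.H707R.LF
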