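import Pool.Agent.H707R.LF.StubsB

set_option autoImplicit false

namespace Pool.Agent.H707R.LF

open Pool.Agent.Helper278 Pool.Agent.Helper436.SM

section cube

variable {κ : Type} [Fintype κ] [DecidableEq κ] {A : Type} [Ring A] [StarRing A]

private theorem B3_mul_vG {ℓ : (κ → Bool) → Ctx} {r : (κ → Bool) → Out → A} (h : HC ℓ r)
    (v : κ → Bool) (o : Out) : r v o * vG r v = r v o := by
  unfold vG
  rw [Finset.mul_sum, Finset.sum_eq_single o]
  · exact h.hp.idem v o
  · intro o' _ ho'
    exact h.hp.orth v v o o' (Or.inr (Ne.symm ho')) rfl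
  · intro ho
    exact absurd (Finset.mem_univ _) ho

private theorem B3_vG_mul {ℓ : (κ → Bool) → Ctx} {r : (κ → Bool) → Out → A} (h : HC ℓ r)
    (v : κ → Bool) (o : Out) : vG r v * r v o = r v o := by
  unfold vG
  rw [Finset.sum_mul, Finset.sum_eq_single o]
  · exact h.hp.idem v o
  · intro o' _ ho'
    exact h.hp.orth v v o' o (Or.inr ho') rfl
  · intro ho
    exact absurd (Finset.mem_univ _) ho

/-- B3 -/
theorem HC_HG {ℓ : (κ → Bool) → Ctx} {r : (κ → Bool) → Out → A} (h : HC ℓ r) : HG (vG r) where
  sa := by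
    intro v
    unfold vG
    rw [star_sum]
    exact Finset.sum_congr rfl fun o _ => h.hp.sa v o
  idem := by
    intro v
    conv_lhs => rw [vG, Finset.sum_mul]
    exact Finset.sum_congr rfl fun o _ => B3_mul_vG h v o
  orth := by
    intro v w hvw hp
    unfold vG
    rw [Finset.sum_mul]
    refine Finset.sum_eq_zero fun o _ => ?_
    rw [Finset.mul_sum]
    exact Finset.sum_eq_zero fun o' _ => h.hp.orth v w o o' (Or.inl hvw) hp
  sum := fun b => h.hp.sum b
  nonadj := by
    intro v w hvw hk
    unfold vG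
    rw [Finset.sum_mul]
    refine Finset.sum_eq_zero fun o _ => ?_
    rw [Finset.mul_sum]
    exact Finset.sum_eq_zero fun o' _ => h.nonadj v w o o' hvw hk

/-- B3 -/
theorem same_edge {ℓ : (κ → Bool) → Ctx} {r : (κ → Bool) → Out → A} (h : HC ℓ r) (v : κ → Bool)
    (k : κ) (hl : ℓ (flp k v) = ℓ v) (o : Out) :
    r v o * vG r (flp k v) = vG r v * r (flp k v) o ∧
      r v o * zO (vG r) k = zO (vG r) k * r v o := by
  have hb : ∀ o o', o ≠ o' → r v o * r (flp k v) o' = 0 := fun o o' ho =>
    h.bad v k o o' (Or.inl ⟨hl.symm, ho⟩)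
  have hb' : ∀ o o', o ≠ o' → r (flp k v) o * r v o' = 0 := by
    intro o o' ho
    have h1 := congrArg star (hb o' o (Ne.symm ho))
    rwa [star_mul, h.hp.sa, h.hp.sa, star_zero] at h1
  have e1 : r v o * vG r (flp k v) = r v o * r (flp k v) o := by
    unfold vG
    rw [Finset.mul_sum, Finset.sum_eq_single o]
    · intro o' _ ho'
      exact hb o o' (Ne.symm ho')
    · intro ho
      exact absurd (Finset.mem_univ _) ho
  have e2 : vG r v * r (flp k v) o = r v o * r (flp k v) o := by
    unfold vG
    rw [Finset.sum_mul, Finset.sum_eq_single o]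
    · intro o' _ ho'
      exact hb o' o ho'
    · intro ho
      exact absurd (Finset.mem_univ _) ho
  have e3 : r (flp k v) o * vG r v = r (flp k v) o * r v o := by
    unfold vG
    rw [Finset.mul_sum, Finset.sum_eq_single o]
    · intro o' _ ho'
      exact hb' o o' (Ne.symm ho')
    · intro ho
      exact absurd (Finset.mem_univ _) ho
  have e4 : vG r (flp k v) * r v o = r (flp k v) o * r v o := by
    unfold vG
    rw [Finset.sum_mul, Finset.sum_eq_single o]
    · intro o' _ ho'
      exact hb' o' o ho'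
    · intro ho
      exact absurd (Finset.mem_univ _) ho
  refine ⟨by rw [e1, e2], ?_⟩
  obtain ⟨z1, z2⟩ := Stub.G_zO (HC_HG h) k v
  have l1 : r v o * zO (vG r) k = r v o * r (flp k v) o * r v o := by
    calc r v o * zO (vG r) k = r v o * vG r v * zO (vG r) k := by rw [B3_mul_vG h]
      _ = r v o * (vG r v * zO (vG r) k) := mul_assoc _ _ _
      _ = r v o * (vG r v * vG r (flp k v) * vG r v) := by rw [z1]
      _ = (r v o * vG r v) * vG r (flp k v) * vG r v := by simp only [mul_assoc]
      _ = r v o * vG r (flp k v) * vG r v := by rw [B3_mul_vG h]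
      _ = r v o * r (flp k v) o * vG r v := by rw [e1]
      _ = r v o * (r (flp k v) o * vG r v) := mul_assoc _ _ _
      _ = r v o * r (flp k v) o * r v o := by rw [e3, mul_assoc]
  have l2 : zO (vG r) k * r v o = r v o * r (flp k v) o * r v o := by
    calc zO (vG r) k * r v o = zO (vG r) k * (vG r v * r v o) := by rw [B3_vG_mul h]
      _ = (zO (vG r) k * vG r v) * r v o := (mul_assoc _ _ _).symm
      _ = (vG r v * vG r (flp k v) * vG r v) * r v o := by rw [z2]
      _ = vG r v * vG r (flp k v) * (vG r v * r v o) := by simp only [mul_assoc]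
      _ = vG r v * (vG r (flp k v) * r v o) := by rw [B3_vG_mul h, mul_assoc]
      _ = (vG r v * r (flp k v) o) * r v o := by rw [e4, mul_assoc]
      _ = r v o * r (flp k v) o * r v o := by rw [e2]
  rw [l1, l2]

end cube

end Pool.Agent.H707R.LF
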