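import Pool.Agent.H707R.LF.StubsB

set_option autoImplicit false

open scoped InnerProductSpace ComplexOrder BoundedContinuousFunction
open Filter

namespace Pool.Agent.H707R.LF

section cube

variable {κ : Type} [Fintype κ] [DecidableEq κ] {A : Type} [Ring A] [StarRing A]

/-- end point of a path -/
def B6_en {κ : Type} [DecidableEq κ] : List κ → (κ → Bool)
  | [] => fun _ => false
  | k :: L => flp k (B6_en L)

/-- operator of a path -/
def B6_PP {κ : Type} [DecidableEq κ] {A : Type} [Ring A] (G : (κ → Bool) → A) : List κ → A
  | [] => G (fun _ => false)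
  | k :: L => G (flp k (B6_en L)) * B6_PP G L

theorem B6_en_apply {L : List κ} (hL : L.Nodup) (x : κ) : B6_en L x = decide (x ∈ L) := by
  induction L with
  | nil => simp [B6_en]
  | cons k L ih =>
    rw [List.nodup_cons] at hL
    rw [B6_en, flp]
    by_cases hx : x = k
    · subst hx
      rw [Function.update_self, ih hL.2]
      simp [hL.1]
    · rw [Function.update_of_ne hx, ih hL.2]
      simp [hx]

theorem B6_flp_ne {k x : κ} (v : κ → Bool) (h : x ≠ k) : flp k v x = v x := by
  rw [flp, Function.update_of_ne h]

theorem B6_flp_self (k : κ) (v : κ → Bool) : flp k v k = !v k := by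
  rw [flp, Function.update_self]

theorem B6_flp_comm {k l : κ} (h : k ≠ l) (v : κ → Bool) : flp k (flp l v) = flp l (flp k v) := by
  funext x
  by_cases hk : x = k
  · subst hk
    rw [B6_flp_self, B6_flp_ne _ h, B6_flp_ne _ h, B6_flp_self]
  · by_cases hl : x = l
    · subst hl
      rw [B6_flp_ne _ hk, B6_flp_self, B6_flp_self, B6_flp_ne _ hk]
    · rw [B6_flp_ne _ hk, B6_flp_ne _ hl, B6_flp_ne _ hl, B6_flp_ne _ hk]

theorem B6_left {G : (κ → Bool) → A} (h : HG G) (L : List κ) :
    G (B6_en L) * B6_PP G L = B6_PP G L := by
  cases L with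
  | nil => exact h.idem _
  | cons k L => rw [B6_PP, B6_en, ← mul_assoc, h.idem]

theorem B6_right {G : (κ → Bool) → A} (h : HG G) (L : List κ) :
    B6_PP G L * G (fun _ => false) = B6_PP G L := by
  induction L with
  | nil => exact h.idem _
  | cons k L ih => rw [B6_PP, mul_assoc, ih]

theorem B6_swap {G : (κ → Bool) → A} (h : HG G) {k l : κ} (hkl : k ≠ l) (L : List κ) :
    B6_PP G (k :: l :: L) = -B6_PP G (l :: k :: L) := by
  have h1 := Stub.sq h k l hkl (B6_en L)
  rw [B6_PP, B6_PP, B6_PP, B6_PP, B6_en, B6_en, ← B6_flp_comm hkl, ← B6_left h L]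
  have e1 : G (flp k (flp l (B6_en L))) * (G (flp l (B6_en L)) * (G (B6_en L) * B6_PP G L)) =
      G (flp k (flp l (B6_en L))) * G (flp l (B6_en L)) * G (B6_en L) * B6_PP G L := by
    simp only [mul_assoc]
  have e2 : G (flp k (flp l (B6_en L))) * (G (flp k (B6_en L)) * (G (B6_en L) * B6_PP G L)) =
      G (flp k (flp l (B6_en L))) * G (flp k (B6_en L)) * G (B6_en L) * B6_PP G L := by
    simp only [mul_assoc]
  rw [e1, e2, h1, neg_mul, neg_neg]

theorem B6_en_filter {L : List κ} (hL : L.Nodup) {k : κ} (hk : k ∈ L) {v : κ → Bool}
    (hv : v k = false) : B6_en (L.filter (fun x => flp k v x)) =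
      flp k (B6_en (L.filter (fun x => v x))) := by
  funext x
  rw [B6_en_apply (hL.filter _)]
  by_cases hx : x = k
  · subst hx
    rw [B6_flp_self, B6_en_apply (hL.filter _)]
    simp [hk, hv, B6_flp_self]
  · rw [B6_flp_ne _ hx, B6_en_apply (hL.filter _)]
    simp [B6_flp_ne _ hx]

theorem B6_main {G : (κ → Bool) → A} (h : HG G) (k : κ) (v : κ → Bool) (hv : v k = false) :
    ∀ L : List κ, L.Nodup → k ∈ L →
      B6_PP G (L.filter (fun x => flp k v x)) = B6_PP G (k :: L.filter (fun x => v x)) ∨
      B6_PP G (L.filter (fun x => flp k v x)) = -B6_PP G (k :: L.filter (fun x => v x)) := by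
  intro L
  induction L with
  | nil => intro _ hk; exact absurd hk (List.not_mem_nil)
  | cons a L ih =>
    intro hL hk
    rw [List.nodup_cons] at hL
    by_cases ha : a = k
    · subst ha
      left
      have h1 : (a :: L).filter (fun x => flp a v x) = a :: L.filter (fun x => v x) := by
        rw [List.filter_cons_of_pos (by rw [B6_flp_self, hv]; rfl)]
        congr 1
        refine List.filter_congr fun x hx => ?_
        rw [B6_flp_ne]
        rintro rfl
        exact hL.1 hx
      have h2 : (a :: L).filter (fun x => v x) = L.filter (fun x => v x) :=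
        List.filter_cons_of_neg (by rw [hv]; simp)
      rw [h1, h2]
    · have hkL : k ∈ L := by
        rcases List.mem_cons.1 hk with h' | h'
        · exact absurd h'.symm ha
        · exact h'
      have ih' := ih hL.2 hkL
      by_cases hva : v a = true
      · have h1 : (a :: L).filter (fun x => flp k v x) = a :: L.filter (fun x => flp k v x) :=
          List.filter_cons_of_pos (by rw [B6_flp_ne _ ha, hva])
        have h2 : (a :: L).filter (fun x => v x) = a :: L.filter (fun x => v x) :=
          List.filter_cons_of_pos (by rw [hva])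
        rw [h1, h2, B6_swap h (Ne.symm ha)]
        have h3 : B6_PP G (a :: L.filter (fun x => flp k v x)) =
            G (flp a (flp k (B6_en (L.filter (fun x => v x))))) *
              B6_PP G (L.filter (fun x => flp k v x)) := by
          rw [B6_PP, B6_en_filter hL.2 hkL hv]
        have h4 : B6_PP G (a :: k :: L.filter (fun x => v x)) =
            G (flp a (flp k (B6_en (L.filter (fun x => v x))))) *
              B6_PP G (k :: L.filter (fun x => v x)) := by
          rw [B6_PP, B6_en]
        rw [h3, h4]
        rcases ih' with h5 | h5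
        · right
          rw [h5, neg_neg]
        · left
          rw [h5, mul_neg]
      · have h1 : (a :: L).filter (fun x => flp k v x) = L.filter (fun x => flp k v x) :=
          List.filter_cons_of_neg (by rw [B6_flp_ne _ ha]; exact hva)
        have h2 : (a :: L).filter (fun x => v x) = L.filter (fun x => v x) :=
          List.filter_cons_of_neg hva
        rw [h1, h2]
        exact ih'

/-- B6 -/
theorem exists_paths {G : (κ → Bool) → A} (h : HG G) : ∃ T, Paths G T := by
  have hnd : (Finset.univ : Finset κ).toList.Nodup := Finset.nodup_toList _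
  have hmem : ∀ k : κ, k ∈ (Finset.univ : Finset κ).toList := fun k =>
    Finset.mem_toList.2 (Finset.mem_univ k)
  have hen : ∀ v : κ → Bool,
      B6_en ((Finset.univ : Finset κ).toList.filter (fun x => v x)) = v := by
    intro v
    funext x
    rw [B6_en_apply (hnd.filter _)]
    cases hv : v x <;> simp [hv]
  refine ⟨fun v => B6_PP G ((Finset.univ : Finset κ).toList.filter (fun x => v x)), ?_, ?_, ?_, ?_⟩
  · have : (Finset.univ : Finset κ).toList.filter (fun _ => false) = [] := by simp
    change B6_PP G ((Finset.univ : Finset κ).toList.filter (fun _ => false)) = _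
    rw [this]
    rfl
  · intro v
    have := B6_left h ((Finset.univ : Finset κ).toList.filter (fun x => v x))
    rw [hen] at this
    exact this
  · intro v
    exact B6_right h _
  · intro v k hv
    have h1 := B6_main h k v hv _ hnd (hmem k)
    have h2 : B6_PP G (k :: (Finset.univ : Finset κ).toList.filter (fun x => v x)) =
        G (flp k v) * B6_PP G ((Finset.univ : Finset κ).toList.filter (fun x => v x)) := by
      rw [B6_PP, hen]
    rw [h2] at h1
    exact h1

end cube

end Pool.Agent.H707R.LF
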