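import Pool.Agent.H707R.LF.StubsB

set_option autoImplicit false

open scoped Kronecker

namespace Pool.Agent.H707R.LF

open Pool.Agent.Helper278 Pool.Agent.Helper436.SM

namespace B7aux

theorem flp_flp {κ : Type} [DecidableEq κ] (k : κ) (v : κ → Bool) : flp k (flp k v) = v := by
  unfold flp
  simp

/-- induction along the hypercube -/
theorem cube_ind {κ : Type} [Fintype κ] [DecidableEq κ] (Q : (κ → Bool) → Prop)
    (h0 : Q (fun _ => false)) (hs : ∀ v k, v k = false → Q v → Q (flp k v)) (v : κ → Bool) :
    Q v := by
  suffices H : ∀ (n : ℕ) (v : κ → Bool),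
      (Finset.univ.filter (fun k => v k = true)).card = n → Q v from H _ v rfl
  intro n
  induction n with
  | zero =>
    intro v hv
    have : v = fun _ => false := by
      funext k
      by_contra hk
      have hk' : v k = true := by simpa using hk
      have : k ∈ Finset.univ.filter (fun k => v k = true) := by simp [hk']
      rw [Finset.card_eq_zero] at hv
      rw [hv] at this
      simp at this
    rw [this]
    exact h0
  | succ n ih =>
    intro v hv
    have hne : (Finset.univ.filter (fun k => v k = true)).Nonempty := by
      rw [← Finset.card_pos, hv]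
      omega
    obtain ⟨k, hk⟩ := hne
    have hk' : v k = true := by simpa using hk
    have e : (Finset.univ.filter (fun l => flp k v l = true)) =
        (Finset.univ.filter (fun l => v l = true)).erase k := by
      ext l
      simp only [Finset.mem_filter, Finset.mem_univ, true_and, Finset.mem_erase, flp]
      by_cases hl : l = k
      · subst hl
        simp [hk']
      · simp [Function.update_of_ne hl, hl]
    have h1 : Q (flp k v) := by
      apply ih
      rw [e, Finset.card_erase_of_mem hk, hv]
      omega
    have h2 : flp k v k = false := by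
      unfold flp
      simp [hk']
    have := hs (flp k v) k h2 h1
    rwa [flp_flp] at this

end B7aux

open B7aux

set_option linter.unusedSectionVars false

section cube

variable {κ : Type} [Fintype κ] [DecidableEq κ] {A : Type} [Ring A] [StarRing A]

theorem B7aux.isZ_comm_G {G : (κ → Bool) → A} (h : HG G) {ζ : A} (hζ : IsZ (zO G) ζ)
    (v : κ → Bool) : ζ * G v = G v * ζ := by
  induction hζ with
  | one => simp
  | mul k x _ ih =>
    have h1 := Stub.G_zO h k v
    rw [mul_assoc, ih, ← mul_assoc, h1.2, ← h1.1, mul_assoc]

theorem B7aux.isZ_comm_z {G : (κ → Bool) → A} (h : HG G) {ζ : A} (hζ : IsZ (zO G) ζ)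
    (l : κ) : ζ * zO G l = zO G l * ζ := by
  induction hζ with
  | one => simp
  | mul k x _ ih =>
    rw [mul_assoc, ih, ← mul_assoc, Stub.zO_comm h k l, mul_assoc]

theorem B7aux.z_T {G T : (κ → Bool) → A} (h : HG G) (hT : Paths G T) (k : κ) (v : κ → Bool) :
    zO G k * T v = T v * zO G k := by
  have hG : ∀ v, zO G k * G v = G v * zO G k := fun v => by
    have h1 := Stub.G_zO h k v
    rw [h1.1, h1.2]
  refine cube_ind (fun v => zO G k * T v = T v * zO G k) ?_ ?_ v
  · show zO G k * T (fun _ => false) = T (fun _ => false) * zO G k
    rw [hT.zero]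
    exact hG _
  · intro v l hl ih
    show zO G k * T (flp l v) = T (flp l v) * zO G k
    rcases hT.step v l hl with e | e
    · rw [e, ← mul_assoc, hG, mul_assoc, ih, mul_assoc]
    · rw [e, mul_neg, neg_mul, ← mul_assoc, hG, mul_assoc, ih, mul_assoc]

/-- B7 -/
theorem exists_zeta {G T : (κ → Bool) → A} (h : HG G) (hT : Paths G T) (v : κ → Bool) :
    ∃ ζ, IsZ (zO G) ζ ∧ T v * star (T v) = ζ * G v ∧
      star (T v) * T v = ζ * G (fun _ => false) := by
  refine cube_ind (fun v => ∃ ζ, IsZ (zO G) ζ ∧ T v * star (T v) = ζ * G v ∧
      star (T v) * T v = ζ * G (fun _ => false)) ?_ ?_ v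
  · refine ⟨1, IsZ.one, ?_, ?_⟩
    · rw [hT.zero, h.sa, h.idem, one_mul]
    · rw [hT.zero, h.sa, h.idem, one_mul]
  · rintro w k hk ⟨ζ, hζ, h1, h2⟩
    refine ⟨zO G k * ζ, IsZ.mul k ζ hζ, ?_, ?_⟩
    · have e1 : T (flp k w) * star (T (flp k w)) =
          G (flp k w) * T w * (star (T w) * G (flp k w)) := by
        rcases hT.step w k hk with e | e
        · rw [e, star_mul, h.sa]
        · rw [e, star_neg, neg_mul_neg, star_mul, h.sa]
      have e2 := (Stub.G_zO h k (flp k w)).2
      rw [flp_flp] at e2
      calc T (flp k w) * star (T (flp k w))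
          = G (flp k w) * (T w * star (T w)) * G (flp k w) := by rw [e1]; noncomm_ring
        _ = G (flp k w) * ζ * G w * G (flp k w) := by rw [h1]; noncomm_ring
        _ = ζ * (G (flp k w) * G w * G (flp k w)) := by
            rw [← isZ_comm_G h hζ]; noncomm_ring
        _ = ζ * zO G k * G (flp k w) := by rw [← e2]; noncomm_ring
        _ = zO G k * ζ * G (flp k w) := by rw [isZ_comm_z h hζ]
    · have e1 : star (T (flp k w)) * T (flp k w) = star (T w) * G (flp k w) * T w := by
        rcases hT.step w k hk with e | e
        · rw [e, star_mul, h.sa]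
          calc star (T w) * G (flp k w) * (G (flp k w) * T w)
              = star (T w) * (G (flp k w) * G (flp k w)) * T w := by noncomm_ring
            _ = _ := by rw [h.idem]
        · rw [e, star_neg, neg_mul_neg, star_mul, h.sa]
          calc star (T w) * G (flp k w) * (G (flp k w) * T w)
              = star (T w) * (G (flp k w) * G (flp k w)) * T w := by noncomm_ring
            _ = _ := by rw [h.idem]
      have e2 := (Stub.G_zO h k w).2
      have e3 : star (T w) = star (T w) * G w := by
        have := congrArg star (hT.left w)
        rw [star_mul, h.sa] at this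
        exact this.symm
      calc star (T (flp k w)) * T (flp k w)
          = star (T w) * G (flp k w) * T w := e1
        _ = (star (T w) * G w) * G (flp k w) * (G w * T w) := by rw [← e3, hT.left]
        _ = star (T w) * (G w * G (flp k w) * G w) * T w := by noncomm_ring
        _ = star (T w) * (zO G k * (G w * T w)) := by rw [← e2]; noncomm_ring
        _ = star (T w) * T w * zO G k := by rw [hT.left, z_T h hT]; noncomm_ring
        _ = ζ * (G (fun _ => false) * zO G k) := by rw [h2]; noncomm_ring
        _ = ζ * (zO G k * G (fun _ => false)) := by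
            rw [(Stub.G_zO h k (fun _ => false)).1, (Stub.G_zO h k (fun _ => false)).2]
        _ = zO G k * ζ * G (fun _ => false) := by
            rw [← mul_assoc, isZ_comm_z h hζ]

end cube

end Pool.Agent.H707R.LF
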