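import Pool.Agent.H707R.LF.StubsC

set_option autoImplicit false

namespace Pool.Agent.H707R.LF

open Pool.Agent.Helper278

section C3

variable {A : Type} [Ring A] [Algebra ℂ A]

private theorem C3_pvm {e : A} {m : Ctx → Out → A} (hS : Sys e m) (C : Ctx) : Pvm e (m C) :=
  ⟨hS.idem C, fun _ _ hne => hS.bad C _ C _ (Or.inl ⟨rfl, hne⟩), hS.sum C⟩

private theorem C3_half_plus {e : A} {m : Out → A} (h : Pvm e m) (f : Out → Bool) :
    (1 / 2 : ℂ) • (e + op m f) = ∑ o, if f o = false then m o else 0 := by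
  unfold op
  rw [← h.sum, ← Finset.sum_add_distrib, Finset.smul_sum]
  refine Finset.sum_congr rfl fun o _ => ?_
  by_cases ho : f o = false
  · rw [if_pos ho, ho]
    simp only [sgn, Bool.false_eq_true, if_false, one_smul]
    rw [← two_smul ℂ (m o), smul_smul]
    norm_num
  · rw [if_neg ho]
    rw [Bool.not_eq_false] at ho
    rw [ho]
    simp [sgn]

private theorem C3_half_minus {e : A} {m : Out → A} (h : Pvm e m) (f : Out → Bool) :
    (1 / 2 : ℂ) • (e - op m f) = ∑ o, if f o = true then m o else 0 := by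
  unfold op
  rw [← h.sum, ← Finset.sum_sub_distrib, Finset.smul_sum]
  refine Finset.sum_congr rfl fun o _ => ?_
  by_cases ho : f o = true
  · rw [if_pos ho, ho]
    simp only [sgn, if_true, neg_smul, one_smul, sub_neg_eq_add]
    rw [← two_smul ℂ (m o), smul_smul]
    norm_num
  · rw [if_neg ho]
    rw [Bool.not_eq_true] at ho
    rw [ho]
    simp [sgn]

private theorem C3_atom {e : A} {m : Out → A} (h : Pvm e m) (f : Out → Bool) (o : Out) :
    op m f * m o = sgn (f o) • m o := by
  classical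
  unfold op
  rw [Finset.sum_mul, Finset.sum_eq_single o]
  · rw [smul_mul_assoc, h.idem]
  · intro o' _ hne
    rw [smul_mul_assoc, h.orth o' o hne, smul_zero]
  · intro hn
    exact absurd (Finset.mem_univ _) hn

private theorem C3_pj_mul {e : A} {m : Out → A} (h : Pvm e m) (P Q : Out → Prop)
    [DecidablePred P] [DecidablePred Q] :
    (∑ o, if P o then m o else 0) * (∑ o, if Q o then m o else 0) =
      ∑ o, if P o ∧ Q o then m o else 0 := by
  classical
  rw [Finset.sum_mul]
  refine Finset.sum_congr rfl fun o _ => ?_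
  rw [Finset.mul_sum, Finset.sum_eq_single o]
  · by_cases hP : P o
    · by_cases hQ : Q o
      · simp [hP, hQ, h.idem]
      · simp [hQ]
    · simp [hP]
  · intro o' _ hne
    by_cases hP : P o
    · by_cases hQ : Q o'
      · rw [if_pos hP, if_pos hQ, h.orth o o' (Ne.symm hne)]
      · rw [if_neg hQ, mul_zero]
    · rw [if_neg hP, zero_mul]
  · intro hn
    exact absurd (Finset.mem_univ _) hn

private theorem C3_key {e : A} {m : Out → A} (h : Pvm e m) (f : Out → Bool) (x : A)
    (P : Out → Prop) [DecidablePred P] (hx : ∀ o, P o → x * m o = sgn (f o) • m o) :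
    x * (∑ o, if P o then m o else 0) = op m f * (∑ o, if P o then m o else 0) := by
  rw [Finset.mul_sum, Finset.mul_sum]
  refine Finset.sum_congr rfl fun o _ => ?_
  by_cases hP : P o
  · rw [if_pos hP, hx o hP, C3_atom h]
  · rw [if_neg hP, mul_zero, mul_zero]

private theorem C3_comm {e : A} {m : Out → A} (h : Pvm e m) (f f' : Out → Bool) :
    op m f * op m f' = op m f' * op m f := by
  rw [Stub.op_mul_op h, Stub.op_mul_op h]
  congr 1
  funext o
  exact Bool.xor_comm _ _

private theorem C3_sgn_star [StarRing A] [StarModule ℂ A] {m : Out → A}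
    (hsa : ∀ o, star (m o) = m o) (f : Out → Bool) : star (op m f) = op m f := by
  unfold op
  rw [star_sum]
  refine Finset.sum_congr rfl fun o _ => ?_
  rw [star_smul, hsa]
  congr 1
  unfold sgn
  split_ifs <;> simp

end C3

/-- C3 : consequences of a solution of the system -/
theorem sys_rel {A : Type} [Ring A] [StarRing A] [Algebra ℂ A] [StarModule ℂ A] {e : A}
    {m : Ctx → Out → A} (hS : Sys e m) (hsa : ∀ C o, star (m C o) = m C o) :
    ∃ (g H : Fin 3 → A) (X a S ep em f0 f1 : A), Rel e g H X a S ep em f0 f1 ∧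
      ∀ s, star (g s) = g s := by
  obtain ⟨hE, eD1, eD2, eD3, -, -, eC1, eC2, -, -, -, -, -, -⟩ := Stub.ops_eq hS
  obtain ⟨hXZ, haB, hSB⟩ := Stub.ops_magic hS
  obtain ⟨hH1, hH2, hH3, hSH⟩ := Stub.ops_H hS
  have hp := C3_pvm hS
  have ug : ∀ s, e * gO m s = gO m s ∧ gO m s * e = gO m s ∧ gO m s * gO m s = e ∧ e * e = e :=
    fun s => Stub.op_unit (hp (.U s)) _
  have uH : ∀ s, e * HO m s = HO m s ∧ HO m s * e = HO m s ∧ HO m s * HO m s = e ∧ e * e = e :=
    fun s => Stub.op_unit (hp (.T s)) _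
  have uX : e * XO m = XO m ∧ XO m * e = XO m ∧ XO m * XO m = e ∧ e * e = e :=
    Stub.op_unit (hp (.U 0)) _
  have ua : e * aO m = aO m ∧ aO m * e = aO m ∧ aO m * aO m = e ∧ e * e = e :=
    Stub.op_unit (hp (.U 0)) _
  have uS : e * SO m = SO m ∧ SO m * e = SO m ∧ SO m * SO m = e ∧ e * e = e :=
    Stub.op_unit (hp (.T 0)) _
  have uZ : e * ZO m = ZO m ∧ ZO m * e = ZO m ∧ ZO m * ZO m = e ∧ e * e = e :=
    Stub.op_unit (hp (.V 0)) _
  have uB : e * BO m = BO m ∧ BO m * e = BO m ∧ BO m * BO m = e ∧ e * e = e :=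
    Stub.op_unit (hp (.V 0)) _
  have ee : e * e = e := uX.2.2.2
  -- commutations
  have cgX : ∀ s, gO m s * XO m = XO m * gO m s := fun s => by
    rw [← (hE s).1]
    exact C3_comm (hp (.U s)) _ _
  have cga : ∀ s, gO m s * aO m = aO m * gO m s := fun s => by
    rw [← (hE s).2.1]
    exact C3_comm (hp (.U s)) _ _
  have cgZ : ∀ s, gO m s * ZO m = ZO m * gO m s := fun s => by
    rw [← (hE s).2.2.1, ← (hE s).2.2.2.1]
    exact C3_comm (hp (.V s)) _ _
  have cgB : ∀ s, gO m s * BO m = BO m * gO m s := fun s => by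
    rw [← (hE s).2.2.1, ← (hE s).2.2.2.2.1]
    exact C3_comm (hp (.V s)) _ _
  have cBZ : BO m * ZO m = ZO m * BO m := C3_comm (hp (.V 0)) _ _
  have cXB : XO m * BO m = BO m * XO m := by
    rw [← eD2, ← eD3]
    exact C3_comm (hp .D) _ _
  have caZ : aO m * ZO m = ZO m * aO m := by
    rw [← eC1, ← eC2]
    exact C3_comm (hp .C2) _ _
  -- the projections in the contexts
  have hep : ∀ s, (1 / 2 : ℂ) • (e + BO m) = ∑ o, if o.2.2 = false then m (.V s) o else 0 :=
    fun s => by
      rw [← (hE s).2.2.2.2.1]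
      exact C3_half_plus (hp (.V s)) (fun o => o.2.2)
  have hem : ∀ s, (1 / 2 : ℂ) • (e - BO m) = ∑ o, if o.2.2 = true then m (.V s) o else 0 :=
    fun s => by
      rw [← (hE s).2.2.2.2.1]
      exact C3_half_minus (hp (.V s)) (fun o => o.2.2)
  have hf0 : ∀ s, (1 / 2 : ℂ) • (e + ZO m) = ∑ o, if o.2.1 = false then m (.V s) o else 0 :=
    fun s => by
      rw [← (hE s).2.2.2.1]
      exact C3_half_plus (hp (.V s)) (fun o => o.2.1)
  have hf1 : ∀ s, (1 / 2 : ℂ) • (e - ZO m) = ∑ o, if o.2.1 = true then m (.V s) o else 0 :=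
    fun s => by
      rw [← (hE s).2.2.2.1]
      exact C3_half_minus (hp (.V s)) (fun o => o.2.1)
  have hemD : (1 / 2 : ℂ) • (e - BO m) = ∑ o, if o.2.2 = true then m .D o else 0 := by
    rw [← eD3]
    exact C3_half_minus (hp .D) (fun o => o.2.2)
  have key0 : ∀ t s, t ≠ 2 → lsec t false = s →
      HO m t * ((1 / 2 : ℂ) • (e + ZO m) * ((1 / 2 : ℂ) • (e - BO m))) =
      gO m s * ((1 / 2 : ℂ) • (e + ZO m) * ((1 / 2 : ℂ) • (e - BO m))) := by
    intro t s ht hts
    rw [hf0 s, hem s, C3_pj_mul (hp (.V s)), ← (hE s).2.2.1]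
    refine C3_key (hp (.V s)) _ _ _ fun o ho => ?_
    exact hH2 t s o ho.2 ht (by rw [ho.1]; exact hts)
  have key1 : ∀ t s, t ≠ 2 → lsec t true = s →
      HO m t * ((1 / 2 : ℂ) • (e - ZO m) * ((1 / 2 : ℂ) • (e - BO m))) =
      gO m s * ((1 / 2 : ℂ) • (e - ZO m) * ((1 / 2 : ℂ) • (e - BO m))) := by
    intro t s ht hts
    rw [hf1 s, hem s, C3_pj_mul (hp (.V s)), ← (hE s).2.2.1]
    refine C3_key (hp (.V s)) _ _ _ fun o ho => ?_
    exact hH2 t s o ho.2 ht (by rw [ho.1]; exact hts)
  have hsplit : ∀ y : A, (1 / 2 : ℂ) • (e - BO m) = y → y =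
      (1 / 2 : ℂ) • (e + ZO m) * y + (1 / 2 : ℂ) • (e - ZO m) * y := by
    rintro y rfl
    rw [← add_mul, ← smul_add]
    have h1 : e + ZO m + (e - ZO m) = (2 : ℂ) • e := by
      rw [two_smul]
      abel
    rw [h1, smul_smul]
    norm_num
    rw [mul_sub, ee, uB.1]
  have hsplit' := hsplit _ rfl
  refine ⟨gO m, HO m, XO m, aO m, SO m, (1 / 2 : ℂ) • (e + BO m), (1 / 2 : ℂ) • (e - BO m),
    (1 / 2 : ℂ) • (e + ZO m), (1 / 2 : ℂ) • (e - ZO m), ?_, fun s => C3_sgn_star (hsa _) _⟩
  exact
    { ee := ee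
      eg := fun s => (ug s).1
      ge := fun s => (ug s).2.1
      eH := fun s => (uH s).1
      He := fun s => (uH s).2.1
      eX := uX.1
      Xe := uX.2.1
      ea := ua.1
      ae := ua.2.1
      eS := uS.1
      Se := uS.2.1
      gg := fun s => (ug s).2.2.1
      XX := uX.2.2.1
      aa := ua.2.2.1
      SS := uS.2.2.1
      gX := cgX
      ga := cga
      gep := fun s => by
        rw [mul_smul_comm, smul_mul_assoc, mul_add, add_mul, (ug s).1, (ug s).2.1, cgB]
      gf := fun s => by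
        rw [mul_smul_comm, smul_mul_assoc, mul_add, add_mul, (ug s).1, (ug s).2.1, cgZ]
      pp := by
        rw [smul_mul_smul_comm, add_mul, mul_add, mul_add, ee, uB.1, uB.2.1, uB.2.2.1]
        have h1 : e + BO m + (BO m + e) = (2 : ℂ) • (e + BO m) := by
          rw [two_smul]
          abel
        rw [h1, smul_smul]
        norm_num
      ff := by
        rw [smul_mul_smul_comm, add_mul, mul_add, mul_add, ee, uZ.1, uZ.2.1, uZ.2.2.1]
        have h1 : e + ZO m + (ZO m + e) = (2 : ℂ) • (e + ZO m) := by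
          rw [two_smul]
          abel
        rw [h1, smul_smul]
        norm_num
      pe := by
        rw [← smul_add]
        have h1 : e + BO m + (e - BO m) = (2 : ℂ) • e := by
          rw [two_smul]
          abel
        rw [h1, smul_smul]
        norm_num
      fe := by
        rw [← smul_add]
        have h1 : e + ZO m + (e - ZO m) = (2 : ℂ) • e := by
          rw [two_smul]
          abel
        rw [h1, smul_smul]
        norm_num
      epe := by rw [mul_smul_comm, mul_add, ee, uB.1]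
      pee := by rw [smul_mul_assoc, add_mul, ee, uB.2.1]
      efe := by rw [mul_smul_comm, mul_add, ee, uZ.1]
      fee := by rw [smul_mul_assoc, add_mul, ee, uZ.2.1]
      pf := by
        rw [smul_mul_smul_comm, smul_mul_smul_comm, add_mul, mul_add, mul_add, add_mul, mul_add,
          mul_add, cBZ, uB.1, uB.2.1, uZ.1, uZ.2.1]
        congr 1
        abel
      Xf := by
        rw [mul_smul_comm, smul_mul_assoc, mul_add, sub_mul, uX.1, uX.2.1, hXZ, sub_eq_add_neg]
      Xp := by
        rw [mul_smul_comm, smul_mul_assoc, mul_add, add_mul, uX.1, uX.2.1, cXB]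
      ap := by
        rw [mul_smul_comm, smul_mul_assoc, mul_add, sub_mul, ua.1, ua.2.1, haB, sub_eq_add_neg]
      af := by
        rw [mul_smul_comm, smul_mul_assoc, mul_add, add_mul, ua.1, ua.2.1, caZ]
      Sp := by
        rw [mul_smul_comm, smul_mul_assoc, mul_add, sub_mul, uS.1, uS.2.1, hSB, sub_eq_add_neg]
      SH := hSH
      Hp := fun s => by
        rw [hep s, ← (hE s).2.2.1]
        exact C3_key (hp (.V s)) _ _ _ fun o ho => hH1 s o ho
      H0 := by
        rw [add_mul, mul_assoc, mul_assoc, ← key0 0 2 (by decide) rfl,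
          ← key1 0 1 (by decide) rfl, ← mul_add, ← hsplit']
      H1 := by
        rw [add_mul, mul_assoc, mul_assoc, ← key0 1 1 (by decide) rfl,
          ← key1 1 2 (by decide) rfl, ← mul_add, ← hsplit']
      H2 := by
        have h1 : gO m 0 * XO m = op (m .D) (fun o => xor o.1 o.2.1) := by
          rw [← eD1, ← eD2, Stub.op_mul_op (hp .D)]
        rw [h1, hemD]
        exact C3_key (hp .D) _ _ _ fun o ho => hH3 o ho }

end Pool.Agent.H707R.LF
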