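import Pool.Agent.H707R.LF.StubsC

/-! Task C3a: the operators do not depend on the context. -/

set_option autoImplicit false

namespace Pool.Agent.H707R.LF

theorem c3a_pvm {A : Type} [Ring A] {e : A} {m : Ctx → Out → A} (hS : Sys e m) (C : Ctx) :
    Pvm e (m C) :=
  ⟨hS.idem C, fun o o' h => hS.bad C o C o' (Or.inl ⟨rfl, h⟩), hS.sum C⟩

theorem c3a_eq {A : Type} [Ring A] [Algebra ℂ A] {e : A} {m : Ctx → Out → A} (hS : Sys e m)
    (C C' : Ctx) (f f' : Out → Bool) (x : Obs) (h : ∀ o, obs C o x = some (f o))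
    (h' : ∀ o, obs C' o x = some (f' o)) : op (m C) f = op (m C') f' :=
  Stub.op_eq_op (c3a_pvm hS C) (c3a_pvm hS C') fun o o' hne =>
    hS.bad C o C' o' (Or.inr ⟨x, f o, f' o', h o, h' o', hne⟩)

/-- C3a : the operators do not depend on the context -/
theorem ops_eq {A : Type} [Ring A] [StarRing A] [Algebra ℂ A] [StarModule ℂ A] {e : A}
    {m : Ctx → Out → A} (hS : Sys e m) :
    (∀ s, op (m (.U s)) (fun o => o.2.1) = XO m ∧ op (m (.U s)) (fun o => o.2.2) = aO m ∧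
      op (m (.V s)) (fun o => o.1) = gO m s ∧ op (m (.V s)) (fun o => o.2.1) = ZO m ∧
      op (m (.V s)) (fun o => o.2.2) = BO m ∧ op (m (.T s)) (fun o => o.1) = SO m) ∧
    op (m .D) (fun o => o.1) = gO m 0 ∧ op (m .D) (fun o => o.2.1) = XO m ∧
    op (m .D) (fun o => o.2.2) = BO m ∧ op (m .R3) (fun o => o.1) = XO m * BO m ∧
    op (m .R3) (fun o => o.2.1) = ZO m * aO m ∧ op (m .C2) (fun o => o.1) = ZO m ∧
    op (m .C2) (fun o => o.2.1) = aO m ∧ op (m .C3) (fun o => o.1) = XO m * aO m ∧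
    op (m .C3) (fun o => o.2.1) = ZO m * BO m ∧ op (m .SP) (fun o => o.1) = SO m ∧
    op (m .QB) (fun o => o.2.1) = BO m ∧ op (m .SQ) (fun o => o.1) = SO m ∧
    op (m .PB) (fun o => o.2.1) = BO m := by
  have hX : ∀ C, (∀ o, obs C o .X = some o.2.1) → op (m C) (fun o => o.2.1) = XO m :=
    fun C h => c3a_eq hS C (.U 0) _ _ .X h fun _ => rfl
  have hDX : op (m .D) (fun o => o.2.1) = XO m := hX .D fun _ => rfl
  have hDB : op (m .D) (fun o => o.2.2) = BO m :=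
    c3a_eq hS .D (.V 0) _ _ .B (fun _ => rfl) fun _ => rfl
  have hCZ : op (m .C2) (fun o => o.1) = ZO m :=
    c3a_eq hS .C2 (.V 0) _ _ .Z (fun _ => rfl) fun _ => rfl
  have hCA : op (m .C2) (fun o => o.2.1) = aO m :=
    c3a_eq hS .C2 (.U 0) _ _ .A (fun _ => rfl) fun _ => rfl
  refine ⟨fun s => ⟨hX (.U s) fun _ => rfl, ?_, ?_, ?_, ?_, ?_⟩, ?_, hDX, hDB, ?_, ?_, hCZ, hCA,
    ?_, ?_, ?_, ?_, ?_, ?_⟩
  · exact c3a_eq hS (.U s) (.U 0) _ _ .A (fun _ => rfl) fun _ => rfl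
  · exact c3a_eq hS (.V s) (.U s) _ _ (.L s) (fun o => by simp [obs]) fun o => by simp [obs]
  · exact c3a_eq hS (.V s) (.V 0) _ _ .Z (fun _ => rfl) fun _ => rfl
  · exact c3a_eq hS (.V s) (.V 0) _ _ .B (fun _ => rfl) fun _ => rfl
  · exact c3a_eq hS (.T s) (.T 0) _ _ .S (fun _ => rfl) fun _ => rfl
  · exact c3a_eq hS .D (.U 0) _ _ (.L 0) (fun o => by simp [obs]) fun o => by simp [obs]
  · rw [← hDX, ← hDB, Stub.op_mul_op (c3a_pvm hS .D)]
    exact c3a_eq hS .R3 .D _ _ .XB (fun _ => rfl) fun _ => rfl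
  · rw [← hCZ, ← hCA, Stub.op_mul_op (c3a_pvm hS .C2)]
    exact c3a_eq hS .R3 .C2 _ _ .ZA (fun _ => rfl) fun _ => rfl
  · unfold XO aO
    rw [Stub.op_mul_op (c3a_pvm hS (.U 0))]
    exact c3a_eq hS .C3 (.U 0) _ _ .XA (fun _ => rfl) fun _ => rfl
  · unfold ZO BO
    rw [Stub.op_mul_op (c3a_pvm hS (.V 0))]
    exact c3a_eq hS .C3 (.V 0) _ _ .ZB (fun _ => rfl) fun _ => rfl
  · exact c3a_eq hS .SP (.T 0) _ _ .S (fun _ => rfl) fun _ => rfl
  · exact c3a_eq hS .QB (.V 0) _ _ .B (fun _ => rfl) fun _ => rfl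
  · exact c3a_eq hS .SQ (.T 0) _ _ .S (fun _ => rfl) fun _ => rfl
  · exact c3a_eq hS .PB (.V 0) _ _ .B (fun _ => rfl) fun _ => rfl

end Pool.Agent.H707R.LF
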