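import Pool.Agent.H707R.LF.StubsC

set_option autoImplicit false

namespace Pool.Agent.H707R.LF

private theorem C5_key (s t : Fin 3) (y : Bool) (h : s ≠ t) : lsec s (lout t y) ≠ lsec t y := by
  revert s t y
  decide

/-- C5 -/
theorem secW_red (x : Bool) (l : List (Fin 3)) (h : Red l) :
    Red (secW x l).1 ∧ (secW x l).1.length = l.length := by
  induction l with
  | nil => exact ⟨h, rfl⟩
  | cons s l ih =>
    cases l with
    | nil =>
      refine ⟨?_, rfl⟩
      simp [Red, secW]
    | cons t l =>
      have h' : s ≠ t ∧ Red (t :: l) := by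
        simpa [Red] using h
      obtain ⟨ih1, ih2⟩ := ih h'.2
      refine ⟨?_, ?_⟩
      · have e1 : (secW x (t :: l)).1 = lsec t (secW x l).2 :: (secW x l).1 := rfl
        have e2 : (secW x (s :: t :: l)).1 =
          lsec s (lout t (secW x l).2) :: lsec t (secW x l).2 :: (secW x l).1 := rfl
        rw [e1] at ih1
        rw [e2]
        have := C5_key s t (secW x l).2 h'.1
        simp only [Red] at ih1 ⊢
        exact ⟨this, ih1⟩
      · have e2 : (secW x (s :: t :: l)).1 =
          lsec s (secW x (t :: l)).2 :: (secW x (t :: l)).1 := rfl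
        rw [e2, List.length_cons, ih2]
        rfl

end Pool.Agent.H707R.LF
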