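import Pool.Agent.H707R.LF.StubsD

/-! Task D1 (helper368): reduction of words in three involutions. -/

set_option autoImplicit false

namespace Pool.Agent.H707R.LF

private theorem D1_rd_cons_nil {s : Fin 3} {l : List (Fin 3)} (h : rd l = []) :
    rd (s :: l) = [s] := by
  simp only [rd, h]

private theorem D1_rd_cons_eq {s : Fin 3} {l l' : List (Fin 3)} (h : rd l = s :: l') :
    rd (s :: l) = l' := by
  simp only [rd, h, if_true]

private theorem D1_rd_cons_ne {s t : Fin 3} {l l' : List (Fin 3)} (h : rd l = t :: l')
    (hst : s ≠ t) : rd (s :: l) = s :: t :: l' := by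
  simp only [rd, h, if_neg hst]

private theorem D1_red_tail {s : Fin 3} {l : List (Fin 3)} (h : Red (s :: l)) : Red l := by
  cases l with
  | nil => exact trivial
  | cons t l => exact h.2

/-- D1 -/
theorem red_rd (l : List (Fin 3)) : Red (rd l) := by
  induction l with
  | nil => exact trivial
  | cons s l ih =>
    cases hl : rd l with
    | nil =>
      rw [D1_rd_cons_nil hl]
      exact trivial
    | cons t l' =>
      rw [hl] at ih
      by_cases hst : s = t
      · subst hst
        rw [D1_rd_cons_eq hl]
        exact D1_red_tail ih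
      · rw [D1_rd_cons_ne hl hst]
        exact ⟨hst, ih⟩

/-- D1 -/
theorem rd_of_red (l : List (Fin 3)) (h : Red l) : rd l = l := by
  induction l with
  | nil => rfl
  | cons s l ih =>
    have h1 := ih (D1_red_tail h)
    cases l with
    | nil => rfl
    | cons t l => exact D1_rd_cons_ne h1 h.1

private theorem D1_e_ev {A : Type} [Ring A] [StarRing A] {e : A} {g : Fin 3 → A}
    (hI : Inv3 e g) (l : List (Fin 3)) : e * ev e g l = ev e g l := by
  cases l with
  | nil => exact hI.ee
  | cons s l =>
    change e * (g s * ev e g l) = g s * ev e g l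
    rw [← mul_assoc, hI.eg]

/-- D1 -/
theorem ev_rd {A : Type} [Ring A] [StarRing A] {e : A} {g : Fin 3 → A} (hI : Inv3 e g)
    (l : List (Fin 3)) : ev e g (rd l) = ev e g l := by
  induction l with
  | nil => rfl
  | cons s l ih =>
    change ev e g (rd (s :: l)) = g s * ev e g l
    rw [← ih]
    cases hl : rd l with
    | nil =>
      rw [D1_rd_cons_nil hl]
      rfl
    | cons t l' =>
      by_cases hst : s = t
      · subst hst
        rw [D1_rd_cons_eq hl]
        change ev e g l' = g s * (g s * ev e g l')
        rw [← mul_assoc, hI.gg, D1_e_ev hI]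
      · rw [D1_rd_cons_ne hl hst]
        rfl

end Pool.Agent.H707R.LF
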