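import Pool.Agent.H707R.LF.StubsD

/-! D2 (helper338): products of words in three involutions. -/

set_option autoImplicit false

open scoped InnerProductSpace ComplexOrder BoundedContinuousFunction
open Filter

namespace Pool.Agent.H707R.LF

open Pool.Agent.Helper278 Pool.Agent.Helper436.SM

private def d2_act (s : Fin 3) (r : List (Fin 3)) : List (Fin 3) :=
  match r with
  | [] => [s]
  | t :: l' => if s = t then l' else s :: t :: l'

private theorem d2_rd_cons (s : Fin 3) (l : List (Fin 3)) : rd (s :: l) = d2_act s (rd l) := by
  simp only [rd, d2_act]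
  cases rd l <;> rfl

private theorem d2_red_tail {t : Fin 3} {l : List (Fin 3)} (h : Red (t :: l)) : Red l := by
  cases l with
  | nil => exact trivial
  | cons u l => exact h.2

private theorem d2_red_act (s : Fin 3) {r : List (Fin 3)} (h : Red r) : Red (d2_act s r) := by
  cases r with
  | nil => exact trivial
  | cons t l =>
    simp only [d2_act]
    split
    · exact d2_red_tail h
    · rename_i hst
      exact ⟨hst, h⟩

private theorem d2_act_act (s : Fin 3) {r : List (Fin 3)} (h : Red r) :
    d2_act s (d2_act s r) = r := by
  cases r with
  | nil => simp [d2_act]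
  | cons t l =>
    by_cases hst : s = t
    · subst hst
      have e : d2_act s (s :: l) = l := by simp [d2_act]
      rw [e]
      cases l with
      | nil => rfl
      | cons u l =>
        have : s ≠ u := h.1
        simp [d2_act, this]
    · have e : d2_act s (t :: l) = s :: t :: l := by simp [d2_act, hst]
      rw [e]
      simp [d2_act]

private theorem d2_red_rd (l : List (Fin 3)) : Red (rd l) := by
  induction l with
  | nil => exact trivial
  | cons s l ih =>
    rw [d2_rd_cons]
    exact d2_red_act s ih

private theorem d2_rd_of_red (l : List (Fin 3)) (h : Red l) : rd l = l := by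
  induction l with
  | nil => rfl
  | cons s l ih =>
    rw [d2_rd_cons, ih (d2_red_tail h)]
    cases l with
    | nil => rfl
    | cons t l =>
      have : s ≠ t := h.1
      simp [d2_act, this]

private theorem d2_rd_append (l l' : List (Fin 3)) : rd (l ++ l') = l.foldr d2_act (rd l') := by
  induction l with
  | nil => rfl
  | cons s l ih => rw [List.cons_append, d2_rd_cons, ih, List.foldr_cons]

private theorem d2_back (l x : List (Fin 3)) (hx : Red x) :
    l.foldr d2_act (l.reverse.foldr d2_act x) = x := by
  induction l generalizing x with
  | nil => rfl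
  | cons s l ih =>
    rw [List.reverse_cons, List.foldr_append, List.foldr_cons]
    show d2_act s (l.foldr d2_act (l.reverse.foldr d2_act (d2_act s x))) = x
    rw [ih _ (d2_red_act s hx), d2_act_act s hx]

private theorem d2_self (l : List (Fin 3)) : l.reverse.foldr d2_act (rd l) = [] := by
  induction l with
  | nil => rfl
  | cons s l ih =>
    rw [List.reverse_cons, List.foldr_append, d2_rd_cons]
    show l.reverse.foldr d2_act (d2_act s (d2_act s (rd l))) = []
    rw [d2_act_act s (d2_red_rd l), ih]

private theorem d2_e_mul {A : Type} [Ring A] [StarRing A] {e : A} {g : Fin 3 → A} (hI : Inv3 e g)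
    (l : List (Fin 3)) : e * ev e g l = ev e g l := by
  cases l with
  | nil => exact hI.ee
  | cons s l =>
    show e * (g s * ev e g l) = g s * ev e g l
    rw [← mul_assoc, hI.eg]

/-- D2 -/
theorem star_ev_mul {A : Type} [Ring A] [StarRing A] {e : A} {g : Fin 3 → A} (hI : Inv3 e g)
    (l l' : List (Fin 3)) : star (ev e g l) * ev e g l' = ev e g (l.reverse ++ l') := by
  induction l generalizing l' with
  | nil =>
    show star e * ev e g l' = ev e g l'
    rw [hI.es, d2_e_mul hI]
  | cons s l ih =>
    show star (g s * ev e g l) * ev e g l' = _
    rw [star_mul, hI.gs, mul_assoc, List.reverse_cons, List.append_assoc]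
    exact ih (s :: l')

/-- D2 -/
theorem rd_reverse_append_ne (l l' : List (Fin 3)) (h : Red l) (h' : Red l') (hne : l ≠ l') :
    rd (l.reverse ++ l') ≠ [] := by
  intro h0
  rw [d2_rd_append] at h0
  have h1 := d2_back l (rd l') (d2_red_rd l')
  rw [h0, d2_rd_of_red l' h'] at h1
  have h2 := d2_rd_append l []
  rw [List.append_nil, d2_rd_of_red l h] at h2
  apply hne
  rw [h2, ← h1]
  rfl

/-- D2 -/
theorem rd_reverse_append (l l' : List (Fin 3)) (h : rd l = rd l') :
    rd (l.reverse ++ l') = [] := by
  rw [d2_rd_append, ← h]
  exact d2_self l

end Pool.Agent.H707R.LF
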