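import Pool.Agent.H707R.LF.StubsD

/-! Task D4 (helper955). -/

set_option autoImplicit false

namespace Pool.Agent.H707R.LF

private theorem D4_ofFn_get (L : List (Fin 3)) (n : ℕ) (h : L.length = n) :
    List.ofFn (fun i : Fin n => L.get ⟨i.1, by rw [h]; exact i.2⟩) = L := by
  subst h
  exact List.ofFn_get L

theorem Nw_sq_le (j : ℕ) (r : List (Fin 3)) : (Nw j r) ^ 2 ≤ Nw (2 * j) [] := by
  classical
  have hlen : ∀ p : (Fin j → Fin 3) × (Fin j → Fin 3),
      ((List.ofFn p.1).reverse ++ List.ofFn p.2).length = 2 * j := by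
    intro p
    simp
    omega
  let F : (Fin j → Fin 3) × (Fin j → Fin 3) → (Fin (2 * j) → Fin 3) := fun p i =>
    ((List.ofFn p.1).reverse ++ List.ofFn p.2).get ⟨i.1, by rw [hlen p]; exact i.2⟩
  have hF : ∀ p, List.ofFn (F p) = (List.ofFn p.1).reverse ++ List.ofFn p.2 := fun p =>
    D4_ofFn_get _ _ (hlen p)
  unfold Nw
  rw [sq, ← Finset.card_product]
  refine Finset.card_le_card_of_injOn F ?_ ?_
  · intro p hp
    rw [Finset.mem_coe, Finset.mem_product, Finset.mem_filter, Finset.mem_filter] at hp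
    rw [Finset.mem_coe, Finset.mem_filter]
    refine ⟨Finset.mem_univ _, ?_⟩
    rw [hF p]
    exact Stub.rd_reverse_append _ _ (hp.1.2.trans hp.2.2.symm)
  · intro p _ p' _ h
    have h1 : (List.ofFn p.1).reverse ++ List.ofFn p.2 =
        (List.ofFn p'.1).reverse ++ List.ofFn p'.2 := by
      rw [← hF p, ← hF p', h]
    have h2 := List.append_inj h1 (by simp)
    have h3 : p.1 = p'.1 := List.ofFn_injective (List.reverse_injective h2.1)
    have h4 : p.2 = p'.2 := List.ofFn_injective h2.2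
    exact Prod.ext h3 h4

theorem Nw_le (j : ℕ) (r : List (Fin 3)) : (Nw j r : ℝ) ≤ (2 * Real.sqrt 2) ^ j := by
  have h1 : ((Nw j r : ℝ)) ^ 2 ≤ (Nw (2 * j) [] : ℝ) := by exact_mod_cast Nw_sq_le j r
  have h2 := Stub.sum_Nw_weight (2 * j) {[]}
  rw [Finset.sum_singleton, List.length_nil, pow_zero, mul_one] at h2
  have h3 : ((2 * Real.sqrt 2) ^ (2 * j) : ℝ) = ((2 * Real.sqrt 2) ^ j) ^ 2 := by
    rw [← pow_mul, mul_comm j 2]
  rw [h3] at h2
  exact (sq_le_sq₀ (Nat.cast_nonneg _) (by positivity)).1 (h1.trans h2)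

end Pool.Agent.H707R.LF
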