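import Pool.Agent.H707R.LF.StubsD

set_option autoImplicit false

open scoped InnerProductSpace ComplexOrder BoundedContinuousFunction Matrix
open Filter

namespace Pool.Agent.H707R.LF

open Pool.Agent.Helper278 Pool.Agent.Helper436.SM

private theorem D5_gram {A : Type} [Ring A] [StarRing A] [Algebra ℂ A] [StarModule ℂ A]
    {τ : A →ₗ[ℂ] ℂ} (h : TrAlg τ) {ι : Type} [Fintype ι] (x : ι → A) :
    (Matrix.of fun i j => τ (star (x i) * x j)).PosSemidef := by
  refine Matrix.PosSemidef.of_dotProduct_mulVec_nonneg ?_ ?_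
  · ext i j
    simp only [Matrix.conjTranspose_apply, Matrix.of_apply]
    rw [← h.conj, star_mul, star_star]
  · intro c
    have e : star c ⬝ᵥ ((Matrix.of fun i j => τ (star (x i) * x j)) *ᵥ c)
        = τ (star (∑ i, c i • x i) * ∑ i, c i • x i) := by
      simp only [dotProduct, Matrix.mulVec, Matrix.of_apply, star_sum, star_smul, Pi.star_apply,
        Finset.sum_mul, Finset.mul_sum, map_sum, smul_mul_assoc, mul_smul_comm, map_smul,
        smul_eq_mul]
      rw [Finset.sum_comm]
      refine Finset.sum_congr rfl fun i _ => Finset.sum_congr rfl fun j _ => ?_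
      ring
    rw [e]
    exact h.nonneg _

private theorem D5_sq {A : Type} [Ring A] [StarRing A] [Algebra ℂ A] [StarModule ℂ A]
    {τ : A →ₗ[ℂ] ℂ} (h : TrAlg τ) {ι : Type} [Fintype ι] (x : ι → A) (c : ι → ℝ) :
    0 ≤ ∑ i, ∑ j, c i * c j * ‖τ (star (x i) * x j)‖ ^ 2 := by
  have h1 := (D5_gram h x).hadamard (D5_gram h x).transpose
  have h2 := h1.dotProduct_mulVec_nonneg (fun i => (c i : ℂ))
  have e : star (fun i => (c i : ℂ)) ⬝ᵥ
      ((Matrix.hadamard (Matrix.of fun i j => τ (star (x i) * x j))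
        (Matrix.transpose (Matrix.of fun i j => τ (star (x i) * x j)))) *ᵥ fun i => (c i : ℂ))
      = ((∑ i, ∑ j, c i * c j * ‖τ (star (x i) * x j)‖ ^ 2 : ℝ) : ℂ) := by
    simp only [dotProduct, Matrix.mulVec, Matrix.hadamard_apply, Matrix.transpose_apply,
      Matrix.of_apply, Pi.star_apply, Finset.mul_sum]
    push_cast
    refine Finset.sum_congr rfl fun i _ => Finset.sum_congr rfl fun j _ => ?_
    have h3 : τ (star (x j) * x i) = (starRingEnd ℂ) (τ (star (x i) * x j)) := by
      have := h.conj (star (x i) * x j)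
      rw [star_mul, star_star] at this
      exact this
    rw [h3, Complex.mul_conj, Complex.normSq_eq_norm_sq, Complex.star_def, Complex.conj_ofReal]
    push_cast
    ring
  rw [e] at h2
  exact Complex.zero_le_real.mp h2

private theorem D5_fin (k : ℕ) : (PkSet k).Finite := by
  have h : Function.Injective (fun (v : PkSet k) (i : Fin k) => v.1 i) := by
    intro v w h
    apply Subtype.ext
    apply Finsupp.ext
    intro i
    by_cases hi : i < k
    · exact congrFun h ⟨i, hi⟩
    · rw [v.2 i (not_lt.mp hi), w.2 i (not_lt.mp hi)]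
  have := Finite.of_injective _ h
  exact Set.toFinite _

private theorem D5_norm {A : Type} [Ring A] [StarRing A] [Algebra ℂ A] [StarModule ℂ A]
    {τ : A →ₗ[ℂ] ℂ} {W : VV → A} (h : PH τ W) (x y : A) (v w : VV) :
    ‖τ (star (x * W v) * (y * W w))‖ = ‖τ (star (W (w + v)) * (star x * y))‖ := by
  have e1 : star (x * W v) * (y * W w) = star (W v) * (star x * y * W w) := by
    rw [star_mul]; simp only [mul_assoc]
  have e2 : τ (star (W v) * (star x * y * W w)) = τ (W w * star (W v) * (star x * y)) := by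
    rw [← mul_assoc, h.tr.comm, mul_assoc]
  rw [e1, e2, h.pauli.star v, h.pauli.star (w + v), mul_smul_comm, h.pauli.mul, smul_smul,
    smul_mul_assoc, smul_mul_assoc, map_smul, map_smul, norm_smul, norm_smul, norm_mul,
    norm_sg, norm_sg, norm_sg, one_mul]

theorem phiK_psd {A : Type} [Ring A] [StarRing A] [Algebra ℂ A] [StarModule ℂ A]
    {τ : A →ₗ[ℂ] ℂ} {W : VV → A} (h : PH τ W) (k : ℕ) {ι : Type} [Fintype ι] (c : ι → ℝ)
    (x : ι → A) : 0 ≤ ∑ i, ∑ j, c i * c j * phiK τ W k (star (x i) * x j) := by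
  classical
  set P : Finset VV := (D5_fin k).toFinset with hP
  have hmem : ∀ v, v ∈ P ↔ ∀ i, k ≤ i → v i = 0 := by
    intro v
    rw [hP, Set.Finite.mem_toFinset]
    rfl
  have hphi : ∀ y, phiK τ W k y = ∑ u ∈ P, ‖τ (star (W u) * y)‖ ^ 2 := by
    intro y
    unfold phiK
    rw [finsum_mem_eq_finite_toFinset_sum _ (D5_fin k)]
  have hadd : ∀ v ∈ P, ∀ w ∈ P, w + v ∈ P := by
    intro v hv w hw
    rw [hmem] at hv hw ⊢
    intro i hi
    rw [Finsupp.add_apply, hv i hi, hw i hi, add_zero]
  have h0 : (0 : VV) ∈ P := by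
    rw [hmem]; intro i _; rfl
  have hcard : 0 < (P.card : ℝ) := by
    rw [Nat.cast_pos, Finset.card_pos]
    exact ⟨0, h0⟩
  have hshift : ∀ v ∈ P, ∀ y, ∑ w ∈ P, ‖τ (star (W (w + v)) * y)‖ ^ 2 = phiK τ W k y := by
    intro v hv y
    rw [hphi]
    refine Finset.sum_nbij' (fun w => w + v) (fun w => w + v) (fun w hw => hadd v hv w hw)
      (fun w hw => hadd v hv w hw) ?_ ?_ (fun w _ => rfl)
    · intro w _
      show w + v + v = w
      rw [add_assoc, vv_add_self, add_zero]
    · intro w _
      show w + v + v = w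
      rw [add_assoc, vv_add_self, add_zero]
  have key := D5_sq h.tr (fun a : ι × P => x a.1 * W a.2.1) (fun a => c a.1)
  have e : ∑ a : ι × P, ∑ b : ι × P, c a.1 * c b.1 *
      ‖τ (star (x a.1 * W a.2.1) * (x b.1 * W b.2.1))‖ ^ 2
      = P.card * ∑ i, ∑ j, c i * c j * phiK τ W k (star (x i) * x j) := by
    simp only [D5_norm h]
    rw [Fintype.sum_prod_type]
    rw [Finset.mul_sum]
    refine Finset.sum_congr rfl fun i _ => ?_
    have e1 : ∀ v : P, ∑ b : ι × P, c i * c b.1 *
        ‖τ (star (W (b.2.1 + v.1)) * (star (x i) * x b.1))‖ ^ 2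
        = ∑ j, c i * c j * phiK τ W k (star (x i) * x j) := by
      intro v
      rw [Fintype.sum_prod_type]
      refine Finset.sum_congr rfl fun j _ => ?_
      show ∑ y : P, c i * c j * ‖τ (star (W (y.1 + v.1)) * (star (x i) * x j))‖ ^ 2 = _
      rw [← Finset.mul_sum, ← hshift v.1 v.2,
        Finset.sum_coe_sort P (fun w => ‖τ (star (W (w + v.1)) * (star (x i) * x j))‖ ^ 2)]
    simp only [e1]
    rw [Finset.sum_const, Finset.card_univ, Fintype.card_coe, nsmul_eq_mul]
  rw [e] at key
  exact nonneg_of_mul_nonneg_right key hcard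

end Pool.Agent.H707R.LF
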