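import Pool.Agent.H707R.LF.StubsD

set_option autoImplicit false

open scoped InnerProductSpace ComplexOrder BoundedContinuousFunction
open Filter

namespace Pool.Agent.H707R.LF

open Pool.Agent.Helper278 Pool.Agent.Helper436.SM

private theorem D6_rev (n : ℕ) (f : List (Fin 3) → ℝ) :
    ∑ w : Fin n → Fin 3, f (List.ofFn w).reverse = ∑ w : Fin n → Fin 3, f (List.ofFn w) := by
  refine Fintype.sum_equiv (Equiv.arrowCongr Fin.revPerm (Equiv.refl _)) _ _ ?_
  intro w
  congr 1
  apply List.ext_getElem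
  · simp
  · intro i h1 h2
    have hi : i < n := by simpa using h1
    simp only [List.getElem_reverse, List.getElem_ofFn, List.length_ofFn]
    show w _ = w (Fin.rev ⟨i, hi⟩)
    congr 1
    apply Fin.ext
    simp only [Fin.val_rev]
    omega

private theorem D6_app (m n : ℕ) (f : List (Fin 3) → ℝ) :
    ∑ v : Fin m → Fin 3, ∑ w : Fin n → Fin 3, f (List.ofFn v ++ List.ofFn w)
      = ∑ w : Fin (m + n) → Fin 3, f (List.ofFn w) := by
  rw [← Fintype.sum_prod_type' (fun v w => f (List.ofFn v ++ List.ofFn w))]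
  refine Fintype.sum_equiv (Fin.appendEquiv m n) _ _ ?_
  intro w
  congr 1
  exact (List.ofFn_fin_append w.1 w.2).symm

theorem Gk_logconvex {A : Type} [Ring A] [StarRing A] [Algebra ℂ A] [StarModule ℂ A]
    {τ : A →ₗ[ℂ] ℂ} {W : VV → A} (h : PH τ W) (k : ℕ) {e : A} {g : Fin 3 → A}
    (hI : Inv3 e g) (i j : ℕ) :
    (Gk τ W k e g (i + j)) ^ 2 ≤ Gk τ W k e g (2 * i) * Gk τ W k e g (2 * j) := by
  classical
  have hG : ∀ m n : ℕ, ∑ v : Fin m → Fin 3, ∑ w : Fin n → Fin 3,
      phiK τ W k (star (ev e g (List.ofFn v)) * ev e g (List.ofFn w)) = Gk τ W k e g (m + n) := by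
    intro m n
    unfold Gk
    rw [← D6_app m n (fun l => phiK τ W k (ev e g l)),
      ← D6_rev m (fun a => ∑ w : Fin n → Fin 3, phiK τ W k (ev e g (a ++ List.ofFn w)))]
    refine Finset.sum_congr rfl fun v _ => Finset.sum_congr rfl fun w _ => ?_
    rw [Stub.star_ev_mul hI]
  have key : ∀ s : ℝ, 0 ≤ Gk τ W k e g (2 * i) * (s * s) + (2 * Gk τ W k e g (i + j)) * s
      + Gk τ W k e g (2 * j) := by
    intro s
    have h1 := Stub.phiK_psd h k (ι := (Fin i → Fin 3) ⊕ (Fin j → Fin 3))
      (Sum.elim (fun _ => s) (fun _ => 1))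
      (Sum.elim (fun w => ev e g (List.ofFn w)) (fun w => ev e g (List.ofFn w)))
    simp only [Fintype.sum_sum_type, Sum.elim_inl, Sum.elim_inr, Finset.sum_add_distrib,
      ← Finset.mul_sum, hG] at h1
    rw [two_mul i, two_mul j]
    rw [add_comm j i] at h1
    linarith
  have h2 := discrim_le_zero key
  unfold discrim at h2
  nlinarith

end Pool.Agent.H707R.LF
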