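import Pool.Agent.H707R.LF.StubsD

/-! Task D7: Bessel. -/

set_option autoImplicit false

open scoped InnerProductSpace ComplexOrder BoundedContinuousFunction
open Filter

namespace Pool.Agent.H707R.LF

open Pool.Agent.Helper278 Pool.Agent.Helper436.SM

theorem d7_bessel {A : Type} [Ring A] [StarRing A] [Algebra ℂ A] [StarModule ℂ A]
    {τ : A →ₗ[ℂ] ℂ} (h : TrAlg τ) {ι : Type} [DecidableEq ι] (F : Finset ι) (v : ι → A) (x : A)
    (t : ℝ) (ht : t ≤ 1) (hx : τ (star x * x) = 1)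
    (hv : ∀ i ∈ F, ∀ j ∈ F, τ (star (v i) * v j) = if i = j then (t : ℂ) else 0) :
    ∑ i ∈ F, ‖τ (star x * v i)‖ ^ 2 ≤ 1 := by
  have hcc : ∀ i, τ (star (v i) * x) = star (τ (star x * v i)) := by
    intro i
    rw [← h.conj, star_mul, star_star]
  obtain ⟨c, hc⟩ : ∃ c : ι → ℂ, ∀ i, c i = τ (star (v i) * x) := ⟨_, fun _ => rfl⟩
  have hc' : ∀ i, τ (star x * v i) = star (c i) := by
    intro i
    rw [hc, hcc, star_star]
  have h0 := h.nonneg (x - ∑ i ∈ F, c i • v i)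
  have h1 : τ (star (x - ∑ i ∈ F, c i • v i) * (x - ∑ i ∈ F, c i • v i)) =
      1 - ∑ i ∈ F, c i * star (c i) - ∑ i ∈ F, star (c i) * c i +
        ∑ i ∈ F, ∑ j ∈ F, star (c i) * (c j * τ (star (v i) * v j)) := by
    obtain ⟨z, hz⟩ : ∃ z : A, z = ∑ i ∈ F, c i • v i := ⟨_, rfl⟩
    have hzs : star z = ∑ i ∈ F, star (c i) • star (v i) := by
      rw [hz, star_sum]
      exact Finset.sum_congr rfl fun i _ => star_smul _ _
    have g1 : τ (star x * z) = ∑ i ∈ F, c i * star (c i) := by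
      rw [hz, Finset.mul_sum, map_sum]
      refine Finset.sum_congr rfl fun i _ => ?_
      rw [mul_smul_comm, map_smul, hc', smul_eq_mul]
    have g2 : τ (star z * x) = ∑ i ∈ F, star (c i) * c i := by
      rw [hzs, Finset.sum_mul, map_sum]
      refine Finset.sum_congr rfl fun i _ => ?_
      rw [smul_mul_assoc, map_smul, ← hc, smul_eq_mul]
    have g3 : τ (star z * z) =
        ∑ i ∈ F, ∑ j ∈ F, star (c i) * (c j * τ (star (v i) * v j)) := by
      rw [hzs, Finset.sum_mul, map_sum]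
      refine Finset.sum_congr rfl fun i _ => ?_
      rw [hz, Finset.mul_sum, map_sum]
      refine Finset.sum_congr rfl fun j _ => ?_
      rw [smul_mul_assoc, mul_smul_comm, map_smul, map_smul, smul_eq_mul, smul_eq_mul]
    rw [← hz]
    have g4 : star (x - z) * (x - z) = star x * x - star x * z - star z * x + star z * z := by
      rw [star_sub]
      noncomm_ring
    rw [g4, map_add, map_sub, map_sub, hx, g1, g2, g3]
  have h2 : ∑ i ∈ F, ∑ j ∈ F, star (c i) * (c j * τ (star (v i) * v j)) =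
      ∑ i ∈ F, star (c i) * c i * t := by
    refine Finset.sum_congr rfl fun i hi => ?_
    rw [Finset.sum_eq_single i]
    · rw [hv i hi i hi, if_pos rfl]
      ring
    · intro j hj hji
      rw [hv i hi j hj, if_neg (Ne.symm hji)]
      ring
    · intro h3
      exact absurd hi h3
  have h3 : ∀ z : ℂ, star z * z = ((‖z‖ ^ 2 : ℝ) : ℂ) := by
    intro z
    have h4 := Complex.conj_mul' z
    rw [show (star z : ℂ) = (starRingEnd ℂ) z from rfl, h4]
    push_cast
    rfl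
  have h4 : ∀ z : ℂ, z * star z = ((‖z‖ ^ 2 : ℝ) : ℂ) := by
    intro z
    rw [mul_comm, h3]
  rw [h1, h2] at h0
  simp only [h3, h4] at h0
  obtain ⟨S, hS⟩ : ∃ S : ℝ, S = ∑ i ∈ F, ‖c i‖ ^ 2 := ⟨_, rfl⟩
  have h5 : (1 : ℂ) - ∑ i ∈ F, ((‖c i‖ ^ 2 : ℝ) : ℂ) - ∑ i ∈ F, ((‖c i‖ ^ 2 : ℝ) : ℂ) +
      ∑ i ∈ F, ((‖c i‖ ^ 2 : ℝ) : ℂ) * t = ((1 - (2 - t) * S : ℝ) : ℂ) := by
    rw [← Finset.sum_mul, hS]
    push_cast
    ring
  rw [h5] at h0
  have h6 : 0 ≤ 1 - (2 - t) * S := by exact_mod_cast h0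
  have hS0 : 0 ≤ S := by
    rw [hS]
    positivity
  have h7 : ∑ i ∈ F, ‖τ (star x * v i)‖ ^ 2 = S := by
    rw [hS]
    refine Finset.sum_congr rfl fun i _ => ?_
    rw [hc', norm_star]
  rw [h7]
  nlinarith [mul_nonneg (sub_nonneg.2 ht) hS0]

theorem d7_W {A : Type} [Ring A] [StarRing A] [Algebra ℂ A] [StarModule ℂ A]
    {τ : A →ₗ[ℂ] ℂ} {W : VV → A} (h : PauliSys τ W) (u : VV) : star (W u) * W u = 1 := by
  have h2 : u + u = 0 := by
    ext i : 1
    rw [Finsupp.add_apply, Finsupp.zero_apply]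
    exact Prod.ext (CharTwo.add_self_eq_zero _) (CharTwo.add_self_eq_zero _)
  have h3 : Helper436.SM.sg (bf u u) * Helper436.SM.sg (bf u u) = 1 := by
    unfold Helper436.SM.sg
    split_ifs <;> norm_num
  rw [h.star, smul_mul_assoc, h.mul, h2, h.zero, smul_smul, h3, one_smul]

theorem d7_fin (k : ℕ) : ∃ hf : (PkSet k).Finite, hf.toFinset.card ≤ 4 ^ k := by
  classical
  have hinj : Function.Injective
      (fun (v : PkSet k) (i : Fin k) => (v : VV) (i : ℕ)) := by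
    intro a b hab
    apply Subtype.ext
    apply Finsupp.ext
    intro i
    by_cases hi : i < k
    · exact congrFun hab ⟨i, hi⟩
    · rw [a.2 i (by omega), b.2 i (by omega)]
  have h1 : Finite (PkSet k) := Finite.of_injective _ hinj
  have h2 : (PkSet k).Finite := Set.toFinite _
  refine ⟨h2, ?_⟩
  have h3 : hinj = hinj := rfl
  have h4 : Nat.card (PkSet k) ≤ Nat.card (Fin k → ZMod 2 × ZMod 2) :=
    Nat.card_le_card_of_injective _ hinj
  have h5 : Nat.card (Fin k → ZMod 2 × ZMod 2) = 4 ^ k := by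
    rw [Nat.card_eq_fintype_card, Fintype.card_fun, Fintype.card_prod, ZMod.card, Fintype.card_fin]
  have h6 : Nat.card (PkSet k) = h2.toFinset.card := by
    rw [← Set.ncard_eq_toFinset_card _ h2]
    rfl
  omega

/-- D7 : Bessel -/
theorem sum_phiK_le {A : Type} [Ring A] [StarRing A] [Algebra ℂ A] [StarModule ℂ A]
    {τ : A →ₗ[ℂ] ℂ} {W : VV → A} (h : PH τ W) (k : ℕ) {e : A} {g : Fin 3 → A}
    (hI : Inv3 e g) (hf : ∀ l, Red l → l ≠ [] → τ (ev e g l) = 0)
    (F : Finset (List (Fin 3))) (hF : ∀ r ∈ F, Red r) :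
    ∑ r ∈ F, phiK τ W k (ev e g r) ≤ 4 ^ k := by
  classical
  obtain ⟨hfin, hcard⟩ := d7_fin k
  have h1 : ∀ r, phiK τ W k (ev e g r) =
      ∑ u ∈ hfin.toFinset, ‖τ (star (W u) * ev e g r)‖ ^ 2 := by
    intro r
    unfold phiK
    exact finsum_mem_eq_finite_toFinset_sum _ hfin
  simp only [h1]
  rw [Finset.sum_comm]
  -- the trace of `e`
  have he0 : 0 ≤ τ e := by
    have h2 := h.tr.nonneg e
    rwa [hI.es, hI.ee] at h2
  have he1 : 0 ≤ 1 - τ e := by
    have h2 := h.tr.nonneg (1 - e)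
    have h3 : star (1 - e) * (1 - e) = 1 - e := by
      rw [star_sub, star_one, hI.es, mul_sub, sub_mul, sub_mul, hI.ee]
      simp
    rw [h3, map_sub, h.tr.one] at h2
    exact h2
  obtain ⟨t, ht⟩ : ∃ t : ℝ, (t : ℂ) = τ e := ⟨(τ e).re, by
    apply Complex.ext
    · simp
    · rw [Complex.ofReal_im]
      exact (Complex.nonneg_iff.1 he0).2⟩
  have ht1 : t ≤ 1 := by
    rw [← ht] at he1
    have h2 : (0 : ℝ) ≤ 1 - t := by exact_mod_cast he1
    linarith
  have hv : ∀ i ∈ F, ∀ j ∈ F, τ (star (ev e g i) * ev e g j) = if i = j then (t : ℂ) else 0 := by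
    intro i hi j hj
    rw [Stub.star_ev_mul hI, ← Stub.ev_rd hI]
    by_cases hij : i = j
    · rw [if_pos hij, hij, Stub.rd_reverse_append j j rfl, ht]
      rfl
    · rw [if_neg hij]
      exact hf _ (Stub.red_rd _) (Stub.rd_reverse_append_ne i j (hF i hi) (hF j hj) hij)
  have h2 : ∀ u ∈ hfin.toFinset, ∑ r ∈ F, ‖τ (star (W u) * ev e g r)‖ ^ 2 ≤ 1 := by
    intro u _
    refine d7_bessel h.tr F (fun r => ev e g r) (W u) t ht1 ?_ hv
    rw [d7_W h.pauli, h.tr.one]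
  refine (Finset.sum_le_card_nsmul _ _ _ h2).trans ?_
  rw [nsmul_eq_mul, mul_one]
  exact_mod_cast hcard

end Pool.Agent.H707R.LF
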