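import Mathlib
import Pool.Agent.H707R.LF.StubsD

/-! D9: `∑ φ_k(g s) ≤ 2 √2 φ_k(e)` (helper896). -/

set_option autoImplicit false

open scoped InnerProductSpace ComplexOrder BoundedContinuousFunction
open Filter

namespace Pool.Agent.H707R.LF

open Pool.Agent.Helper278 Pool.Agent.Helper436.SM

private theorem D9_real (G : ℕ → ℝ) (c D : ℝ) (h0 : ∀ n, 0 ≤ G n) (hc : 0 < c)
    (hlc : ∀ i j, G (i + j) ^ 2 ≤ G (2 * i) * G (2 * j)) (hb : ∀ j, G j ≤ c ^ j * D) :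
    G 1 ≤ c * G 0 := by
  have key : ∀ m : ℕ, G 1 ^ (2 ^ m) ≤ G 0 ^ (2 ^ m - 1) * G (2 ^ m) := by
    intro m
    induction m with
    | zero => simp
    | succ m ih =>
      have h1 := hlc 0 (2 ^ m)
      rw [zero_add, mul_zero, ← pow_succ'] at h1
      have h2 : 1 ≤ 2 ^ m := Nat.one_le_two_pow
      have h3 : 2 ^ (m + 1) - 1 = (2 ^ m - 1) * 2 + 1 := by rw [pow_succ]; omega
      calc G 1 ^ (2 ^ (m + 1)) = (G 1 ^ (2 ^ m)) ^ 2 := by rw [← pow_mul, ← pow_succ]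
        _ ≤ (G 0 ^ (2 ^ m - 1) * G (2 ^ m)) ^ 2 := by
          apply pow_le_pow_left₀ (pow_nonneg (h0 1) _) ih
        _ = G 0 ^ ((2 ^ m - 1) * 2) * G (2 ^ m) ^ 2 := by rw [mul_pow, ← pow_mul]
        _ ≤ G 0 ^ ((2 ^ m - 1) * 2) * (G 0 * G (2 ^ (m + 1))) :=
          mul_le_mul_of_nonneg_left h1 (pow_nonneg (h0 0) _)
        _ = G 0 ^ (2 ^ (m + 1) - 1) * G (2 ^ (m + 1)) := by rw [h3, pow_succ]; ring
  rcases (h0 0).eq_or_lt with hz | hz
  · have h1 := hlc 0 1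
    rw [zero_add, mul_zero, ← hz, zero_mul] at h1
    have h2 : G 1 = 0 := by
      have := pow_eq_zero_iff (two_ne_zero) |>.1 (le_antisymm h1 (sq_nonneg _))
      exact this
    rw [h2, ← hz, mul_zero]
  · by_contra hcon
    push Not at hcon
    have hcG : 0 < c * G 0 := mul_pos hc hz
    have hq : 1 < G 1 / (c * G 0) := by rwa [one_lt_div hcG]
    obtain ⟨n, hn⟩ := ((tendsto_pow_atTop_atTop_of_one_lt hq).eventually_gt_atTop (D / G 0)).exists
    have h1 : (G 1 / (c * G 0)) ^ n ≤ (G 1 / (c * G 0)) ^ (2 ^ n) :=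
      pow_le_pow_right₀ hq.le (Nat.lt_two_pow_self).le
    have h2 : (G 1 / (c * G 0)) ^ (2 ^ n) ≤ D / G 0 := by
      rw [div_pow, mul_pow, div_le_div_iff₀ (by positivity) hz]
      have h3 : 2 ^ n - 1 + 1 = 2 ^ n := Nat.sub_add_cancel Nat.one_le_two_pow
      calc G 1 ^ (2 ^ n) * G 0 ≤ (G 0 ^ (2 ^ n - 1) * G (2 ^ n)) * G 0 :=
            mul_le_mul_of_nonneg_right (key n) hz.le
        _ ≤ (G 0 ^ (2 ^ n - 1) * (c ^ (2 ^ n) * D)) * G 0 := by
          apply mul_le_mul_of_nonneg_right _ hz.le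
          exact mul_le_mul_of_nonneg_left (hb _) (pow_nonneg hz.le _)
        _ = D * (c ^ 2 ^ n * G 0 ^ (2 ^ n - 1 + 1)) := by rw [pow_succ]; ring
        _ = D * (c ^ 2 ^ n * G 0 ^ 2 ^ n) := by rw [h3]
    linarith

/-- D9 -/
theorem sum_phiK_gen_le {A : Type} [Ring A] [StarRing A] [Algebra ℂ A] [StarModule ℂ A]
    {τ : A →ₗ[ℂ] ℂ} {W : VV → A} (h : PH τ W) (k : ℕ) {e : A} {g : Fin 3 → A}
    (hI : Inv3 e g) (hf : ∀ l, Red l → l ≠ [] → τ (ev e g l) = 0) :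
    ∑ s, phiK τ W k (g s) ≤ 2 * Real.sqrt 2 * phiK τ W k e := by
  have h0 : Gk τ W k e g 0 = phiK τ W k e := by
    unfold Gk
    simp [ev]
  have h1 : Gk τ W k e g 1 = ∑ s, phiK τ W k (g s) := by
    unfold Gk
    rw [← (Equiv.funUnique (Fin 1) (Fin 3)).symm.sum_comp]
    refine Finset.sum_congr rfl fun s _ => ?_
    simp [ev, hI.ge]
  rw [← h0, ← h1]
  refine D9_real (Gk τ W k e g) (2 * Real.sqrt 2) (4 ^ k) ?_ (by positivity) ?_ ?_
  · intro n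
    unfold Gk phiK
    refine Finset.sum_nonneg fun w _ => ?_
    exact finsum_nonneg fun u => finsum_nonneg fun _ => by positivity
  · exact Stub.Gk_logconvex h k hI
  · exact Stub.Gk_le h k hI hf

end Pool.Agent.H707R.LF
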