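import Pool.Agent.H707R.LF.StubsB

set_option autoImplicit false

open scoped ComplexOrder

namespace Pool.Agent.H707R.LF

open Pool.Agent.Helper278

private theorem E0_sq {Y : Type} [Fintype Y] (x : Matrix Y Y ℂ) :
    (star x * x).trace = ((∑ j, ∑ i, ‖x i j‖ ^ 2 : ℝ) : ℂ) := by
  rw [Matrix.star_eq_conjTranspose, Matrix.trace]
  push_cast
  refine Finset.sum_congr rfl fun j _ => ?_
  rw [Matrix.diag_apply, Matrix.mul_apply]
  refine Finset.sum_congr rfl fun i _ => ?_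
  rw [Matrix.conjTranspose_apply]
  exact Complex.conj_mul' (x i j)

theorem trAlg_ntr (Y : Type) [Fintype Y] [DecidableEq Y] [Nonempty Y] : TrAlg (ntr Y) := by
  have hc0 : (Fintype.card Y : ℝ) ≠ 0 := by exact_mod_cast Fintype.card_ne_zero
  have hc : (Fintype.card Y : ℂ) ≠ 0 := by exact_mod_cast Fintype.card_ne_zero
  have app : ∀ M : Matrix Y Y ℂ, ntr Y M = (Fintype.card Y : ℂ)⁻¹ * M.trace := fun M => rfl
  have hnn : ∀ x : Matrix Y Y ℂ, ntr Y (star x * x) =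
      (((Fintype.card Y : ℝ)⁻¹ * ∑ j, ∑ i, ‖x i j‖ ^ 2 : ℝ) : ℂ) := by
    intro x
    rw [app, E0_sq]
    push_cast
    rfl
  refine ⟨?_, ?_, ?_, ?_, ?_⟩
  · rw [app, Matrix.trace_one, inv_mul_cancel₀ hc]
  · intro x y
    rw [app, app, Matrix.trace_mul_comm]
  · intro x
    rw [hnn]
    have : (0 : ℝ) ≤ (Fintype.card Y : ℝ)⁻¹ * ∑ j, ∑ i, ‖x i j‖ ^ 2 := by positivity
    exact_mod_cast this
  · intro x
    rw [app, app, Matrix.star_eq_conjTranspose, Matrix.trace_conjTranspose, star_mul', star_inv₀,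
      star_natCast]
  · intro x hx
    rw [hnn] at hx
    have h1 : (Fintype.card Y : ℝ)⁻¹ * ∑ j, ∑ i, ‖x i j‖ ^ 2 = 0 := by exact_mod_cast hx
    have h2 : ∑ j, ∑ i, ‖x i j‖ ^ 2 = 0 :=
      (mul_eq_zero.1 h1).resolve_left (inv_ne_zero hc0)
    ext i j
    have h3 := (Finset.sum_eq_zero_iff_of_nonneg (fun j _ =>
      Finset.sum_nonneg fun i _ => by positivity)).1 h2 j (Finset.mem_univ j)
    have h4 := (Finset.sum_eq_zero_iff_of_nonneg (fun i _ => by positivity)).1 h3 i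
      (Finset.mem_univ i)
    have h5 : ‖x i j‖ = 0 := by
      exact pow_eq_zero_iff (two_ne_zero) |>.1 h4
    rw [norm_eq_zero.1 h5]
    rfl

end Pool.Agent.H707R.LF
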