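import Pool.Agent.H707R.LF.StubsB

set_option autoImplicit false

namespace Pool.Agent.H707R.LF

/-- the letter `s` acts on the first `l` bits by the automaton -/
def E1_act : ℕ → (m : ℕ) → Fin 3 → (Fin m → Bool) → (Fin m → Bool)
  | 0, _, _, w => w
  | _ + 1, 0, _, w => w
  | l + 1, m + 1, s, w =>
    Fin.cons (lout s (w 0)) (E1_act l m (lsec s (w 0)) (Fin.tail w))

theorem E1_lsec (s : Fin 3) (y : Bool) : lsec s (lout s y) = lsec s y := by
  revert s y
  decide

theorem E1_lout (s : Fin 3) (y : Bool) : lout s (lout s y) = y := by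
  revert s y
  decide

theorem E1_inv : ∀ (l m : ℕ) (s : Fin 3) (w : Fin m → Bool),
    E1_act l m s (E1_act l m s w) = w := by
  intro l
  induction l with
  | zero => intro m s w; simp [E1_act]
  | succ l ih =>
    intro m s w
    cases m with
    | zero => simp [E1_act]
    | succ m =>
      simp only [E1_act, Fin.cons_zero, Fin.tail_cons, E1_lsec, E1_lout, ih]
      exact Fin.cons_self_tail w

theorem E1_snoc : ∀ (l m : ℕ) (s : Fin 3) (v : Fin m → Bool) (x : Bool), l ≤ m →
    E1_act l (m + 1) s (Fin.snoc (α := fun _ => Bool) v x) =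
      Fin.snoc (α := fun _ => Bool) (E1_act l m s v) x := by
  intro l
  induction l with
  | zero => intro m s v x _; simp [E1_act]
  | succ l ih =>
    intro m s v x hm
    obtain ⟨k, rfl⟩ : ∃ k, m = k + 1 := ⟨m - 1, by omega⟩
    have h1 : Fin.snoc (α := fun _ => Bool) v x =
        Fin.cons (v 0) (Fin.snoc (α := fun _ => Bool) (Fin.tail v) x) := by
      rw [Fin.cons_snoc_eq_snoc_cons (β := Bool)]
      congr 1
      exact (Fin.cons_self_tail v).symm
    rw [h1]
    simp only [E1_act, Fin.cons_zero, Fin.tail_cons]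
    rw [ih k _ _ _ (by omega), Fin.cons_snoc_eq_snoc_cons (β := Bool)]

/-- the underlying set -/
abbrev E1_Om (n : ℕ) : Type := Fin (n + 1) × (Fin (n + 1) → Bool)

/-- the letters -/
def E1_g (n : ℕ) (s : Fin 3) : Equiv.Perm (E1_Om n) where
  toFun ω := (ω.1, E1_act ω.1.val (n + 1) s ω.2)
  invFun ω := (ω.1, E1_act ω.1.val (n + 1) s ω.2)
  left_inv ω := by simp [E1_inv]
  right_inv ω := by simp [E1_inv]

/-- the shift -/
def E1_T (n : ℕ) : Equiv.Perm (Bool × E1_Om n) where
  toFun y := (y.2.2 0, (y.2.1 - 1, Fin.snoc (α := fun _ => Bool) (Fin.tail y.2.2) y.1))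
  invFun y := (y.2.2 (Fin.last n), (y.2.1 + 1, Fin.cons (α := fun _ => Bool) y.1 (Fin.init y.2.2)))
  left_inv y := by
    obtain ⟨x, l, w⟩ := y
    refine Prod.ext ?_ (Prod.ext ?_ ?_)
    · simp
    · simp
    · simp only [Fin.init_snoc]
      exact Fin.cons_self_tail w
  right_inv y := by
    obtain ⟨x, l, w⟩ := y
    refine Prod.ext ?_ (Prod.ext ?_ ?_)
    · simp
    · simp
    · simp only [Fin.tail_cons]
      exact Fin.snoc_init_self w

theorem E1_comb (n : ℕ) : Comb (E1_g n) (E1_T n) (fun ω => decide (ω.1 = 0))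
    (fun ω => decide (ω.1 = Fin.last n)) := by
  refine ⟨?_, ?_, ?_, ?_, ?_⟩
  · intro s ω
    exact (E1_g n s).left_inv ω
  · intro s ω
    rfl
  · intro s ω
    rfl
  · rintro ⟨x, l, w⟩
    change decide (l - 1 = Fin.last n) = decide (l = 0)
    have h : l - 1 = Fin.last n ↔ l = 0 := by
      rw [sub_eq_iff_eq_add, Fin.last_add_one]
    simp only [h]
  · rintro s x ⟨l, w⟩ hb
    have hl : l ≠ 0 := by simpa using hb
    have hl1 : (l - 1).val + 1 = l.val := by
      have h1 : 0 < l.val := Nat.pos_of_ne_zero (by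
        intro h
        exact hl (Fin.ext h))
      rw [Fin.coe_sub_one, if_neg hl]
      omega
    have hle : (l - 1).val ≤ n := by
      have := l.isLt
      omega
    change (E1_act l.val (n + 1) s w 0,
      (l - 1, Fin.snoc (α := fun _ => Bool) (Fin.tail (E1_act l.val (n + 1) s w)) x)) =
      (lout s (w 0), (l - 1, E1_act (l - 1).val (n + 1) (lsec s (w 0))
        (Fin.snoc (α := fun _ => Bool) (Fin.tail w) x)))
    rw [← hl1, E1_snoc _ _ _ _ _ hle]
    simp only [E1_act, Fin.cons_zero, Fin.tail_cons]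

/-- E1 -/
theorem exists_comb (t : ℕ) : ∃ (Ω : Type) (_ : Fintype Ω) (_ : DecidableEq Ω) (k : ℕ)
    (g : Fin 3 → Equiv.Perm Ω) (Θ : Equiv.Perm (Bool × Ω)) (b b' : Ω → Bool),
    Comb g Θ b b' ∧ Fintype.card Ω = 2 ^ k ∧
      2 ^ t * (Finset.univ.filter (fun ω => b ω = true)).card = Fintype.card Ω ∧
      2 ^ t * (Finset.univ.filter (fun ω => b' ω = true)).card = Fintype.card Ω := by
  obtain ⟨n, hn⟩ : ∃ n, n + 1 = 2 ^ t := ⟨2 ^ t - 1, Nat.sub_add_cancel Nat.one_le_two_pow⟩
  have hcard : Fintype.card (E1_Om n) = 2 ^ t * 2 ^ (n + 1) := by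
    rw [Fintype.card_prod, Fintype.card_fin, Fintype.card_fun, Fintype.card_fin,
      Fintype.card_bool, hn]
  have hf : ∀ a : Fin (n + 1), (Finset.univ.filter
      (fun ω : E1_Om n => decide (ω.1 = a) = true)).card = 2 ^ (n + 1) := by
    intro a
    have h1 : (Finset.univ.filter (fun ω : E1_Om n => decide (ω.1 = a) = true)) =
        ({a} : Finset (Fin (n + 1))) ×ˢ (Finset.univ : Finset (Fin (n + 1) → Bool)) := by
      ext ω
      simp only [Finset.mem_filter, Finset.mem_univ, true_and, decide_eq_true_eq,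
        Finset.mem_product, Finset.mem_singleton, and_true]
    rw [h1, Finset.card_product, Finset.card_singleton, Finset.card_univ, Fintype.card_fun,
      Fintype.card_fin, Fintype.card_bool, one_mul]
  refine ⟨E1_Om n, inferInstance, inferInstance, t + (n + 1), E1_g n, E1_T n, _, _,
    E1_comb n, ?_, ?_, ?_⟩
  · rw [hcard, ← pow_add]
  · rw [hcard, hf 0]
  · rw [hcard, hf (Fin.last n)]

end Pool.Agent.H707R.LF
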