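import Pool.Agent.H707R.LF.StubsB

set_option autoImplicit false

open scoped Kronecker

namespace Pool.Agent.H707R.LF

open Pool.Agent.Helper278 Pool.Agent.Helper436.SM

theorem E10_flp_flp {κ : Type} [DecidableEq κ] (k : κ) (v : κ → Bool) : flp k (flp k v) = v := by
  unfold flp
  funext x
  by_cases hx : x = k
  · subst hx; simp
  · simp [hx]

theorem E10_card {κ : Type} [Fintype κ] [DecidableEq κ] [Nonempty κ] :
    Fintype.card {v : κ → Bool // par v = false} = 2 ^ (Fintype.card κ - 1) := by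
  classical
  obtain ⟨k⟩ := (inferInstance : Nonempty κ)
  have e1 : Fintype.card {v : κ → Bool // par v = false} =
      Fintype.card {v : κ → Bool // ¬ par v = false} := by
    refine Fintype.card_congr
      { toFun := fun v => ⟨flp k v.1, by rw [Stub.par_flp, v.2]; simp⟩
        invFun := fun v => ⟨flp k v.1, by
          rw [Stub.par_flp]
          have := v.2
          cases h : par v.1
          · exact absurd h this
          · rfl⟩
        left_inv := fun v => Subtype.ext (E10_flp_flp k v.1)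
        right_inv := fun v => Subtype.ext (E10_flp_flp k v.1) }
  have e2 := Fintype.card_subtype_compl (fun v : κ → Bool => par v = false)
  have e3 : Fintype.card {v : κ → Bool // par v = false} ≤ Fintype.card (κ → Bool) :=
    Fintype.card_subtype_le _
  have e4 : Fintype.card (κ → Bool) = 2 ^ (Fintype.card κ) := by
    rw [Fintype.card_fun, Fintype.card_bool]
  have e5 : 2 ^ (Fintype.card κ) = 2 * 2 ^ (Fintype.card κ - 1) := by
    have : 0 < Fintype.card κ := Fintype.card_pos_iff.2 ⟨k⟩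
    rw [← pow_succ']
    congr 1
    omega
  have e6 : Fintype.card {v : κ → Bool // ¬ par v = false} =
      Fintype.card (κ → Bool) - Fintype.card {v : κ → Bool // par v = false} := by
    convert e2
  omega

theorem E10_n2_le {A : Type} [Ring A] [StarRing A] [Algebra ℂ A] [StarModule ℂ A]
    {τ : A →ₗ[ℂ] ℂ} (h : TrAlg τ) (p : A) (hp : star p = p) (hpp : p * p = p) : n2 τ p ≤ 1 := by
  have h1 : 0 ≤ (τ (star (1 - p) * (1 - p))).re := h.re_nonneg _
  have e1 : star (1 - p) * (1 - p) = 1 - p := by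
    rw [star_sub, star_one, hp]
    calc (1 - p) * (1 - p) = 1 - p - p + p * p := by noncomm_ring
      _ = 1 - p := by rw [hpp]; abel
  rw [e1, map_sub, h.one, Complex.sub_re, Complex.one_re] at h1
  have h2 : n2 τ p ^ 2 = (τ p).re := by rw [h.n2_sq, hp, hpp]
  have h3 := n2_nonneg τ p
  nlinarith

theorem exists_approx {A : Type} [Ring A] [StarRing A] [Algebra ℂ A] [StarModule ℂ A]
    {τ : A →ₗ[ℂ] ℂ} {W : VV → A} (hW : PauliSys τ W) (κ : Type) [Fintype κ] [DecidableEq κ]
    [Nonempty κ] (ℓ : (κ → Bool) → Ctx) (ε : ℝ) (hε : 0 < ε) :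
    ∃ r : (κ → Bool) → Out → A, HP r ∧
      (∀ v w o o', par v ≠ par w → (∀ k, w ≠ flp k v) → r v o * r w o' = 0) ∧
      (∀ v k o o', Bad (ℓ v) o (ℓ (flp k v)) o' → ‖τ (r v o * r (flp k v) o')‖ ≤ ε) ∧
      ∀ k, zO (vG r) k = ((Fintype.card κ : ℂ)⁻¹) • (1 : A) := by
  obtain ⟨t, ht⟩ := exists_pow_lt_of_lt_one hε (show (1 / 2 : ℝ) < 1 by norm_num)
  obtain ⟨Ω, iF, iD, k, g0, Θ, b, b', hC, hcard, hb, hb'⟩ := Stub.exists_comb t
  have hΩ : Nonempty Ω := by
    rw [← Fintype.card_pos_iff, hcard]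
    positivity
  obtain ⟨g, H, H', X, Z, a, B, P, Q, S, β, hM, hβ⟩ := Stub.comb_mod hC t hb hb'
  have hTr := Stub.trAlg_ntr (Ω × Bool × Bool × Bool)
  have hpvm := fun C : Ctx =>
    Stub.cM_pvm (c := cOp g H' X Z a B P Q S C) (Stub.cOp_ok hM C).1 (Stub.cOp_ok hM C).2.1
      (Stub.cOp_ok hM C).2.2.1 (Stub.cOp_ok hM C).2.2.2.1 (Stub.cOp_ok hM C).2.2.2.2.1
      (Stub.cOp_ok hM C).2.2.2.2.2
  obtain ⟨G, hG, hzG⟩ := Stub.exists_cube κ
  obtain ⟨hHP, hnon, hz⟩ := Stub.kron_HP (n := fun C o => cM (cOp g H' X Z a B P Q S C) o)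
    (fun C => (hpvm C).1) (fun C o => (hpvm C).2.1 o) hG ℓ
  have hcardY : Fintype.card ((Ω × Bool × Bool × Bool) × {v : κ → Bool // par v = false}) =
      2 ^ ((k + 3) + (Fintype.card κ - 1)) := by
    rw [Fintype.card_prod, E10_card, Fintype.card_prod, Fintype.card_prod, Fintype.card_prod,
      Fintype.card_bool, hcard, pow_add, pow_add]
    norm_num
  obtain ⟨Φ, hΦ⟩ := Stub.exists_hom hW
    ((Ω × Bool × Bool × Bool) × {v : κ → Bool // par v = false}) _ hcardY
  have hvG : ∀ v, vG (fun v o => Φ (cM (cOp g H' X Z a B P Q S (ℓ v)) o ⊗ₖ G v)) v =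
      Φ (vG (fun v o => cM (cOp g H' X Z a B P Q S (ℓ v)) o ⊗ₖ G v) v) := by
    intro v
    unfold vG
    rw [map_sum]
  refine ⟨fun v o => Φ (cM (cOp g H' X Z a B P Q S (ℓ v)) o ⊗ₖ G v), ⟨?_, ?_, ?_, ?_⟩, ?_, ?_, ?_⟩
  · intro v o
    rw [← map_star]
    exact congrArg Φ (hHP.sa v o)
  · intro v o
    rw [← map_mul]
    exact congrArg Φ (hHP.idem v o)
  · intro v w o o' h1 h2
    rw [← map_mul]
    exact (congrArg Φ (hHP.orth v w o o' h1 h2)).trans (map_zero Φ)
  · intro c
    have h1 := congrArg Φ (hHP.sum c)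
    rw [map_one, map_sum] at h1
    rw [← h1]
    exact Finset.sum_congr rfl fun v _ => (map_sum Φ _ _).symm
  · intro v w o o' h1 h2
    rw [← map_mul]
    exact (congrArg Φ (hnon v w o o' h1 h2)).trans (map_zero Φ)
  · intro v k' o o' hbad
    rw [← map_mul, hΦ, ← Matrix.mul_kronecker_mul, Stub.ntr_kron, norm_mul]
    have h1 := Stub.bad_small hM hTr (ℓ v) (ℓ (flp k' v)) o o' hbad
    rw [hβ] at h1
    have hE : Nonempty {v : κ → Bool // par v = false} := by
      rw [← Fintype.card_pos_iff, E10_card]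
      positivity
    have hTr2 := Stub.trAlg_ntr {v : κ → Bool // par v = false}
    have h2 : ‖ntr {v : κ → Bool // par v = false} (G v * G (flp k' v))‖ ≤ 1 := by
      have h3 := hTr2.cauchy' (G v) (G (flp k' v))
      have h4 := E10_n2_le hTr2 (G v) (hG.sa v) (hG.idem v)
      have h5 := E10_n2_le hTr2 (G (flp k' v)) (hG.sa _) (hG.idem _)
      have h6 := n2_nonneg (ntr {v : κ → Bool // par v = false}) (G v)
      have h7 := n2_nonneg (ntr {v : κ → Bool // par v = false}) (G (flp k' v))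
      nlinarith
    have h8 : ‖(1 / 2 ^ t : ℂ)‖ = (1 / 2 : ℝ) ^ t := by
      rw [norm_div, norm_one, norm_pow, Complex.norm_ofNat, one_div, one_div, inv_pow]
    rw [h8] at h1
    have h9 := norm_nonneg (ntr {v : κ → Bool // par v = false} (G v * G (flp k' v)))
    have h10 := norm_nonneg (ntr (Ω × Bool × Bool × Bool) (cM (cOp g H' X Z a B P Q S (ℓ v)) o *
      cM (cOp g H' X Z a B P Q S (ℓ (flp k' v))) o'))
    calc _ ≤ (1 / 2 : ℝ) ^ t * 1 := mul_le_mul h1 h2 h9 (by positivity)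
      _ ≤ ε := by rw [mul_one]; exact ht.le
  · intro k'
    have e1 : zO (vG (fun v o => Φ (cM (cOp g H' X Z a B P Q S (ℓ v)) o ⊗ₖ G v))) k' =
        Φ (zO (vG (fun v o => cM (cOp g H' X Z a B P Q S (ℓ v)) o ⊗ₖ G v)) k') := by
      unfold zO
      rw [map_sum]
      refine Finset.sum_congr rfl fun v _ => ?_
      rw [hvG, hvG, map_mul, map_mul]
    rw [e1]
    have e2 := hz k'
    rw [hzG, Matrix.kronecker_smul, Matrix.one_kronecker_one] at e2
    rw [show zO (vG (fun v o => cM (cOp g H' X Z a B P Q S (ℓ v)) o ⊗ₖ G v)) k' = _ from e2,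
      map_smul, map_one]

end Pool.Agent.H707R.LF
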