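import Pool.Agent.H707R.LF.StubsB

set_option autoImplicit false

open scoped Kronecker

namespace Pool.Agent.H707R.LF

open Pool.Agent.Helper278 Pool.Agent.Helper436.SM

section

variable {A : Type} [Ring A] [StarRing A] [Algebra ℂ A] [StarModule ℂ A]

private lemma E3_sgn (b : Bool) : sgn b * sgn b = 1 := by
  cases b <;> simp [sgn]

private lemma E3_sgn_star (b : Bool) : star (sgn b) = sgn b := by
  cases b <;> simp [sgn]

private lemma E3_eig {x : A} (h : Inv1 x) (b : Bool) : x * hf x b = sgn b • hf x b := by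
  calc x * hf x b = (1 / 2 : ℂ) • (x + sgn b • (1 : A)) := by
        unfold hf
        rw [mul_smul_comm, mul_add, mul_one, mul_smul_comm, h.2]
    _ = sgn b • ((1 / 2 : ℂ) • (1 + sgn b • x)) := by
        rw [smul_comm (sgn b) (1 / 2 : ℂ)]
        congr 1
        rw [smul_add, smul_smul, E3_sgn, one_smul, add_comm]

private lemma E3_idem {x : A} (h : Inv1 x) (b : Bool) : hf x b * hf x b = hf x b := by
  have h1 : hf x b * hf x b = (1 / 2 : ℂ) • (hf x b + sgn b • (x * hf x b)) := by
    conv_lhs => rw [show hf x b * hf x b = ((1 / 2 : ℂ) • (1 + sgn b • x)) * hf x b from rfl]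
    rw [smul_mul_assoc, add_mul, one_mul, smul_mul_assoc]
  rw [h1, E3_eig h, smul_smul, E3_sgn, one_smul, ← two_smul ℂ, smul_smul]
  norm_num

private lemma E3_orth {x : A} (h : Inv1 x) (b b' : Bool) (hb : b ≠ b') :
    hf x b * hf x b' = 0 := by
  have h1 : hf x b * hf x b' = (1 / 2 : ℂ) • (hf x b' + sgn b • (x * hf x b')) := by
    conv_lhs => rw [show hf x b * hf x b' = ((1 / 2 : ℂ) • (1 + sgn b • x)) * hf x b' from rfl]
    rw [smul_mul_assoc, add_mul, one_mul, smul_mul_assoc]
  have h2 : sgn b * sgn b' = -1 := by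
    cases b <;> cases b' <;> simp [sgn] at hb ⊢
  rw [h1, E3_eig h, smul_smul, h2, neg_smul, one_smul, add_neg_cancel, smul_zero]

omit [StarRing A] [StarModule ℂ A] in
private lemma E3_sum (x : A) : hf x true + hf x false = 1 := by
  unfold hf
  simp only [sgn, if_true, neg_smul, one_smul, Bool.false_eq_true, if_false]
  rw [← smul_add, show (1 + -x) + (1 + x) = (2 : ℂ) • (1 : A) by rw [two_smul]; abel, smul_smul]
  norm_num

private lemma E3_star {x : A} (h : Inv1 x) (b : Bool) : star (hf x b) = hf x b := by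
  unfold hf
  rw [star_smul, star_add, star_one, star_smul, h.1, E3_sgn_star]
  congr 1
  simp

omit [StarRing A] [StarModule ℂ A] in
private lemma E3_comm1 {x y : A} (h : x * y = y * x) (b : Bool) : x * hf y b = hf y b * x := by
  unfold hf
  rw [mul_smul_comm, smul_mul_assoc, mul_add, add_mul, mul_one, one_mul, mul_smul_comm,
    smul_mul_assoc, h]

omit [StarRing A] [StarModule ℂ A] in
private lemma E3_comm {x y : A} (h : x * y = y * x) (b b' : Bool) :
    hf x b * hf y b' = hf y b' * hf x b := by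
  have h1 := E3_comm1 h b'
  exact (E3_comm1 h1.symm b).symm

/-- E3 -/
theorem cM_pvm {c : A × A × A} (h1 : Inv1 c.1) (h2 : Inv1 c.2.1) (h3 : Inv1 c.2.2)
    (h12 : c.1 * c.2.1 = c.2.1 * c.1) (h13 : c.1 * c.2.2 = c.2.2 * c.1)
    (h23 : c.2.1 * c.2.2 = c.2.2 * c.2.1) :
    Pvm 1 (cM c) ∧ (∀ o, star (cM c o) = cM c o) ∧
      (∀ o, c.1 * cM c o = sgn o.1 • cM c o) ∧ (∀ o, c.2.1 * cM c o = sgn o.2.1 • cM c o) ∧
      ∀ o, c.2.2 * cM c o = sgn o.2.2 • cM c o := by
  obtain ⟨x, y, z⟩ := c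
  dsimp only at h1 h2 h3 h12 h13 h23
  have hprod : ∀ o o' : Out, cM (x, y, z) o * cM (x, y, z) o' =
      (hf x o.1 * hf x o'.1) * ((hf y o.2.1 * hf y o'.2.1) * (hf z o.2.2 * hf z o'.2.2)) := by
    rintro ⟨a, b, c⟩ ⟨a', b', c'⟩
    unfold cM
    dsimp only
    have e1 := E3_comm h12 a' b
    have e2 := E3_comm h13 a' c
    have e3 := E3_comm h23 b' c
    calc hf x a * (hf y b * hf z c) * (hf x a' * (hf y b' * hf z c'))
        = hf x a * (hf y b * (hf z c * hf x a') * (hf y b' * hf z c')) := by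
          simp only [mul_assoc]
      _ = hf x a * ((hf y b * hf x a') * (hf z c * hf y b') * hf z c') := by
          rw [← e2]; simp only [mul_assoc]
      _ = hf x a * ((hf x a' * hf y b) * (hf y b' * hf z c) * hf z c') := by
          rw [← e1, ← e3]
      _ = _ := by simp only [mul_assoc]
  refine ⟨⟨?_, ?_, ?_⟩, ?_, ?_, ?_, ?_⟩
  · intro o
    rw [hprod, E3_idem h1, E3_idem h2, E3_idem h3]
    rfl
  · rintro ⟨a, b, c⟩ ⟨a', b', c'⟩ hne
    rw [hprod]
    dsimp only
    by_cases ha : a = a'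
    · by_cases hb : b = b'
      · have hc : c ≠ c' := by
          rintro rfl
          exact hne (by rw [ha, hb])
        rw [E3_orth h3 c c' hc, mul_zero, mul_zero]
      · rw [E3_orth h2 b b' hb, zero_mul, mul_zero]
    · rw [E3_orth h1 a a' ha, zero_mul]
  · have hs : ∀ a b : Bool, ∑ c : Bool, cM (x, y, z) (a, b, c) = hf x a * hf y b := by
      intro a b
      rw [Fintype.sum_bool]
      unfold cM
      dsimp only
      rw [← mul_add, ← mul_add, E3_sum, mul_one]
    rw [Fintype.sum_prod_type]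
    have hs2 : ∀ a : Bool, ∑ q : Bool × Bool, cM (x, y, z) (a, q) = hf x a := by
      intro a
      rw [Fintype.sum_prod_type, Fintype.sum_bool, hs, hs, ← mul_add, E3_sum, mul_one]
    rw [Fintype.sum_bool, hs2, hs2, E3_sum]
  · rintro ⟨a, b, c⟩
    unfold cM
    dsimp only
    rw [star_mul, star_mul, E3_star h1, E3_star h2, E3_star h3, ← E3_comm h23 b c, mul_assoc,
      ← E3_comm h13 a c, ← mul_assoc, ← E3_comm h12 a b, mul_assoc]
  · rintro ⟨a, b, c⟩
    unfold cM
    dsimp only
    rw [← mul_assoc, E3_eig h1, smul_mul_assoc]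
  · rintro ⟨a, b, c⟩
    unfold cM
    dsimp only
    rw [← mul_assoc, E3_comm1 h12.symm a, mul_assoc, ← mul_assoc y, E3_eig h2, smul_mul_assoc,
      mul_smul_comm]
  · rintro ⟨a, b, c⟩
    unfold cM
    dsimp only
    rw [← mul_assoc, E3_comm1 h13.symm a, mul_assoc, ← mul_assoc z, E3_comm1 h23.symm b,
      mul_assoc, E3_eig h3, mul_smul_comm, mul_smul_comm]

end

end Pool.Agent.H707R.LF
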