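import Pool.Agent.H707R.LF.StubsB

/-!
Project LF (helper707), task E5.
-/

set_option autoImplicit false

open scoped Kronecker

namespace Pool.Agent.H707R.LF

open Pool.Agent.Helper278 Pool.Agent.Helper436.SM

section E5

variable {A : Type} [Ring A] [Algebra ℂ A]

private theorem E5_sgn (b c : Bool) : sgn (xor b c) = sgn b * sgn c := by
  cases b <;> cases c <;> simp [sgn]

private theorem E5_not (b : Bool) : sgn (!b) = -sgn b := by
  cases b <;> simp [sgn]

private theorem E5_mul {x y E : A} {b c : Bool} (hx : x * E = sgn b • E)
    (hy : y * E = sgn c • E) : x * y * E = sgn (xor b c) • E := by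
  rw [mul_assoc, hy, mul_smul_comm, hx, smul_smul, E5_sgn, mul_comm]

private theorem E5_mul' {x y E : A} {b c : Bool} (hx : x * E = sgn b • E)
    (hy : y * E = sgn c • E) : x * y * E = sgn (xor c b) • E := by
  rw [Bool.xor_comm]
  exact E5_mul hx hy

/-- cancellation -/
private theorem E5_can {x y w E : A} {c : ℂ} (hc : c ≠ 0) (hw : w * E = c • E)
    (h : x * w = y * w) : x * E = y * E := by
  have h1 := congrArg (fun t => t * E) h
  simp only [mul_assoc, hw, mul_smul_comm] at h1
  have h2 := congrArg (fun t => c⁻¹ • t) h1
  simpa [smul_smul, hc] using h2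

private theorem E5_pl {x E : A} (h : x * E = sgn false • E) : (1 + x) * E = (2 : ℂ) • E := by
  rw [add_mul, h, one_mul, two_smul]
  simp [sgn]

private theorem E5_mi {x E : A} (h : x * E = sgn true • E) : (1 - x) * E = (2 : ℂ) • E := by
  rw [sub_mul, h, one_mul, two_smul]
  simp [sgn]

private theorem E5_pr {x y E : A} (hx : x * E = (2 : ℂ) • E) (hy : y * E = (2 : ℂ) • E) :
    x * y * E = (4 : ℂ) • E := by
  rw [mul_assoc, hy, mul_smul_comm, hx, smul_smul]
  norm_num

end E5

section ctx

variable {A : Type} [Ring A] [StarRing A] [Algebra ℂ A] [StarModule ℂ A]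
variable {g H H' : Fin 3 → A} {X Z a B P Q S β : A}

/-- E5 : the value of an observable, except for the observables `H s` in the contexts `T s` -/
theorem obs_eig (h : Mod g H H' X Z a B P Q S β) (C : Ctx) (o : Out) (x : Obs) (v : Bool)
    (hv : obs C o x = some v) (hx : ∀ s, C = .T s → x = .S) :
    oOp g H X Z a B P Q S x * cM (cOp g H' X Z a B P Q S C) o =
      sgn v • cM (cOp g H' X Z a B P Q S C) o := by
  obtain ⟨i1, i2, i3, c12, c13, c23⟩ := Stub.cOp_ok h C
  obtain ⟨-, -, e1, e2, e3⟩ := Stub.cM_pvm i1 i2 i3 c12 c13 c23
  replace e1 := e1 o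
  replace e2 := e2 o
  replace e3 := e3 o
  clear i1 i2 i3 c12 c13 c23
  generalize cM (cOp g H' X Z a B P Q S C) o = E at *
  obtain ⟨o1, o2, o3⟩ := o
  cases C with
  | U s =>
    simp only [cOp] at e1 e2 e3
    cases x with
    | L t => simp [obs] at hv; obtain ⟨rfl, rfl⟩ := hv; exact e1
    | X => simp [obs] at hv; subst hv; exact e2
    | A => simp [obs] at hv; subst hv; exact e3
    | XA => simp only [obs, Option.some.injEq] at hv; subst hv; exact E5_mul e2 e3
    | _ => simp [obs] at hv
  | V s =>
    simp only [cOp] at e1 e2 e3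
    cases x with
    | L t => simp [obs] at hv; obtain ⟨rfl, rfl⟩ := hv; exact e1
    | Z => simp [obs] at hv; subst hv; exact e2
    | B => simp [obs] at hv; subst hv; exact e3
    | ZB => simp only [obs, Option.some.injEq] at hv; subst hv; exact E5_mul e2 e3
    | H t =>
      simp only [oOp]
      cases o3 with
      | false =>
        simp [obs] at hv
        obtain ⟨rfl, rfl⟩ := hv
        rw [E5_can two_ne_zero (E5_pl e3) (h.Hp t)]
        exact e1
      | true =>
        simp [obs] at hv
        obtain ⟨ht, rfl, rfl⟩ := hv
        have h4 : (4 : ℂ) ≠ 0 := by norm_num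
        fin_cases t
        · cases o2 with
          | false =>
            exact (E5_can h4 (E5_pr (E5_mi e3) (E5_pl e2)) h.H0).trans e1
          | true =>
            exact (E5_can h4 (E5_pr (E5_mi e3) (E5_mi e2)) h.H0').trans e1
        · cases o2 with
          | false =>
            exact (E5_can h4 (E5_pr (E5_mi e3) (E5_pl e2)) h.H1).trans e1
          | true =>
            exact (E5_can h4 (E5_pr (E5_mi e3) (E5_mi e2)) h.H1').trans e1
        · exact absurd rfl ht
    | _ => simp [obs] at hv
  | D =>
    simp only [cOp] at e1 e2 e3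
    cases x with
    | L t => simp [obs] at hv; obtain ⟨rfl, rfl⟩ := hv; exact e1
    | X => simp [obs] at hv; subst hv; exact e2
    | B => simp [obs] at hv; subst hv; exact e3
    | XB => simp only [obs, Option.some.injEq] at hv; subst hv; exact E5_mul e2 e3
    | H t =>
      simp only [oOp]
      have hv2 : (t = 2 ∧ o3 = true) ∧ xor o1 o2 = v := by
        simpa [obs] using hv
      obtain ⟨⟨rfl, rfl⟩, rfl⟩ := hv2
      exact (E5_can two_ne_zero (E5_mi e3) h.H2).trans (E5_mul e1 e2)
    | _ => simp [obs] at hv
  | R3 =>
    simp only [cOp] at e1 e2 e3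
    cases x with
    | XB => simp [obs] at hv; subst hv; exact e1
    | ZA => simp [obs] at hv; subst hv; exact e2
    | Y => simp only [obs, Option.some.injEq] at hv; subst hv; exact E5_mul e1 e2
    | _ => simp [obs] at hv
  | C2 =>
    simp only [cOp] at e1 e2 e3
    cases x with
    | Z => simp [obs] at hv; subst hv; exact e1
    | A => simp [obs] at hv; subst hv; exact e2
    | ZA => simp only [obs, Option.some.injEq] at hv; subst hv; exact E5_mul e1 e2
    | _ => simp [obs] at hv
  | C3 =>
    simp only [cOp] at e1 e2 e3
    cases x with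
    | XA => simp [obs] at hv; subst hv; exact e1
    | ZB => simp [obs] at hv; subst hv; exact e2
    | Y =>
      simp only [obs, Option.some.injEq] at hv
      subst hv
      simp only [oOp]
      have e4 : X * B * (Z * a) = -(X * a * (Z * B)) := by
        calc X * B * (Z * a) = X * (B * (Z * a)) := by rw [mul_assoc]
          _ = X * (B * (a * Z)) := by rw [h.Za]
          _ = X * ((B * a) * Z) := by rw [mul_assoc]
          _ = X * (-(a * B) * Z) := by rw [h.aB, neg_neg]
          _ = -(X * (a * (B * Z))) := by rw [neg_mul, mul_neg, mul_assoc]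
          _ = -(X * (a * (Z * B))) := by rw [h.ZB]
          _ = -(X * a * (Z * B)) := by rw [mul_assoc]
      rw [e4, neg_mul, E5_mul e1 e2, E5_not, neg_smul]
    | _ => simp [obs] at hv
  | SP =>
    simp only [cOp] at e1 e2 e3
    cases x with
    | S => simp [obs] at hv; subst hv; exact e1
    | P => simp [obs] at hv; subst hv; exact e2
    | SP => simp only [obs, Option.some.injEq] at hv; subst hv; exact E5_mul e1 e2
    | _ => simp [obs] at hv
  | QB =>
    simp only [cOp] at e1 e2 e3
    cases x with
    | Q => simp [obs] at hv; subst hv; exact e1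
    | B => simp [obs] at hv; subst hv; exact e2
    | BQ => simp only [obs, Option.some.injEq] at hv; subst hv; exact E5_mul' e2 e1
    | _ => simp [obs] at hv
  | M1 =>
    simp only [cOp] at e1 e2 e3
    cases x with
    | SQ => simp [obs] at hv; subst hv; exact e1
    | BP => simp [obs] at hv; subst hv; exact e2
    | Y2 => simp only [obs, Option.some.injEq] at hv; subst hv; exact E5_mul e1 e2
    | _ => simp [obs] at hv
  | SQ =>
    simp only [cOp] at e1 e2 e3
    cases x with
    | S => simp [obs] at hv; subst hv; exact e1
    | Q => simp [obs] at hv; subst hv; exact e2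
    | SQ => simp only [obs, Option.some.injEq] at hv; subst hv; exact E5_mul e1 e2
    | _ => simp [obs] at hv
  | PB =>
    simp only [cOp] at e1 e2 e3
    cases x with
    | P => simp [obs] at hv; subst hv; exact e1
    | B => simp [obs] at hv; subst hv; exact e2
    | BP => simp only [obs, Option.some.injEq] at hv; subst hv; exact E5_mul' e2 e1
    | _ => simp [obs] at hv
  | M2 =>
    simp only [cOp] at e1 e2 e3
    cases x with
    | SP => simp [obs] at hv; subst hv; exact e1
    | BQ => simp [obs] at hv; subst hv; exact e2
    | Y2 =>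
      simp only [obs, Option.some.injEq] at hv
      subst hv
      simp only [oOp]
      have e4 : S * Q * (B * P) = -(S * P * (B * Q)) := by
        calc S * Q * (B * P) = S * (Q * (B * P)) := by rw [mul_assoc]
          _ = S * ((Q * B) * P) := by rw [mul_assoc]
          _ = S * (B * Q * P) := by rw [h.QB]
          _ = S * (B * (Q * P)) := by rw [mul_assoc B]
          _ = S * (B * (-(P * Q))) := by rw [h.PQ, neg_neg]
          _ = -(S * (B * P * Q)) := by rw [mul_neg, mul_neg, mul_assoc]
          _ = -(S * (P * B * Q)) := by rw [h.PB]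
          _ = -(S * P * (B * Q)) := by simp only [mul_assoc]
      rw [e4, neg_mul, E5_mul e1 e2, E5_not, neg_smul]
    | _ => simp [obs] at hv
  | T s =>
    have h1 := hx s rfl
    subst h1
    simp only [cOp] at e1 e2 e3
    simp [obs] at hv
    subst hv
    exact e1

end ctx

end Pool.Agent.H707R.LF
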