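import Pool.Agent.H707R.LF.StubsB

set_option autoImplicit false

namespace Pool.Agent.H707R.LF

open Pool.Agent.Helper278 Pool.Agent.Helper436.SM

section ctx

variable {A : Type} [Ring A] [StarRing A] [Algebra ℂ A] [StarModule ℂ A]

private theorem E6_n2 {τ : A →ₗ[ℂ] ℂ} (hτ : TrAlg τ) (m K β : A) (hm : star m = m)
    (hmm : m * m = m) (hK : star K = K) (hKK : K * K = 1) (hβ : star β = β) (hββ : β * β = β)
    (hKβ : β * K = K * β) : n2 τ (m * K * β) ^ 2 ≤ ‖τ β‖ := by
  have e1 : τ (star (m * K * β) * (m * K * β)) = τ (m * β) := by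
    have : star (m * K * β) * (m * K * β) = (β * K * m) * (m * K * β) := by
      rw [star_mul, star_mul, hm, hK, hβ, mul_assoc β K m]
    rw [this]
    have : (β * K * m) * (m * K * β) = (β * K) * (m * K * β) := by
      rw [mul_assoc (β * K) m, ← mul_assoc m (m * K) β, ← mul_assoc m m K, hmm]
    rw [this, hτ.comm]
    congr 1
    calc m * K * β * (β * K) = m * K * (β * β) * K := by simp only [mul_assoc]
      _ = m * K * (β * K) := by rw [hββ, mul_assoc (m * K)]
      _ = m * (K * K) * β := by rw [hKβ]; simp only [mul_assoc]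
      _ = m * β := by rw [hKK, mul_one]
  have e2 : τ (star ((1 - m) * β) * ((1 - m) * β)) = τ β - τ (m * β) := by
    have h1 : star ((1 - m) * β) * ((1 - m) * β) = β * ((1 - m) * β) := by
      rw [star_mul, star_sub, star_one, hm, hβ, mul_assoc, ← mul_assoc (1 - m) (1 - m) β]
      congr 2
      rw [sub_mul, one_mul, mul_sub, mul_one, hmm, sub_self, sub_zero]
    rw [h1, hτ.comm, mul_assoc, hββ, sub_mul, one_mul, map_sub]
  have h3 := hτ.re_nonneg ((1 - m) * β)
  rw [e2, Complex.sub_re] at h3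
  rw [hτ.n2_sq, e1]
  have h4 : (τ β).re ≤ ‖τ β‖ := Complex.re_le_norm _
  linarith

private theorem E6_norm_sgn (v : Bool) : ‖sgn v‖ = 1 := by
  cases v <;> simp [sgn]

private theorem E6_sgn_ne (v v' : Bool) (h : v ≠ v') : sgn v' = - sgn v := by
  cases v <;> cases v' <;> simp_all [sgn]

private theorem E6_sgn_ne0 (v : Bool) : sgn v ≠ 0 := by
  cases v <;> simp [sgn]

private theorem E6_star_sgn (v : Bool) : star (sgn v) = sgn v := by
  cases v <;> simp [sgn]

private theorem E6_right (K m : A) (v : Bool) (hK : star K = K) (hm : star m = m)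
    (h : K * m = sgn v • m) : m * K = sgn v • m := by
  have := congrArg star h
  rwa [star_mul, star_smul, hK, hm, E6_star_sgn] at this

private theorem E6_zero (K m m' : A) (v v' : Bool) (hv : v ≠ v') (hK : star K = K)
    (hm : star m = m) (h : K * m = sgn v • m) (h' : K * m' = sgn v' • m') : m * m' = 0 := by
  have h1 : m * K * m' = sgn v • (m * m') := by
    rw [E6_right K m v hK hm h, smul_mul_assoc]
  have h2 : m * K * m' = sgn v' • (m * m') := by
    rw [mul_assoc, h', mul_smul_comm]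
  rw [E6_sgn_ne v v' hv] at h2
  have h3 : (sgn v + sgn v) • (m * m') = 0 := by
    rw [add_smul, ← h1]
    nth_rewrite 1 [h2]
    rw [h1, neg_smul, neg_add_cancel]
  have h4 : sgn v + sgn v ≠ 0 := by
    rw [← two_mul]; exact mul_ne_zero two_ne_zero (E6_sgn_ne0 v)
  exact (smul_eq_zero_iff_right h4).mp h3

private theorem E6_main {τ : A →ₗ[ℂ] ℂ} (hτ : TrAlg τ) (m m' G G' β : A) (v v' : Bool)
    (hv : v ≠ v') (hm : star m = m) (hmm : m * m = m) (hm' : star m' = m')
    (hmm' : m' * m' = m') (hβ : star β = β) (hββ : β * β = β) (hG : star G = G)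
    (hGG : G * G = 1) (hG' : star G' = G') (hGG' : G' * G' = 1) (hGβ : β * G = G * β)
    (hGβ' : β * G' = G' * β) (hd : G' * (1 - β) = G * (1 - β)) (h : G' * m = sgn v • m)
    (h' : G * m' = sgn v' • m') : ‖τ (m * m')‖ ≤ ‖τ β‖ := by
  have b1 : ‖τ ((m * G' * β) * (β * m'))‖ ≤ ‖τ β‖ := by
    have h1 := hτ.cauchy' (m * G' * β) (β * m')
    have h2 := E6_n2 hτ m G' β hm hmm hG' hGG' hβ hββ hGβ'
    have h3 := E6_n2 hτ m' 1 β hm' hmm' (star_one A) (one_mul 1) hβ hββ (by simp)
    have h4 : n2 τ (m' * 1 * β) = n2 τ (β * m') := by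
      rw [← hτ.n2_star, star_mul, mul_one, hβ, hm']
    rw [h4] at h3
    nlinarith [n2_nonneg τ (m * G' * β), n2_nonneg τ (β * m'),
      sq_nonneg (n2 τ (m * G' * β) - n2 τ (β * m'))]
  have b2 : ‖τ ((m * G * β) * (β * m'))‖ ≤ ‖τ β‖ := by
    have h1 := hτ.cauchy' (m * G * β) (β * m')
    have h2 := E6_n2 hτ m G β hm hmm hG hGG hβ hββ hGβ
    have h3 := E6_n2 hτ m' 1 β hm' hmm' (star_one A) (one_mul 1) hβ hββ (by simp)
    have h4 : n2 τ (m' * 1 * β) = n2 τ (β * m') := by
      rw [← hτ.n2_star, star_mul, mul_one, hβ, hm']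
    rw [h4] at h3
    nlinarith [n2_nonneg τ (m * G * β), n2_nonneg τ (β * m'),
      sq_nonneg (n2 τ (m * G * β) - n2 τ (β * m'))]
  have e1 : m * G' * m' = sgn v • (m * m') := by
    rw [E6_right G' m v hG' hm h, smul_mul_assoc]
  have e2 : m * G * m' = -(sgn v • (m * m')) := by
    rw [mul_assoc, h', mul_smul_comm, E6_sgn_ne v v' hv, neg_smul]
  have e3 : m * G' * m' - m * G * m' = (m * G' * β) * (β * m') - (m * G * β) * (β * m') := by
    have f1 : G' - G = (G' - G) * β := by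
      have : (G' - G) * (1 - β) = 0 := by rw [sub_mul, hd, sub_self]
      rw [mul_sub, mul_one] at this
      exact sub_eq_zero.mp this
    calc m * G' * m' - m * G * m' = m * (G' - G) * m' := by rw [mul_sub, sub_mul]
      _ = m * ((G' - G) * β) * m' := by rw [← f1]
      _ = m * ((G' - G) * (β * β)) * m' := by rw [hββ]
      _ = (m * G' * β) * (β * m') - (m * G * β) * (β * m') := by
        simp only [sub_mul, mul_sub, mul_assoc]
  have e4 : (2 * sgn v) * τ (m * m') =
      τ ((m * G' * β) * (β * m')) - τ ((m * G * β) * (β * m')) := by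
    rw [← map_sub, ← e3, e1, e2, sub_neg_eq_add, ← two_smul ℂ, map_smul, map_smul, smul_eq_mul,
      smul_eq_mul, mul_assoc]
  have e5 : ‖(2 * sgn v) * τ (m * m')‖ = 2 * ‖τ (m * m')‖ := by
    rw [norm_mul, norm_mul, E6_norm_sgn]; simp
  have e6 := norm_sub_le (τ ((m * G' * β) * (β * m'))) (τ ((m * G * β) * (β * m')))
  rw [← e4, e5] at e6
  linarith

variable {g H H' : Fin 3 → A} {X Z a B P Q S β : A}

private theorem E6_star (h : Mod g H H' X Z a B P Q S β) (x : Obs) :
    star (oOp g H X Z a B P Q S x) = oOp g H X Z a B P Q S x := by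
  have sX := h.iX.1
  have sZ := h.iZ.1
  have sa := h.ia.1
  have sB := h.iB.1
  have sP := h.iP.1
  have sQ := h.iQ.1
  have sS := h.iS.1
  cases x with
  | L s => exact (h.ig s).1
  | H s => exact (h.iH s).1
  | X => exact sX
  | A => exact sa
  | Z => exact sZ
  | B => exact sB
  | S => exact sS
  | P => exact sP
  | Q => exact sQ
  | XA => show star (X * a) = X * a; rw [star_mul, sX, sa, h.Xa]
  | ZB => show star (Z * B) = Z * B; rw [star_mul, sZ, sB, h.ZB]
  | XB => show star (X * B) = X * B; rw [star_mul, sX, sB, h.XB]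
  | ZA => show star (Z * a) = Z * a; rw [star_mul, sZ, sa, h.Za]
  | SP => show star (S * P) = S * P; rw [star_mul, sS, sP, h.SP]
  | BQ => show star (B * Q) = B * Q; rw [star_mul, sB, sQ, h.QB]
  | SQ => show star (S * Q) = S * Q; rw [star_mul, sS, sQ, h.SQ]
  | BP => show star (B * P) = B * P; rw [star_mul, sB, sP, h.PB]
  | Y =>
    show star (X * B * (Z * a)) = X * B * (Z * a)
    rw [star_mul, star_mul, star_mul, sX, sB, sZ, sa]
    calc a * Z * (B * X) = Z * a * (X * B) := by rw [h.Za, h.XB]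
      _ = Z * (a * X) * B := by simp only [mul_assoc]
      _ = (Z * X) * (a * B) := by rw [← h.Xa]; simp only [mul_assoc]
      _ = (-(X * Z)) * (-(B * a)) := by rw [h.aB, h.XZ, neg_neg]
      _ = X * (Z * B) * a := by rw [neg_mul_neg]; simp only [mul_assoc]
      _ = X * B * (Z * a) := by rw [h.ZB]; simp only [mul_assoc]
  | Y2 =>
    show star (S * Q * (B * P)) = S * Q * (B * P)
    rw [star_mul, star_mul, star_mul, sS, sQ, sB, sP]
    calc P * B * (Q * S) = B * P * (S * Q) := by rw [h.PB, h.SQ]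
      _ = B * (P * S) * Q := by simp only [mul_assoc]
      _ = (B * S) * (P * Q) := by rw [← h.SP]; simp only [mul_assoc]
      _ = (-(S * B)) * (-(Q * P)) := by rw [h.SB, h.PQ, neg_neg]
      _ = S * (B * Q) * P := by rw [neg_mul_neg]; simp only [mul_assoc]
      _ = S * Q * (B * P) := by rw [← h.QB]; simp only [mul_assoc]

private theorem E6_obsT (s : Fin 3) (o : Out) (x : Obs) (v : Bool) (hx : x ≠ .S)
    (h : obs (.T s) o x = some v) : x = .H s ∧ v = o.2.1 := by
  cases x with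
  | H t =>
    simp only [obs] at h
    split_ifs at h with ht
    subst ht
    exact ⟨rfl, by simpa using h.symm⟩
  | S => exact absurd rfl hx
  | _ => simp [obs] at h

private theorem E6_one (h : Mod g H H' X Z a B P Q S β) {τ : A →ₗ[ℂ] ℂ} (hτ : TrAlg τ)
    (s : Fin 3) (C' : Ctx) (o o' : Out) (v' : Bool) (hv : o.2.1 ≠ v')
    (hb : obs C' o' (.H s) = some v') :
    ‖τ (cM (cOp g H' X Z a B P Q S (.T s)) o * cM (cOp g H' X Z a B P Q S C') o')‖ ≤ ‖τ β‖ := by
  obtain ⟨h1, h2, h3, h12, h13, h23⟩ := Stub.cOp_ok h (.T s)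
  obtain ⟨p1, p2, p3, p4, p5⟩ := Stub.cM_pvm h1 h2 h3 h12 h13 h23
  obtain ⟨k1, k2, k3, k12, k13, k23⟩ := Stub.cOp_ok h C'
  obtain ⟨q1, q2, q3, q4, q5⟩ := Stub.cM_pvm k1 k2 k3 k12 k13 k23
  by_cases hC : ∃ s', C' = .T s'
  · obtain ⟨s', rfl⟩ := hC
    obtain ⟨hs, hv'⟩ := E6_obsT s' o' (.H s) v' (by simp) hb
    injection hs with hs
    subst hs
    rw [p1.orth o o' (by rintro rfl; exact hv hv'.symm), map_zero, norm_zero]
    exact norm_nonneg _
  · have e := Stub.obs_eig h C' o' (.H s) v' hb (fun s' hs' => absurd ⟨s', hs'⟩ hC)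
    refine E6_main hτ _ _ (H s) (H' s) β o.2.1 v' hv (p2 o) (p1.idem o) (q2 o') (q1.idem o')
      h.bs h.bb (h.iH s).1 (h.iH s).2 (h.iH' s).1 (h.iH' s).2 (h.bH s) (h.bH' s) (h.HH s) ?_ e
    exact p4 o

/-- E6 -/
theorem bad_small (h : Mod g H H' X Z a B P Q S β) {τ : A →ₗ[ℂ] ℂ} (hτ : TrAlg τ) (C C' : Ctx)
    (o o' : Out) (hb : Bad C o C' o') :
    ‖τ (cM (cOp g H' X Z a B P Q S C) o * cM (cOp g H' X Z a B P Q S C') o')‖ ≤ ‖τ β‖ := by
  obtain ⟨h1, h2, h3, h12, h13, h23⟩ := Stub.cOp_ok h C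
  obtain ⟨p1, p2, p3, p4, p5⟩ := Stub.cM_pvm h1 h2 h3 h12 h13 h23
  rcases hb with ⟨rfl, ho⟩ | ⟨x, v, v', hv, hv', hne⟩
  · rw [p1.orth o o' ho, map_zero, norm_zero]
    exact norm_nonneg _
  · by_cases hC : ∀ s, C = .T s → x = .S
    · by_cases hC' : ∀ s, C' = .T s → x = .S
      · have e1 := Stub.obs_eig h C o x v hv hC
        have e2 := Stub.obs_eig h C' o' x v' hv' hC'
        rw [E6_zero _ _ _ v v' hne (E6_star h x) (p2 o) e1 e2, map_zero, norm_zero]
        exact norm_nonneg _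
      · push Not at hC'
        obtain ⟨s, rfl, hx⟩ := hC'
        obtain ⟨rfl, rfl⟩ := E6_obsT s o' x v' hx hv'
        rw [hτ.comm]
        exact E6_one h hτ s C o' o v (Ne.symm hne) hv
    · push Not at hC
      obtain ⟨s, rfl, hx⟩ := hC
      obtain ⟨rfl, rfl⟩ := E6_obsT s o x v hx hv
      exact E6_one h hτ s C' o o' v' hne hv'

end ctx

end Pool.Agent.H707R.LF
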