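import Pool.Agent.H707R.LF.StubsB

set_option autoImplicit false

open scoped Kronecker

namespace Pool.Agent.H707R.LF

open Pool.Agent.Helper278 Pool.Agent.Helper436.SM

section F2

variable {H : Type} [NormedAddCommGroup H] [InnerProductSpace ℂ H] [CompleteSpace H]
  {N : VonNeumannAlgebra H}

/-- functions of the family which are Lipschitz in the 2-norm on bounded sets -/
private def F2_Lip (T : TracialState N) (κ : Type) [Fintype κ] [DecidableEq κ]
    (F : ((κ → Bool) → Out → Elt N) → Elt N) : Prop :=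
  ∃ b K : ℝ, 0 ≤ b ∧ 0 ≤ K ∧ ∀ (r r' : (κ → Bool) → Out → Elt N) (d : ℝ), 0 ≤ d → HP r → HP r' →
    (∀ v o, n2 T.τ (r v o - r' v o) ≤ d) →
      ‖((F r : Elt N) : H →L[ℂ] H)‖ ≤ b ∧ ‖((F r' : Elt N) : H →L[ℂ] H)‖ ≤ b ∧
        n2 T.τ (F r - F r') ≤ K * d

private theorem F2_proj (p : Elt N) (h1 : star p = p) (h2 : p * p = p) :
    ‖(p : H →L[ℂ] H)‖ ≤ 1 := by
  have h3 : star (p : H →L[ℂ] H) = (p : H →L[ℂ] H) := congrArg Subtype.val h1
  have h4 : (p : H →L[ℂ] H) * (p : H →L[ℂ] H) = (p : H →L[ℂ] H) := congrArg Subtype.val h2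
  have h5 := CStarRing.norm_star_mul_self (x := (p : H →L[ℂ] H))
  rw [h3, h4] at h5
  nlinarith [norm_nonneg (p : H →L[ℂ] H), sq_nonneg (‖(p : H →L[ℂ] H)‖ - 1)]

private theorem F2_coord (T : TracialState N) (κ : Type) [Fintype κ] [DecidableEq κ]
    (v : κ → Bool) (o : Out) : F2_Lip T κ (fun r => r v o) := by
  refine ⟨1, 1, zero_le_one, zero_le_one, fun r r' d _ h h' hd => ⟨?_, ?_, ?_⟩⟩
  · exact F2_proj _ (h.sa v o) (h.idem v o)
  · exact F2_proj _ (h'.sa v o) (h'.idem v o)
  · rw [one_mul]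
    exact hd v o

private theorem F2_const (T : TracialState N) (κ : Type) [Fintype κ] [DecidableEq κ]
    (x : Elt N) : F2_Lip T κ (fun _ => x) := by
  refine ⟨‖(x : H →L[ℂ] H)‖, 0, norm_nonneg _, le_rfl, fun r r' d _ h h' hd => ⟨le_rfl, le_rfl, ?_⟩⟩
  rw [sub_self, (trAlg T).n2_zero, zero_mul]

private theorem F2_add {T : TracialState N} {κ : Type} [Fintype κ] [DecidableEq κ]
    {F F' : ((κ → Bool) → Out → Elt N) → Elt N} (h1 : F2_Lip T κ F) (h2 : F2_Lip T κ F') :
    F2_Lip T κ (fun r => F r + F' r) := by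
  obtain ⟨b, K, hb, hK, h1⟩ := h1
  obtain ⟨b', K', hb', hK', h2⟩ := h2
  refine ⟨b + b', K + K', by positivity, by positivity, fun r r' d hd0 h h' hd => ?_⟩
  obtain ⟨p1, p2, p3⟩ := h1 r r' d hd0 h h' hd
  obtain ⟨q1, q2, q3⟩ := h2 r r' d hd0 h h' hd
  refine ⟨?_, ?_, ?_⟩
  · exact (norm_add_le _ _).trans (add_le_add p1 q1)
  · exact (norm_add_le _ _).trans (add_le_add p2 q2)
  · have h3 : F r + F' r - (F r' + F' r') = (F r - F r') + (F' r - F' r') := by abel
    rw [h3, add_mul]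
    exact ((trAlg T).n2_add_le _ _).trans (add_le_add p3 q3)

private theorem F2_mul {T : TracialState N} {κ : Type} [Fintype κ] [DecidableEq κ]
    {F F' : ((κ → Bool) → Out → Elt N) → Elt N} (h1 : F2_Lip T κ F) (h2 : F2_Lip T κ F') :
    F2_Lip T κ (fun r => F r * F' r) := by
  obtain ⟨b, K, hb, hK, h1⟩ := h1
  obtain ⟨b', K', hb', hK', h2⟩ := h2
  refine ⟨b * b', K * b' + b * K', by positivity, by positivity, fun r r' d hd0 h h' hd => ?_⟩
  obtain ⟨p1, p2, p3⟩ := h1 r r' d hd0 h h' hd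
  obtain ⟨q1, q2, q3⟩ := h2 r r' d hd0 h h' hd
  refine ⟨?_, ?_, ?_⟩
  · exact (norm_mul_le _ _).trans (mul_le_mul p1 q1 (norm_nonneg _) hb)
  · exact (norm_mul_le _ _).trans (mul_le_mul p2 q2 (norm_nonneg _) hb)
  · have h3 : F r * F' r - F r' * F' r' = (F r - F r') * F' r + F r' * (F' r - F' r') := by
      noncomm_ring
    rw [h3]
    refine ((trAlg T).n2_add_le _ _).trans ?_
    have e1 := n2_mul_le' T (F r - F r') (F' r)
    have e2 := n2_mul_le T (F r') (F' r - F' r')
    have e3 : ‖((F' r : Elt N) : H →L[ℂ] H)‖ * n2 T.τ (F r - F r') ≤ b' * (K * d) :=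
      mul_le_mul q1 p3 (n2_nonneg _ _) hb'
    have e4 : ‖((F r' : Elt N) : H →L[ℂ] H)‖ * n2 T.τ (F' r - F' r') ≤ b * (K' * d) :=
      mul_le_mul p2 q3 (n2_nonneg _ _) hb
    calc n2 T.τ ((F r - F r') * F' r) + n2 T.τ (F r' * (F' r - F' r'))
        ≤ b' * (K * d) + b * (K' * d) := add_le_add (e1.trans e3) (e2.trans e4)
      _ = (K * b' + b * K') * d := by ring

private theorem F2_sum {T : TracialState N} {κ : Type} [Fintype κ] [DecidableEq κ] {ι : Type}
    (s : Finset ι) (F : ι → ((κ → Bool) → Out → Elt N) → Elt N) (h : ∀ i, F2_Lip T κ (F i)) :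
    F2_Lip T κ (fun r => ∑ i ∈ s, F i r) := by
  classical
  induction s using Finset.induction_on with
  | empty => simpa using F2_const T κ (0 : Elt N)
  | insert a s ha ih =>
    have := F2_add (h a) ih
    simpa only [Finset.sum_insert ha] using this

private theorem F2_list {T : TracialState N} {κ : Type} [Fintype κ] [DecidableEq κ] {ι : Type}
    (l : List ι) (F : ((κ → Bool) → Out → Elt N) → ι → Elt N)
    (h : ∀ i, F2_Lip T κ (fun r => F r i)) :
    F2_Lip T κ (fun r => (l.map (F r)).prod) := by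
  induction l with
  | nil => simpa using F2_const T κ (1 : Elt N)
  | cons a l ih =>
    have := F2_mul (h a) ih
    simpa only [List.map_cons, List.prod_cons] using this

private theorem F2_zO (T : TracialState N) (κ : Type) [Fintype κ] [DecidableEq κ] (k : κ) :
    F2_Lip T κ (fun r => zO (vG r) k) := by
  have hG : ∀ v, F2_Lip T κ (fun r => vG r v) := fun v => by
    unfold vG
    exact F2_sum Finset.univ (fun o r => r v o) (fun o => F2_coord T κ v o)
  unfold zO
  exact F2_sum _ (fun v r => vG r v * vG r (flp k v) * vG r v)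
    (fun v => F2_mul (F2_mul (hG v) (hG (flp k v))) (hG v))

/-- F2 : a family which is close to one with `z k = 1 / D` has a nonzero product of its `z k` -/
theorem near_ne {H : Type} [NormedAddCommGroup H] [InnerProductSpace ℂ H] [CompleteSpace H]
    {N : VonNeumannAlgebra H} (T : TracialState N) (κ : Type) [Fintype κ] [DecidableEq κ]
    [Nonempty κ] :
    ∃ δ : ℝ, 0 < δ ∧ ∀ r r' : (κ → Bool) → Out → Elt N, HP r → HP r' →
      (∀ k, zO (vG r) k = ((Fintype.card κ : ℂ)⁻¹) • (1 : Elt N)) →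
      (∀ v o, n2 T.τ (r v o - r' v o) < δ) →
      ((Finset.univ : Finset κ).toList.map (zO (vG r'))).prod ≠ 0 := by
  classical
  obtain ⟨b, K, hb, hK, hL⟩ := F2_list (T := T) (κ := κ) (Finset.univ : Finset κ).toList
    (fun r k => zO (vG r) k) (F2_zO T κ)
  set c : ℂ := ((Fintype.card κ : ℂ)⁻¹) ^ (Finset.univ : Finset κ).toList.length with hc
  have hc0 : c ≠ 0 := by
    rw [hc]
    refine pow_ne_zero _ (inv_ne_zero ?_)
    exact_mod_cast Fintype.card_ne_zero
  have hT := trAlg T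
  have hpos : 0 < n2 T.τ (c • (1 : Elt N)) := by
    refine lt_of_le_of_ne (n2_nonneg _ _) (fun h => hc0 ?_)
    have h1 := hT.n2_sq (c • (1 : Elt N))
    rw [← h] at h1
    have h2 : T.τ (star (c • (1 : Elt N)) * (c • (1 : Elt N))) = 0 := by
      apply Complex.ext
      · rw [← h1]
        simp
      · rw [hT.im_zero]
        simp
    have h3 := hT.faithful _ h2
    have h4 : T.τ (c • (1 : Elt N)) = c := by
      rw [map_smul, hT.one, smul_eq_mul, mul_one]
    rw [← h4, h3, map_zero]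
  refine ⟨n2 T.τ (c • (1 : Elt N)) / (2 * (K + 1)), by positivity, fun r r' h h' hz hd h0 => ?_⟩
  obtain ⟨-, -, h3⟩ := hL r r' (n2 T.τ (c • (1 : Elt N)) / (2 * (K + 1))) (by positivity) h h'
    (fun v o => (hd v o).le)
  have h5 : ((Finset.univ : Finset κ).toList.map (zO (vG r))).prod = c • (1 : Elt N) := by
    have h6 : (Finset.univ : Finset κ).toList.map (zO (vG r)) =
        (Finset.univ : Finset κ).toList.map
          (fun _ => ((Fintype.card κ : ℂ)⁻¹) • (1 : Elt N)) :=
      List.map_congr_left (fun k _ => hz k)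
    rw [h6, List.map_const', List.prod_replicate, smul_pow, one_pow]
  have h6 : n2 T.τ (c • (1 : Elt N)) ≤ K * (n2 T.τ (c • (1 : Elt N)) / (2 * (K + 1))) := by
    have h7 := h3
    simp only at h7
    rw [h5, h0, sub_zero] at h7
    exact h7
  have h8 : K * (n2 T.τ (c • (1 : Elt N)) / (2 * (K + 1))) < n2 T.τ (c • (1 : Elt N)) := by
    rw [← mul_div_assoc, div_lt_iff₀ (by positivity)]
    nlinarith
  exact absurd h6 (not_le.2 h8)

end F2

end Pool.Agent.H707R.LF
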