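import Pool.Agent.H707R.LF.StubsB
import Pool.Agent.H707R.LF.StubsC
import Pool.Agent.H707R.LF.StubsD

/-!
# F3: no solutions of the exact relations near the approximate solutions
-/

set_option autoImplicit false

namespace Pool.Agent.H707R.LF

open Pool.Agent.Helper278 Pool.Agent.Helper436.SM

/-- F3 : no solutions of the exact relations near the approximate solutions -/
theorem core : ∃ (m : ℕ) (f : (Fin m → Bool) → Ctx) (δ : ℝ), 0 < δ ∧ ∀ ε : ℝ, 0 < ε →
    ∃ r : (Kap m → Bool) → Out → Elt ExR.NP, HP r ∧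
      (∀ v w o o', par v ≠ par w → (∀ k, w ≠ flp k v) → r v o * r w o' = 0) ∧
      (∀ v k o o', Bad (lab f v) o (lab f (flp k v)) o' →
        ‖ExR.TP.τ (r v o * r (flp k v) o')‖ ≤ ε) ∧
      ∀ r' : (Kap m → Bool) → Out → Elt ExR.NP, HC (lab f) r' →
        ∃ v o, δ ≤ n2 ExR.TP.τ (r v o - r' v o) := by
  obtain ⟨f, hf⟩ : ∃ f : (Fin 5 → Bool) → Ctx, Function.Surjective f := by
    have hc : Fintype.card Ctx ≤ Fintype.card (Fin 5 → Bool) := by
      have h1 : Fintype.card Ctx = 19 := by decide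
      rw [h1]
      simp
    obtain ⟨g⟩ := Function.Embedding.nonempty_of_card_le hc
    haveI : Nonempty Ctx := ⟨Ctx.D⟩
    exact ⟨Function.invFun g, Function.invFun_surjective g.injective⟩
  obtain ⟨δ, hδ, H⟩ := Stub.near_ne ExR.TP (Kap 5)
  refine ⟨5, f, δ, hδ, ?_⟩
  intro ε hε
  obtain ⟨r, h1, h2, h3, h4⟩ := Stub.exists_approx Stub.PH_NP.pauli (Kap 5) (lab f) ε hε
  refine ⟨r, h1, h2, h3, ?_⟩
  intro r' hr'
  by_contra hcon
  push Not at hcon
  have hne := H r r' h1 hr'.hp h4 hcon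
  obtain ⟨rp, hR⟩ := Stub.exists_rick ExR.NP
  obtain ⟨e, n, he, hS, hsa⟩ := Stub.cube_sys hR f hf hr' hne
  obtain ⟨g, hI, hg⟩ := Stub.sys_trace hS hsa ExR.TP.τ Stub.PH_NP.tr.comm
  exact Stub.no_free Stub.PH_NP hI he hg

end Pool.Agent.H707R.LF
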